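import Pool.Agent.H36.G00.Prod

set_option autoImplicit false

/-! # The hexacode -/

namespace Pool.Agent.H36.G00

open Complex Matrix

/-- odd characteristic at position `i` -/
def od (e : Fin 6 → Fin 2) (i : Fin 6) : Bool := decide ((e i : ℕ) = 1) && decide (ch e i % 2 = 1)

/-- exponent of `ω` of the even characteristics: `(0,0) ↦ 0`, `(0,1) ↦ 2`, `(1,0) ↦ 1` -/
def kx (e : Fin 6 → Fin 2) (i : Fin 6) : ℕ :=
  if (e i : ℕ) = 1 then 1 else if ch e i % 2 = 1 then 2 else 0

/-- powers of `ω` in the basis `1, ω` -/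
def zw (k : ℕ) : ℤ × ℤ := if k % 3 = 0 then (1, 0) else if k % 3 = 1 then (0, 1) else (-1, -1)

lemma zw_spec (k : ℕ) : om ^ k = ((zw k).1 : ℂ) + ((zw k).2 : ℂ) * om := by
  have h3 := om_cube
  have h : om ^ k = om ^ (k % 3) := by
    conv_lhs => rw [← Nat.div_add_mod k 3, pow_add, pow_mul, h3, one_pow, one_mul]
  rw [h]
  have h4 : k % 3 < 3 := Nat.mod_lt _ (by norm_num)
  unfold zw
  interval_cases hk : k % 3
  · simp
  · simp
  · simp only [om_sq]
    norm_num
    ring

lemma comb_pair : ∀ e : Fin 6 → Fin 2, od e 2 = false → od e 3 = false → od e 4 = false →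
    od e 5 = false → od e 0 = od e 1 := by
  decide +kernel

lemma comb_id : ∀ e : Fin 6 → Fin 2, od e 0 = false → od e 1 = false → od e 2 = false →
    od e 3 = false → od e 4 = false → od e 5 = false →
    zw (2 * kx e 0 + 2 * kx e 1) + zw (2 * kx e 0 + 2 * kx e 1) + zw (2 + kx e 2) + zw (kx e 3) +
      zw (kx e 4) + zw (2 + kx e 5) = 0 := by
  decide +kernel

lemma comb_word : ∀ a b : Fin 6, a < b → ∃ e : Fin 6 → Fin 2, ∀ i, od e i = decide (i = a ∨ i = b) := by
  decide +kernel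

/-- the words without odd characteristic -/
def WW : Finset (Fin 6 → Fin 2) := Finset.univ.filter (fun e => ∀ i, od e i = false)

lemma sum_one : ∀ a : Fin 6, ∑ e ∈ WW, zw (2 * kx e a) = 0 := by
  decide +kernel

lemma sum_orth : ∀ a b : Fin 6, ∑ e ∈ WW, zw (kx e b + 2 * kx e a) = if a = b then (18, 0) else 0 := by
  decide +kernel

lemma sum_two : ∀ a : Fin 6, ∑ e ∈ WW, zw (2 * kx e 0 + 2 * kx e 1 + 2 * kx e a) =
    ![0, 0, (9, 9), (-9, 0), (-9, 0), (9, 9)] a := by
  decide +kernel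

end Pool.Agent.H36.G00
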