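import Mathlib

set_option autoImplicit false

/-! # Principally polarized abelian varieties, second order theta functions, `Γ₀₀` -/

namespace Pool.Agent.H36.G00

open Complex Matrix

variable {ι κ : Type} [Fintype ι] [DecidableEq ι] [Fintype κ] [DecidableEq κ]

/-- The Siegel upper half-space: symmetric matrices with positive definite imaginary part. -/
def InSiegel (τ : Matrix ι ι ℂ) : Prop := τ.IsSymm ∧ (τ.map Complex.im).PosDef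

/-- The lattice vector `m + τ n`, `m, n ∈ ℤ^g`. -/
noncomputable def pt (τ : Matrix ι ι ℂ) (m n : ι → ℤ) : ι → ℂ :=
  (fun i => (m i : ℂ)) + τ *ᵥ (fun i => (n i : ℂ))

/-- The period lattice `Λ_τ = ℤ^g + τ ℤ^g`, so that `A_τ = ℂ^g / Λ_τ`. -/
def lattice (τ : Matrix ι ι ℂ) : Set (ι → ℂ) := {z | ∃ m n : ι → ℤ, z = pt τ m n}

/-- The linear isomorphism `φ` of the tangent spaces induces an isomorphism of the principally
polarized abelian varieties `A_τ` and `A_τ'`: it maps the lattice onto the lattice and respects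
the alternating forms `E (m + τ n, m' + τ n') = n · m' - m · n'`. -/
def IsIso (τ : Matrix ι ι ℂ) (τ' : Matrix κ κ ℂ) (φ : (ι → ℂ) ≃ₗ[ℂ] (κ → ℂ)) : Prop :=
  (∀ z, z ∈ lattice τ ↔ φ z ∈ lattice τ') ∧
  ∀ (m n m' n' : ι → ℤ) (M N M' N' : κ → ℤ),
    φ (pt τ m n) = pt τ' M N → φ (pt τ m' n') = pt τ' M' N' →
      N ⬝ᵥ M' - M ⬝ᵥ N' = n ⬝ᵥ m' - m ⬝ᵥ n'

/-- `A_τ` is isomorphic, as a principally polarized abelian variety, to a product of two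
principally polarized abelian varieties of positive dimension. -/
def Decomposable (τ : Matrix ι ι ℂ) : Prop :=
  ∃ (g₁ g₂ : ℕ) (τ₁ : Matrix (Fin g₁) (Fin g₁) ℂ) (τ₂ : Matrix (Fin g₂) (Fin g₂) ℂ)
    (φ : (ι → ℂ) ≃ₗ[ℂ] (Fin g₁ ⊕ Fin g₂ → ℂ)),
    0 < g₁ ∧ 0 < g₂ ∧ InSiegel τ₁ ∧ InSiegel τ₂ ∧ IsIso τ (Matrix.fromBlocks τ₁ 0 0 τ₂) φ

/-- The sections of `2Θ` on `A_τ`, as functions on `ℂ^g`: holomorphic functions `f` with
`f (z + m + τ n) = exp (-2πi (nᵗ τ n + 2 nᵗ z)) f z`. -/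
def IsSection (τ : Matrix ι ι ℂ) (f : (ι → ℂ) → ℂ) : Prop :=
  Differentiable ℂ f ∧ ∀ (m n : ι → ℤ) (z : ι → ℂ),
    f (z + pt τ m n) =
      exp (-(2 * Real.pi * I * ((fun i => (n i : ℂ)) ⬝ᵥ τ *ᵥ (fun i => (n i : ℂ)) +
        2 * ((fun i => (n i : ℂ)) ⬝ᵥ z)))) * f z

/-- The members of `Γ₀₀`: sections of `2Θ` vanishing to order at least `4` at the origin. -/
def Gamma00 (τ : Matrix ι ι ℂ) (f : (ι → ℂ) → ℂ) : Prop :=
  IsSection τ f ∧ ∀ k < 4, iteratedFDeriv ℂ k f 0 = 0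

/-- The base locus of `Γ₀₀` (as a `Λ_τ`-invariant subset of `ℂ^g`). -/
def Bs (τ : Matrix ι ι ℂ) : Set (ι → ℂ) := {z | ∀ f, Gamma00 τ f → f z = 0}

/-- The second order theta function `Θ[ε](τ, z)`, `ε = e / 2`, `e ∈ {0, 1}^g`. -/
noncomputable def Theta (e : ι → Fin 2) (τ : Matrix ι ι ℂ) (z : ι → ℂ) : ℂ :=
  ∑' n : ι → ℤ, exp (2 * Real.pi * I *
    ((fun i => (n i : ℂ) + ((e i : ℕ) : ℂ) / 2) ⬝ᵥ τ *ᵥ (fun i => (n i : ℂ) + ((e i : ℕ) : ℂ) / 2) +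
      2 * ((fun i => (n i : ℂ) + ((e i : ℕ) : ℂ) / 2) ⬝ᵥ z)))

/-- The symmetric matrix with entries `1` at `(a, b)` and `(b, a)`. -/
def symUnit (a b : ι) : Matrix ι ι ℂ := fun i j => if (i = a ∧ j = b) ∨ (i = b ∧ j = a) then 1 else 0

/-- The derivative `∂_{τ_{ab}} Θ[ε](τ, 0)` in the symmetric variable `τ_{ab} = τ_{ba}`. -/
noncomputable def dTheta (a b : ι) (e : ι → Fin 2) (τ : Matrix ι ι ℂ) : ℂ :=
  deriv (fun t : ℂ => Theta e (τ + t • symUnit a b) 0) 0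

/-- The equations `(*)`: `Θ[ε](τ, z) = l Θ[ε](τ, 0) + ∑_{a ≤ b} L_{ab} ∂_{τ_{ab}} Θ[ε](τ, 0)`
for all `ε`. -/
def Star {g : ℕ} (τ : Matrix (Fin g) (Fin g) ℂ) (z : Fin g → ℂ) (l : ℂ)
    (L : Matrix (Fin g) (Fin g) ℂ) : Prop :=
  ∀ e : Fin g → Fin 2, Theta e τ z = l * Theta e τ 0 +
    ∑ p ∈ Finset.univ.filter (fun p : Fin g × Fin g => p.1 ≤ p.2),
      L p.1 p.2 * dTheta p.1 p.2 e τ

end Pool.Agent.H36.G00
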