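import Mathlib

set_option autoImplicit false

/-! # Series lemmas -/

namespace Pool.Agent.H36.G00

open Complex Matrix

/-- termwise differentiation of `∑ aᵢ exp (t bᵢ)` -/
lemma hasDerivAt_expSum {ι : Type*} (a b : ι → ℂ) {R : ℝ}
    (h : Summable fun i => ‖a i‖ * Real.exp (R * ‖b i‖)) {t : ℂ} (ht : ‖t‖ < R) :
    HasDerivAt (fun t : ℂ => ∑' i, a i * cexp (t * b i)) (∑' i, a i * b i * cexp (t * b i)) t := by
  obtain ⟨r, hr1, hr2⟩ := exists_between ht
  have hr0 : 0 < r := (norm_nonneg t).trans_lt hr1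
  have hd : 0 < R - r := by linarith
  have key : ∀ (x : ℝ), 0 ≤ x → x * Real.exp (r * x) ≤ (R - r)⁻¹ * Real.exp (R * x) := by
    intro x hx
    have h1 : (R - r) * x ≤ Real.exp ((R - r) * x) := by
      have := Real.add_one_le_exp ((R - r) * x)
      linarith
    have h2 : Real.exp (R * x) = Real.exp ((R - r) * x) * Real.exp (r * x) := by
      rw [← Real.exp_add]; congr 1; ring
    rw [h2]
    have h3 : x ≤ (R - r)⁻¹ * Real.exp ((R - r) * x) := by
      rw [inv_mul_eq_div, le_div_iff₀ hd]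
      linarith
    calc x * Real.exp (r * x) ≤ ((R - r)⁻¹ * Real.exp ((R - r) * x)) * Real.exp (r * x) :=
          mul_le_mul_of_nonneg_right h3 (Real.exp_pos _).le
      _ = _ := by ring
  have hexp : ∀ (i : ι) (y : ℂ), ‖y‖ < r → ‖cexp (y * b i)‖ ≤ Real.exp (r * ‖b i‖) := by
    intro i y hy
    rw [Complex.norm_exp]
    apply Real.exp_le_exp.2
    calc (y * b i).re ≤ ‖y * b i‖ := Complex.re_le_norm _
      _ = ‖y‖ * ‖b i‖ := norm_mul _ _
      _ ≤ r * ‖b i‖ := mul_le_mul_of_nonneg_right hy.le (norm_nonneg _)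
  have hpre : IsPreconnected (Metric.ball (0 : ℂ) r) :=
    (convex_ball (0 : ℂ) r : Convex ℝ (Metric.ball (0 : ℂ) r)).isPreconnected
  refine hasDerivAt_tsum_of_isPreconnected (𝕜 := ℂ) (F := ℂ)
    (g := fun i y => a i * cexp (y * b i)) (g' := fun i y => a i * b i * cexp (y * b i))
    (u := fun i => (R - r)⁻¹ * (‖a i‖ * Real.exp (R * ‖b i‖)))
    (h.mul_left _) (t := Metric.ball (0 : ℂ) r) Metric.isOpen_ball
    hpre ?_ ?_ (y₀ := (0 : ℂ)) (by simpa using hr0) ?_ (by simpa using hr1)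
  · intro i y _
    have h1 : HasDerivAt (fun t : ℂ => t * b i) (b i) y := by
      simpa using (hasDerivAt_id y).mul_const (b i)
    have h2 := (h1.cexp).const_mul (a i)
    refine h2.congr_deriv ?_
    ring
  · intro i y hy
    have hy' : ‖y‖ < r := by simpa using hy
    rw [norm_mul, norm_mul]
    calc ‖a i‖ * ‖b i‖ * ‖cexp (y * b i)‖ ≤ ‖a i‖ * ‖b i‖ * Real.exp (r * ‖b i‖) :=
          mul_le_mul_of_nonneg_left (hexp i y hy') (by positivity)
      _ = ‖a i‖ * (‖b i‖ * Real.exp (r * ‖b i‖)) := by ring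
      _ ≤ ‖a i‖ * ((R - r)⁻¹ * Real.exp (R * ‖b i‖)) :=
          mul_le_mul_of_nonneg_left (key _ (norm_nonneg _)) (norm_nonneg _)
      _ = _ := by ring
  · have : Summable fun i => ‖a i * cexp (0 * b i)‖ := by
      refine Summable.of_nonneg_of_le (fun i => norm_nonneg _) (fun i => ?_) h
      rw [zero_mul, Complex.exp_zero, mul_one]
      have hR : 0 ≤ R := by linarith
      have : 1 ≤ Real.exp (R * ‖b i‖) := Real.one_le_exp (by positivity)
      exact le_mul_of_one_le_right (norm_nonneg _) this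
    exact this.of_norm

/-- products of absolutely convergent series -/
theorem pi_prod {g : ℕ} (f : Fin g → ℤ → ℂ) (hf : ∀ i, Summable (fun k => ‖f i k‖)) :
    Summable (fun n : Fin g → ℤ => ‖∏ i, f i (n i)‖) ∧
      ∑' n : Fin g → ℤ, ∏ i, f i (n i) = ∏ i, ∑' k, f i k := by
  induction g with
  | zero =>
    refine ⟨(hasSum_fintype _).summable, ?_⟩
    simp [tsum_fintype]
  | succ g ih =>
    obtain ⟨h1, h2⟩ := ih (fun i => f i.succ) (fun i => hf _)
    let e := Fin.consEquiv (fun _ : Fin (g + 1) => ℤ)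
    have he : ∀ p : ℤ × (Fin g → ℤ), ∏ i, f i (e p i) = f 0 p.1 * ∏ i : Fin g, f i.succ (p.2 i) := by
      intro p
      rw [Fin.prod_univ_succ]
      simp [e, Fin.consEquiv]
    constructor
    · rw [← e.summable_iff]
      have := (hf 0).mul_norm h1
      refine this.congr ?_
      intro p
      simp only [Function.comp]
      rw [he]
    · rw [← e.tsum_eq (fun n => ∏ i, f i (n i))]
      rw [tsum_congr he]
      rw [← tsum_mul_tsum_of_summable_norm (hf 0) h1, h2, Fin.prod_univ_succ]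

end Pool.Agent.H36.G00
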