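import Pool.Agent.H36.G00.Defs

set_option autoImplicit false

/-! # Summability of the theta series -/

namespace Pool.Agent.H36.G00

open Complex Matrix Set Filter Topology

variable {ι : Type} [Fintype ι]

/-- products of summable families in independent variables are summable -/
lemma m6_summable_pi_prod (a : ι → ℤ → ℝ) (h0 : ∀ i n, 0 ≤ a i n) (hs : ∀ i, Summable (a i)) :
    Summable (fun m : ι → ℤ => ∏ i, a i (m i)) := by
  classical
  refine summable_of_sum_le (c := ∏ i, ∑' n, a i n)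
    (fun m => Finset.prod_nonneg fun i _ => h0 i _) ?_
  intro u
  have h1 : u ⊆ Fintype.piFinset (fun i => u.image (fun m => m i)) := by
    intro m hm
    rw [Fintype.mem_piFinset]
    intro i
    exact Finset.mem_image_of_mem _ hm
  calc ∑ m ∈ u, ∏ i, a i (m i)
      ≤ ∑ m ∈ Fintype.piFinset (fun i => u.image (fun m => m i)), ∏ i, a i (m i) :=
        Finset.sum_le_sum_of_subset_of_nonneg h1 fun m _ _ =>
          Finset.prod_nonneg fun i _ => h0 i _
    _ = ∏ i, ∑ n ∈ u.image (fun m => m i), a i n := (Finset.prod_univ_sum _ _).symm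
    _ ≤ ∏ i, ∑' n, a i n := by
        refine Finset.prod_le_prod (fun i _ => Finset.sum_nonneg fun n _ => h0 i n) ?_
        intro i _
        exact (hs i).sum_le_tsum _ fun n _ => h0 i n

/-- a positive definite real matrix is bounded below by a multiple of the identity -/
lemma m6_posDef_lower {Y : Matrix ι ι ℝ} (hY : Y.PosDef) :
    ∃ c > 0, ∀ x : ι → ℝ, c * (x ⬝ᵥ x) ≤ x ⬝ᵥ Y *ᵥ x := by
  rcases isEmpty_or_nonempty ι with hι | hι
  · refine ⟨1, one_pos, fun x => ?_⟩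
    simp [dotProduct]
  have hc1 : Continuous fun x : ι → ℝ => x ⬝ᵥ x := by
    unfold dotProduct
    fun_prop
  have hc2 : Continuous fun x : ι → ℝ => x ⬝ᵥ Y *ᵥ x := by
    unfold dotProduct Matrix.mulVec dotProduct
    fun_prop
  have hcomp : IsCompact {x : ι → ℝ | x ⬝ᵥ x = 1} := by
    refine Metric.isCompact_of_isClosed_isBounded (isClosed_eq hc1 continuous_const) ?_
    refine (Metric.isBounded_closedBall (x := (0 : ι → ℝ)) (r := 1)).subset ?_
    intro x hx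
    rw [mem_closedBall_zero_iff, pi_norm_le_iff_of_nonneg zero_le_one]
    intro i
    have h1 : x i * x i ≤ x ⬝ᵥ x :=
      Finset.single_le_sum (f := fun i => x i * x i) (fun i _ => mul_self_nonneg _)
        (Finset.mem_univ i)
    have h2 : x ⬝ᵥ x = 1 := hx
    rw [h2] at h1
    rw [Real.norm_eq_abs]
    exact abs_le_of_sq_le_sq' (by nlinarith) zero_le_one |> fun h => abs_le.mpr h
  have hne : {x : ι → ℝ | x ⬝ᵥ x = 1}.Nonempty := by
    classical
    obtain ⟨i⟩ := hι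
    refine ⟨Pi.single i 1, ?_⟩
    simp
  obtain ⟨x0, hx0, hmin⟩ := hcomp.exists_isMinOn hne hc2.continuousOn
  have hx00 : x0 ≠ 0 := by
    intro h
    have h2 : x0 ⬝ᵥ x0 = 1 := hx0
    rw [h] at h2
    simp at h2
  have hpos : 0 < x0 ⬝ᵥ Y *ᵥ x0 := by
    have h3 := hY.dotProduct_mulVec_pos hx00
    simpa using h3
  refine ⟨x0 ⬝ᵥ Y *ᵥ x0, hpos, fun x => ?_⟩
  by_cases hx : x = 0
  · rw [hx]; simp
  have hxx : 0 < x ⬝ᵥ x := by
    have h1 : 0 ≤ x ⬝ᵥ x := Finset.sum_nonneg fun i _ => mul_self_nonneg _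
    refine lt_of_le_of_ne h1 fun h2 => hx ?_
    exact dotProduct_self_eq_zero.mp h2.symm
  set s := Real.sqrt (x ⬝ᵥ x) with hs
  have hs0 : 0 < s := Real.sqrt_pos.mpr hxx
  have hs2 : s * s = x ⬝ᵥ x := Real.mul_self_sqrt hxx.le
  have h1 : (s⁻¹ • x) ∈ {x : ι → ℝ | x ⬝ᵥ x = 1} := by
    show (s⁻¹ • x) ⬝ᵥ (s⁻¹ • x) = 1
    rw [smul_dotProduct, dotProduct_smul, smul_eq_mul, smul_eq_mul, ← hs2]
    field_simp
  have h2 := hmin h1
  simp only [mem_ofPred_eq] at h2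
  rw [smul_dotProduct, Matrix.mulVec_smul, dotProduct_smul, smul_eq_mul, smul_eq_mul] at h2
  have h3 : (x0 ⬝ᵥ Y *ᵥ x0) * (s * s) ≤ (s⁻¹ * (s⁻¹ * (x ⬝ᵥ Y *ᵥ x))) * (s * s) :=
    mul_le_mul_of_nonneg_right h2 (by positivity)
  rw [hs2] at h3
  refine h3.trans (le_of_eq ?_)
  rw [← hs2]
  field_simp

/-- one-dimensional Gaussian sums -/
lemma m6_summable_gauss {c : ℝ} (hc : 0 < c) (v : ℝ) :
    Summable fun n : ℤ => Real.exp (-(2 * Real.pi * (c * (n : ℝ) ^ 2 + (n : ℝ) * v))) := by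
  have h1 := (summable_jacobiTheta₂_term_iff ((v : ℂ) * I) ((2 * c : ℝ) * I)).mpr (by
    simp
    exact hc)
  refine h1.norm.congr fun n => ?_
  rw [jacobiTheta₂_term, Complex.norm_exp]
  congr 1
  have h2 : 2 * (Real.pi : ℂ) * I * (n : ℂ) * ((v : ℂ) * I)
      + (Real.pi : ℂ) * I * (n : ℂ) ^ 2 * (((2 * c : ℝ) : ℂ) * I)
      = ((-(2 * Real.pi * (c * (n : ℝ) ^ 2 + (n : ℝ) * v)) : ℝ) : ℂ) := by
    push_cast
    ring_nf
    rw [Complex.I_sq]
    ring
  rw [h2, Complex.ofReal_re]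

/-- summability of the theta series, absolute -/
theorem m6_theta_summable {τ : Matrix ι ι ℂ} (hτ : InSiegel τ) (v : ι → ℂ) :
    Summable fun m : ι → ℤ => ‖exp (2 * Real.pi * I *
      ((fun i => (m i : ℂ)) ⬝ᵥ τ *ᵥ (fun i => (m i : ℂ)) + (fun i => (m i : ℂ)) ⬝ᵥ v))‖ := by
  obtain ⟨c, hc, hlow⟩ := m6_posDef_lower hτ.2
  refine Summable.of_nonneg_of_le (fun _ => norm_nonneg _) ?_
    (m6_summable_pi_prod (fun i n => Real.exp (-(2 * Real.pi * (c * (n : ℝ) ^ 2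
      + (n : ℝ) * (v i).im)))) (fun i n => (Real.exp_pos _).le)
      (fun i => m6_summable_gauss hc (v i).im))
  intro m
  rw [Complex.norm_exp, ← Real.exp_sum]
  apply Real.exp_le_exp.mpr
  have h1 : ∀ z : ℂ, (2 * Real.pi * I * z).re = -(2 * Real.pi * z.im) := by
    intro z
    simp
  rw [h1]
  have h2 : ((fun i => (m i : ℂ)) ⬝ᵥ τ *ᵥ (fun i => (m i : ℂ))).im
      = (fun i => (m i : ℝ)) ⬝ᵥ (τ.map Complex.im) *ᵥ (fun i => (m i : ℝ)) := by
    simp [dotProduct, Matrix.mulVec]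
  have h3 : ((fun i => (m i : ℂ)) ⬝ᵥ v).im = ∑ i, (m i : ℝ) * (v i).im := by
    simp [dotProduct]
  rw [Complex.add_im, h2, h3]
  have h4 := hlow (fun i => (m i : ℝ))
  have h5 : (fun i => (m i : ℝ)) ⬝ᵥ (fun i => (m i : ℝ)) = ∑ i, (m i : ℝ) ^ 2 := by
    simp [dotProduct, pow_two]
  rw [h5] at h4
  have h6 : ∑ i, -(2 * Real.pi * (c * (m i : ℝ) ^ 2 + (m i : ℝ) * (v i).im))
      = -(2 * Real.pi * (c * ∑ i, (m i : ℝ) ^ 2 + ∑ i, (m i : ℝ) * (v i).im)) := by
    rw [Finset.sum_neg_distrib, ← Finset.mul_sum, Finset.sum_add_distrib, ← Finset.mul_sum]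
  rw [h6]
  have h7 := Real.pi_pos
  nlinarith

end Pool.Agent.H36.G00
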