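import Pool.Agent.H36.G00.SpanA
import Pool.Agent.H36.G00.ThetaSum

set_option autoImplicit false

/-! # The second order theta functions span the sections of `2Θ` -/

namespace Pool.Agent.H36.G00

open Complex Matrix MeasureTheory Set Filter Topology

variable {ι : Type} [Fintype ι]

/-- `k = e + 2 m` -/
noncomputable def m6_E (ι : Type) : (ι → Fin 2) × (ι → ℤ) ≃ (ι → ℤ) :=
  (Equiv.prodComm _ _).trans ((Equiv.arrowProdEquivProdArrow ι (fun _ => ℤ)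
    (fun _ => Fin 2)).symm.trans (Equiv.piCongrRight fun _ => (Int.divModEquiv 2).symm))

omit [Fintype ι] in
lemma m6_E_apply (e : ι → Fin 2) (m : ι → ℤ) :
    m6_E ι (e, m) = fun i => ((e i : ℕ) : ℤ) + 2 * m i := by
  ext i
  simp [m6_E, Int.divModEquiv]
  ring

/-- the terms of the second order theta series -/
lemma m6_term {τ : Matrix ι ι ℂ} (hs : τ.IsSymm) (e : ι → Fin 2) (m : ι → ℤ) (z : ι → ℂ) :
    ((fun i => (m i : ℂ) + ((e i : ℕ) : ℂ) / 2) ⬝ᵥ τ *ᵥ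
        (fun i => (m i : ℂ) + ((e i : ℕ) : ℂ) / 2) +
      2 * ((fun i => (m i : ℂ) + ((e i : ℕ) : ℂ) / 2) ⬝ᵥ z))
    = ((fun i => ((e i : ℕ) : ℂ) / 2) ⬝ᵥ τ *ᵥ (fun i => ((e i : ℕ) : ℂ) / 2)
        + (fun i => ((e i : ℕ) : ℂ)) ⬝ᵥ z)
      + ((fun i => (m i : ℂ)) ⬝ᵥ τ *ᵥ (fun i => (m i : ℂ))
        + (fun i => (m i : ℂ)) ⬝ᵥ (τ *ᵥ (fun i => ((e i : ℕ) : ℂ)) + fun i => 2 * z i)) := by
  have h1 : (fun i => (m i : ℂ) + ((e i : ℕ) : ℂ) / 2)
      = (fun i => (m i : ℂ)) + (fun i => ((e i : ℕ) : ℂ) / 2) := rfl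
  have h2 : (fun i => ((e i : ℕ) : ℂ)) = (2 : ℂ) • (fun i => ((e i : ℕ) : ℂ) / 2) := by
    ext i
    simp
    ring
  have h3 : (fun i => 2 * z i) = (2 : ℂ) • z := rfl
  rw [h1, h2, h3]
  set a : ι → ℂ := fun i => (m i : ℂ)
  set b : ι → ℂ := fun i => ((e i : ℕ) : ℂ) / 2
  have h4 : b ⬝ᵥ τ *ᵥ a = a ⬝ᵥ τ *ᵥ b := by
    rw [Matrix.dotProduct_mulVec, ← Matrix.mulVec_transpose, hs.eq, dotProduct_comm]
  rw [Matrix.mulVec_add, Matrix.mulVec_smul, dotProduct_add, dotProduct_add, add_dotProduct,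
    add_dotProduct, add_dotProduct, dotProduct_smul, dotProduct_smul, smul_dotProduct, h4]
  simp only [smul_eq_mul]
  ring

/-- absolute convergence of the second order theta series -/
theorem m6_Theta_summable {τ : Matrix ι ι ℂ} (hτ : InSiegel τ) (e : ι → Fin 2) (z : ι → ℂ) :
    Summable fun n : ι → ℤ => ‖exp (2 * Real.pi * I *
    ((fun i => (n i : ℂ) + ((e i : ℕ) : ℂ) / 2) ⬝ᵥ τ *ᵥ (fun i => (n i : ℂ) + ((e i : ℕ) : ℂ) / 2) +
      2 * ((fun i => (n i : ℂ) + ((e i : ℕ) : ℂ) / 2) ⬝ᵥ z)))‖ := by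
  have h1 := m6_theta_summable hτ (τ *ᵥ (fun i => ((e i : ℕ) : ℂ)) + fun i => 2 * z i)
  refine (h1.mul_left ‖exp (2 * Real.pi * I *
    ((fun i => ((e i : ℕ) : ℂ) / 2) ⬝ᵥ τ *ᵥ (fun i => ((e i : ℕ) : ℂ) / 2)
        + (fun i => ((e i : ℕ) : ℂ)) ⬝ᵥ z))‖).congr fun m => ?_
  rw [m6_term hτ.1, ← norm_mul, ← Complex.exp_add, ← mul_add]

/-- the coefficients of a section -/
noncomputable def m6_b (τ : Matrix ι ι ℂ) (f : (ι → ℂ) → ℂ) (e : ι → Fin 2) : ℂ :=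
  m6_c f 0 (fun i => ((e i : ℕ) : ℤ)) *
    exp (-(2 * Real.pi * I * ((fun i => ((e i : ℕ) : ℂ) / 2) ⬝ᵥ τ *ᵥ
      (fun i => ((e i : ℕ) : ℂ) / 2))))

lemma m6_coeff {τ : Matrix ι ι ℂ} (hτ : InSiegel τ) {f : (ι → ℂ) → ℂ} (hf : IsSection τ f)
    (e : ι → Fin 2) (m : ι → ℤ) (z : ι → ℂ) :
    m6_c f z (m6_E ι (e, m)) = m6_b τ f e * exp (2 * Real.pi * I *
    ((fun i => (m i : ℂ) + ((e i : ℕ) : ℂ) / 2) ⬝ᵥ τ *ᵥ (fun i => (m i : ℂ) + ((e i : ℕ) : ℂ) / 2) +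
      2 * ((fun i => (m i : ℂ) + ((e i : ℕ) : ℂ) / 2) ⬝ᵥ z))) := by
  rw [m6_c_exp hf, m6_E_apply, m6_quasi hf, m6_b, m6_term hτ.1]
  have h1 : (fun i => ((((e i : ℕ) : ℤ)) : ℂ)) = fun i => ((e i : ℕ) : ℂ) := by
    ext i
    push_cast
    rfl
  have h2 : ∑ i, ((((e i : ℕ) : ℤ) + 2 * m i : ℤ) : ℂ) * z i
      = (fun i => ((e i : ℕ) : ℂ)) ⬝ᵥ z + (fun i => (m i : ℂ)) ⬝ᵥ (fun i => 2 * z i) := by
    rw [dotProduct, dotProduct, ← Finset.sum_add_distrib]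
    refine Finset.sum_congr rfl fun i _ => ?_
    push_cast
    ring
  have h4 : (fun i => ((e i : ℕ) : ℂ)) ⬝ᵥ τ *ᵥ (fun i => (m i : ℂ))
      = (fun i => (m i : ℂ)) ⬝ᵥ τ *ᵥ (fun i => ((e i : ℕ) : ℂ)) := by
    rw [Matrix.dotProduct_mulVec, ← Matrix.mulVec_transpose, hτ.1.eq, dotProduct_comm]
  rw [h1, h2, h4, dotProduct_add]
  have h5 : ∀ A B C D E F : ℂ, exp (2 * Real.pi * I * (A + B)) * (exp (2 * Real.pi * I * (C + D))
      * E) = E * exp (-(2 * Real.pi * I * F)) *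
        exp (2 * Real.pi * I * (F + A + (C + (D + B)))) := by
    intro A B C D E F
    have h6 : exp (2 * Real.pi * I * (A + B)) * (exp (2 * Real.pi * I * (C + D)) * E)
        = E * exp (2 * Real.pi * I * (A + B) + 2 * Real.pi * I * (C + D)) := by
      rw [Complex.exp_add]
      ring
    have h7 : E * exp (-(2 * Real.pi * I * F)) * exp (2 * Real.pi * I * (F + A + (C + (D + B))))
        = E * exp (-(2 * Real.pi * I * F) + 2 * Real.pi * I * (F + A + (C + (D + B)))) := by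
      rw [Complex.exp_add]
      ring
    rw [h6, h7]
    congr 2
    ring
  exact h5 _ _ _ _ _ _

/-- Every section of `2Θ` is a linear combination of the second order theta functions. -/
theorem span_sections [DecidableEq ι] (τ : Matrix ι ι ℂ) (hτ : InSiegel τ)
    (f : (ι → ℂ) → ℂ) (hf : IsSection τ f) :
    ∃ b : (ι → Fin 2) → ℂ, ∀ z, f z = ∑ e, b e * Theta e τ z := by
  refine ⟨m6_b τ f, fun z => ?_⟩
  have hsum : Summable fun p : (ι → Fin 2) × (ι → ℤ) => ‖m6_c f z (m6_E ι p)‖ := by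
    rw [summable_prod_of_nonneg (fun p => norm_nonneg _)]
    refine ⟨fun e => ?_, Summable.of_finite⟩
    refine ((m6_Theta_summable hτ e z).mul_left ‖m6_b τ f e‖).congr fun m => ?_
    rw [m6_coeff hτ hf, norm_mul]
  have hsum2 : Summable fun k => m6_c f z k := by
    have h1 := hsum.of_norm
    exact (m6_E ι).summable_iff.mp h1
  have h1 := UnitAddTorus.hasSum_mFourier_series_apply_of_summable
    (f := ⟨m6_F f z, m6_cont hf z⟩) hsum2 (fun i => ((0 : ℝ) : UnitAddCircle))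
  have h2 : ∀ k : ι → ℤ, UnitAddTorus.mFourier k (fun i : ι => ((0 : ℝ) : UnitAddCircle)) = 1 := by
    intro k
    have h3 := m6_mF k (fun _ => 0)
    rw [h3]
    simp
  have h4 : m6_F f z (fun i : ι => ((0 : ℝ) : UnitAddCircle)) = f z := by
    have h5 := m6_F_coe hf z (fun _ => 0)
    rw [h5]
    simp
  have h6 : HasSum (fun k => m6_c f z k) (f z) := by
    have h7 : ((⟨m6_F f z, m6_cont hf z⟩ : C(UnitAddTorus ι, ℂ)) :
      UnitAddTorus ι → ℂ) (fun i => ((0 : ℝ) : UnitAddCircle)) = f z := h4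
    rw [h7] at h1
    refine h1.congr_fun ?_
    intro k
    rw [h2 k, smul_eq_mul, mul_one]
    rfl
  rw [← h6.tsum_eq, ← (m6_E ι).tsum_eq, hsum.of_norm.tsum_prod, tsum_fintype]
  refine Finset.sum_congr rfl fun e _ => ?_
  rw [Theta, ← tsum_mul_left]
  refine tsum_congr fun m => ?_
  rw [m6_coeff hτ hf]

end Pool.Agent.H36.G00
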