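import Pool.Agent.H36.G00.HeatA
import Pool.Agent.H36.G00.Span
import Pool.Agent.H36.G00.Series

set_option autoImplicit false

/-! # The heat equation: solutions of `(*)` lie in the base locus of `Γ₀₀` -/

namespace Pool.Agent.H36.G00

open Complex Matrix Filter Topology

variable {ι : Type} [Fintype ι]

/-- the points of the theta series -/
noncomputable def m7_x (e : ι → Fin 2) (n : ι → ℤ) : ι → ℂ :=
  fun i => (n i : ℂ) + ((e i : ℕ) : ℂ) / 2

noncomputable def m7_r (e : ι → Fin 2) (n : ι → ℤ) : ι → ℝ :=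
  fun i => (n i : ℝ) + ((e i : ℕ) : ℝ) / 2

omit [Fintype ι] in
lemma m7_x_eq (e : ι → Fin 2) (n : ι → ℤ) : m7_x e n = fun i => ((m7_r e n i : ℝ) : ℂ) := by
  ext i
  simp [m7_x, m7_r]

noncomputable def m7_a (τ : Matrix ι ι ℂ) (e : ι → Fin 2) (n : ι → ℤ) : ℂ :=
  cexp (2 * Real.pi * I * (m7_x e n ⬝ᵥ τ *ᵥ m7_x e n))

noncomputable def m7_l (x : ι → ℂ) : (ι → ℂ) →L[ℂ] ℂ :=
  ∑ i, (4 * Real.pi * I * x i) • (ContinuousLinearMap.proj i : (ι → ℂ) →L[ℂ] ℂ)

lemma m7_l_apply (x v : ι → ℂ) : m7_l x v = 4 * Real.pi * I * (x ⬝ᵥ v) := by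
  simp only [m7_l, dotProduct, _root_.sum_apply, _root_.smul_apply,
    ContinuousLinearMap.proj_apply, smul_eq_mul, Finset.mul_sum]
  refine Finset.sum_congr rfl fun i _ => ?_
  ring

lemma m7_l_norm (x : ι → ℂ) : ‖m7_l x‖ ≤ 4 * Real.pi * ∑ i, ‖x i‖ := by
  refine ContinuousLinearMap.opNorm_le_bound _ (by positivity) fun v => ?_
  rw [m7_l_apply, norm_mul, dotProduct]
  have h1 : ‖(4 * Real.pi * I : ℂ)‖ = 4 * Real.pi := by
    rw [norm_mul, norm_mul, Complex.norm_I, Complex.norm_real, Real.norm_eq_abs,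
      abs_of_pos Real.pi_pos]
    norm_num
  rw [h1, mul_assoc (4 * Real.pi)]
  refine mul_le_mul_of_nonneg_left ?_ (by positivity)
  rw [Finset.sum_mul]
  refine (norm_sum_le _ _).trans (Finset.sum_le_sum fun i _ => ?_)
  rw [norm_mul]
  exact mul_le_mul_of_nonneg_left (norm_le_pi_norm v i) (norm_nonneg _)

lemma m7_Theta (e : ι → Fin 2) (τ : Matrix ι ι ℂ) (z : ι → ℂ) :
    Theta e τ z = ∑' n : ι → ℤ, m7_a τ e n * cexp (m7_l (m7_x e n) z) := by
  rw [Theta]
  refine tsum_congr fun n => ?_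
  rw [m7_a, m7_l_apply, ← Complex.exp_add]
  congr 1
  have h1 : (fun i => (n i : ℂ) + ((e i : ℕ) : ℂ) / 2) = m7_x e n := rfl
  rw [h1]
  ring

lemma m7_gauss {c : ℝ} (hc : 0 < c) (e : ι → Fin 2) :
    Summable fun n : ι → ℤ => Real.exp (-(Real.pi * c * ∑ i, m7_r e n i ^ 2)) := by
  have h1 := m6_summable_pi_prod
    (fun (i : ι) (m : ℤ) => Real.exp (-(Real.pi * c * ((m : ℝ) + ((e i : ℕ) : ℝ) / 2) ^ 2)))
    (fun i m => (Real.exp_pos _).le) (fun i => by
      have h2 := (m6_summable_gauss (half_pos hc) (c * ((e i : ℕ) : ℝ) / 2)).mul_left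
        (Real.exp (-(Real.pi * c * ((e i : ℕ) : ℝ) ^ 2 / 4)))
      refine h2.congr fun m => ?_
      rw [← Real.exp_add]
      congr 1
      ring)
  refine h1.congr fun n => ?_
  rw [← Real.exp_sum, Finset.sum_neg_distrib, ← Finset.mul_sum]
  rfl

lemma m7_norm_a {τ : Matrix ι ι ℂ} {c : ℝ}
    (hlow : ∀ x : ι → ℝ, c * (x ⬝ᵥ x) ≤ x ⬝ᵥ (τ.map Complex.im) *ᵥ x) (e : ι → Fin 2)
    (n : ι → ℤ) : ‖m7_a τ e n‖ ≤ Real.exp (-(2 * Real.pi * c * ∑ i, m7_r e n i ^ 2)) := by
  rw [m7_a, Complex.norm_exp]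
  apply Real.exp_le_exp.mpr
  have h1 : ∀ z : ℂ, (2 * Real.pi * I * z).re = -(2 * Real.pi * z.im) := by
    intro z
    simp
  have h2 : (m7_x e n ⬝ᵥ τ *ᵥ m7_x e n).im
      = m7_r e n ⬝ᵥ (τ.map Complex.im) *ᵥ m7_r e n := by
    rw [m7_x_eq]
    simp [dotProduct, Matrix.mulVec]
  have h3 := hlow (m7_r e n)
  have h5 : m7_r e n ⬝ᵥ m7_r e n = ∑ i, m7_r e n i ^ 2 := by
    simp [dotProduct, pow_two]
  rw [h5] at h3
  rw [h1, h2]
  have h7 := Real.pi_pos
  nlinarith

lemma m7_summable {τ : Matrix ι ι ℂ} (hτ : InSiegel τ) (e : ι → Fin 2) (R : ℝ) :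
    Summable fun n : ι → ℤ => ‖m7_a τ e n‖ * Real.exp (R * ‖m7_l (m7_x e n)‖) := by
  obtain ⟨c, hc, hlow⟩ := m6_posDef_lower hτ.2
  have h1 := (m7_gauss hc e).mul_left (Real.exp (∑ _i : ι, 4 * Real.pi * R ^ 2 / c))
  refine Summable.of_nonneg_of_le (fun n => by positivity) (fun n => ?_) h1
  have h2 := m7_norm_a hlow e n
  have h3 : R * ‖m7_l (m7_x e n)‖ ≤ ∑ i, (Real.pi * c * m7_r e n i ^ 2
      + 4 * Real.pi * R ^ 2 / c) := by
    have h4 : R * ‖m7_l (m7_x e n)‖ ≤ |R| * (4 * Real.pi * ∑ i, ‖m7_x e n i‖) :=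
      mul_le_mul (le_abs_self R) (m7_l_norm _) (norm_nonneg _) (abs_nonneg _)
    refine h4.trans ?_
    rw [Finset.mul_sum, Finset.mul_sum]
    refine Finset.sum_le_sum fun i _ => ?_
    have h5 : ‖m7_x e n i‖ = |m7_r e n i| := by
      rw [m7_x_eq]
      simp
    rw [h5]
    set r := |m7_r e n i| with hr
    have h6 : m7_r e n i ^ 2 = r ^ 2 := (sq_abs _).symm
    rw [h6, ← sq_abs R]
    have h8 : 0 ≤ Real.pi * (c * r - 2 * |R|) ^ 2 / c := by positivity
    have h9 : Real.pi * (c * r - 2 * |R|) ^ 2 / c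
        = Real.pi * c * r ^ 2 + 4 * Real.pi * |R| ^ 2 / c - |R| * (4 * Real.pi * r) := by
      field_simp
      ring
    linarith
  calc ‖m7_a τ e n‖ * Real.exp (R * ‖m7_l (m7_x e n)‖)
      ≤ Real.exp (-(2 * Real.pi * c * ∑ i, m7_r e n i ^ 2)) *
        Real.exp (∑ i, (Real.pi * c * m7_r e n i ^ 2 + 4 * Real.pi * R ^ 2 / c)) := by
        gcongr
    _ = _ := by
        rw [← Real.exp_add, ← Real.exp_add]
        congr 1
        rw [Finset.sum_add_distrib, ← Finset.mul_sum]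
        ring

variable [DecidableEq ι]

lemma m7_symUnit (a b : ι) (x : ι → ℂ) :
    x ⬝ᵥ symUnit a b *ᵥ x = ((if a = b then 1 else 2 : ℕ) : ℂ) * (x a * x b) := by
  have h : ∀ i j, symUnit a b i j =
      (if i = a then 1 else 0) * (if j = b then 1 else 0) +
      (if a = b then 0 else (if i = b then 1 else 0) * (if j = a then 1 else 0)) := by
    intro i j
    unfold symUnit
    by_cases hab : a = b
    · subst hab
      by_cases h1 : i = a <;> by_cases h2 : j = a <;> simp [h1, h2]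
    · by_cases h1 : i = a
      · subst h1
        by_cases h2 : j = b
        · subst h2; simp [hab]
        · simp [h2, hab]
      · by_cases h3 : i = b
        · subst h3
          simp [h1, hab]
        · simp [h1, h3]
  simp only [dotProduct, mulVec, h]
  by_cases hab : a = b
  · subst hab
    simp
  · simp [hab, Finset.sum_add_distrib, add_mul, mul_add]
    ring

/-- the derivative of the theta constants in the period matrix -/
lemma m7_dTheta {τ : Matrix ι ι ℂ} (hτ : InSiegel τ) (a b : ι) (e : ι → Fin 2) :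
    dTheta a b e τ = ((if a = b then 1 else 2 : ℕ) : ℂ) / (8 * Real.pi * I) *
      ∑' n, m7_a τ e n * (m7_l (m7_x e n) (Pi.single a 1) * m7_l (m7_x e n) (Pi.single b 1)) := by
  set k : ℂ := ((if a = b then 1 else 2 : ℕ) : ℂ) with hk
  have hkn : ‖k‖ ≤ 2 := by
    rw [hk]
    split_ifs <;> simp
  set B : (ι → ℤ) → ℂ := fun n => 2 * Real.pi * I * (k * (m7_x e n a * m7_x e n b)) with hB
  have h1 : ∀ t : ℂ, Theta e (τ + t • symUnit a b) 0 = ∑' n, m7_a τ e n * cexp (t * B n) := by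
    intro t
    rw [Theta]
    refine tsum_congr fun n => ?_
    have h2 : (fun i => (n i : ℂ) + ((e i : ℕ) : ℂ) / 2) = m7_x e n := rfl
    rw [h2, m7_a, ← Complex.exp_add, Matrix.add_mulVec, dotProduct_add, Matrix.smul_mulVec,
      dotProduct_smul, m7_symUnit, dotProduct_zero, hB, smul_eq_mul]
    congr 1
    ring
  obtain ⟨c, hc, hlow⟩ := m6_posDef_lower hτ.2
  have h3 : Summable fun n => ‖m7_a τ e n‖ * Real.exp (c / 4 * ‖B n‖) := by
    refine Summable.of_nonneg_of_le (fun n => by positivity) (fun n => ?_) (m7_gauss hc e)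
    have h4 := m7_norm_a hlow e n
    have h5 : ‖B n‖ ≤ 4 * Real.pi * ∑ i, m7_r e n i ^ 2 := by
      rw [hB]
      simp only [norm_mul, Complex.norm_I, Complex.norm_real, Real.norm_eq_abs,
        abs_of_pos Real.pi_pos, mul_one]
      have h6 : ∀ i, ‖m7_x e n i‖ = |m7_r e n i| := by
        intro i
        rw [m7_x_eq]
        simp
      rw [h6, h6]
      have h7 : ∀ i, |m7_r e n i| ^ 2 ≤ ∑ i, m7_r e n i ^ 2 := by
        intro i
        rw [sq_abs]
        exact Finset.single_le_sum (f := fun i => m7_r e n i ^ 2) (fun i _ => sq_nonneg _)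
          (Finset.mem_univ i)
      have h8 : |m7_r e n a| * |m7_r e n b| ≤ ∑ i, m7_r e n i ^ 2 := by
        have := h7 a
        have := h7 b
        nlinarith [sq_nonneg (|m7_r e n a| - |m7_r e n b|)]
      have h9 : ‖(2 : ℂ)‖ = 2 := by norm_num
      rw [h9]
      calc 2 * Real.pi * (‖k‖ * (|m7_r e n a| * |m7_r e n b|))
          ≤ 2 * Real.pi * (2 * ∑ i, m7_r e n i ^ 2) := by gcongr
        _ = _ := by ring
    calc ‖m7_a τ e n‖ * Real.exp (c / 4 * ‖B n‖)
        ≤ Real.exp (-(2 * Real.pi * c * ∑ i, m7_r e n i ^ 2)) *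
          Real.exp (c / 4 * (4 * Real.pi * ∑ i, m7_r e n i ^ 2)) := by gcongr
      _ = _ := by
          rw [← Real.exp_add]
          congr 1
          ring
  have h10 := hasDerivAt_expSum (fun n => m7_a τ e n) B (R := c / 4) h3 (t := 0)
    (by rw [norm_zero]; positivity)
  have h11 : (fun t : ℂ => Theta e (τ + t • symUnit a b) 0)
      = fun t : ℂ => ∑' n, m7_a τ e n * cexp (t * B n) := funext h1
  rw [dTheta, h11, h10.deriv, ← tsum_mul_left]
  refine tsum_congr fun n => ?_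
  rw [zero_mul, Complex.exp_zero, mul_one, m7_l_apply, m7_l_apply, dotProduct_single_one,
    dotProduct_single_one, hB]
  have hpi : (Real.pi : ℂ) ≠ 0 := by exact_mod_cast Real.pi_ne_zero
  have hI : I ≠ 0 := Complex.I_ne_zero
  field_simp
  ring

/-- solutions of `(*)` lie in the base locus -/
theorem star_mem_Bs {g : ℕ} (τ : Matrix (Fin g) (Fin g) ℂ) (hτ : InSiegel τ) (z : Fin g → ℂ)
    (l : ℂ) (L : Matrix (Fin g) (Fin g) ℂ) (h : Star τ z l L) : z ∈ Bs τ := by
  intro f hf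
  obtain ⟨b, hb⟩ := span_sections τ hτ f hf.1
  have hf0 : f 0 = 0 := by
    have h1 := hf.2 0 (by norm_num)
    have h2 := congrArg (fun q => q (fun _ => (0 : Fin g → ℂ))) h1
    simpa using h2
  choose D D2 hD hD2 hD3 using fun e : Fin g → Fin 2 =>
    m7_second (m7_a τ e) (fun n => m7_l (m7_x e n)) (m7_summable hτ e)
  have hfe : f = fun z => ∑ e, b e * ∑' n, m7_a τ e n * cexp (m7_l (m7_x e n) z) := by
    funext z
    rw [hb z]
    exact Finset.sum_congr rfl fun e _ => by rw [m7_Theta]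
  have hfd : ∀ z, HasFDerivAt f (∑ e, b e • D e z) z := by
    intro z
    rw [hfe]
    exact HasFDerivAt.fun_sum fun e _ => (hD e z).const_mul (b e)
  have hfd2 : fderiv ℂ f = fun z => ∑ e, b e • D e z := funext fun z => (hfd z).fderiv
  have hfd3 : HasFDerivAt (fderiv ℂ f) (∑ e, b e • D2 e) 0 := by
    rw [hfd2]
    exact HasFDerivAt.fun_sum fun e _ => (hD2 e).const_smul (b e)
  have hzero : ∀ v w, ∑ e, b e * D2 e v w = 0 := by
    intro v w
    have h1 := hf.2 2 (by norm_num)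
    have h2 := congrArg (fun q => q ![v, w]) h1
    simp only [iteratedFDeriv_two_apply] at h2
    rw [hfd3.fderiv] at h2
    simpa using h2
  have hdT : ∀ a c, ∑ e, b e * dTheta a c e τ = 0 := by
    intro a c
    have h1 : ∀ e, b e * dTheta a c e τ = ((if a = c then 1 else 2 : ℕ) : ℂ) / (8 * Real.pi * I) *
        (b e * D2 e (Pi.single a 1) (Pi.single c 1)) := by
      intro e
      rw [m7_dTheta hτ, hD3]
      ring
    rw [Finset.sum_congr rfl fun e _ => h1 e, ← Finset.mul_sum, hzero, mul_zero]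
  rw [hb z]
  have h1 : ∀ e, b e * Theta e τ z = l * (b e * Theta e τ 0) +
      ∑ p ∈ Finset.univ.filter (fun p : Fin g × Fin g => p.1 ≤ p.2),
        L p.1 p.2 * (b e * dTheta p.1 p.2 e τ) := by
    intro e
    rw [h e, mul_add, Finset.mul_sum]
    congr 1
    · ring
    · exact Finset.sum_congr rfl fun p _ => by ring
  rw [Finset.sum_congr rfl fun e _ => h1 e, Finset.sum_add_distrib, ← Finset.mul_sum, ← hb 0, hf0,
    mul_zero, zero_add, Finset.sum_comm]
  refine Finset.sum_eq_zero fun p _ => ?_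
  rw [← Finset.mul_sum, hdT, mul_zero]

end Pool.Agent.H36.G00
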