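import Mathlib

set_option autoImplicit false

/-! # Second derivatives of exponential sums -/

namespace Pool.Agent.H36.G00

open Complex Filter Topology Metric

lemma m7_exp_le (y : ℝ) : y ≤ Real.exp y := by
  have := Real.add_one_le_exp y
  linarith

lemma m7_exp_succ (R y : ℝ) : Real.exp ((R + 1) * y) = Real.exp (R * y) * Real.exp y := by
  rw [← Real.exp_add]
  congr 1
  ring

section

variable {N E F : Type*} [NormedAddCommGroup E] [NormedSpace ℂ E] [NormedAddCommGroup F]
    [NormedSpace ℂ F]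

lemma m7_ball (R : ℝ) : IsPreconnected (ball (0 : E) R) := by
  have : Convex ℝ (ball (0 : E) R) := by
    let _ : NormedSpace ℝ E := NormedSpace.restrictScalars ℝ ℂ E
    exact convex_ball (0 : E) R
  exact this.isPreconnected

lemma m7_term (a : F) (l : E →L[ℂ] ℂ) (x : E) : HasFDerivAt (fun z => cexp (l z) • a)
    (cexp (l x) • l.smulRight a) x := by
  have h2 := (l.hasFDerivAt (x := x)).cexp.smul_const a
  refine h2.congr_fderiv ?_
  ext v
  rw [ContinuousLinearMap.smulRight_apply, _root_.smul_apply, _root_.smul_apply,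
    ContinuousLinearMap.smulRight_apply, smul_eq_mul, mul_smul]

lemma m7_bound (a : F) (l : E →L[ℂ] ℂ) (x : E) {R : ℝ} (hx : ‖x‖ ≤ R) :
    ‖cexp (l x) • l.smulRight a‖ ≤ ‖a‖ * Real.exp ((R + 1) * ‖l‖) := by
  rw [norm_smul, ContinuousLinearMap.norm_smulRight_apply, Complex.norm_exp, m7_exp_succ]
  have e1 : (l x).re ≤ R * ‖l‖ := by
    refine (Complex.re_le_norm _).trans ((l.le_opNorm x).trans ?_)
    rw [mul_comm]
    exact mul_le_mul_of_nonneg_right hx (norm_nonneg _)
  have e2 : Real.exp (l x).re ≤ Real.exp (R * ‖l‖) := Real.exp_le_exp.mpr e1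
  have e3 : ‖l‖ ≤ Real.exp ‖l‖ := m7_exp_le _
  calc Real.exp (l x).re * (‖l‖ * ‖a‖)
      ≤ Real.exp (R * ‖l‖) * (Real.exp ‖l‖ * ‖a‖) := by gcongr
    _ = _ := by ring

lemma m7_first [CompleteSpace F] (a : N → F) (l : N → E →L[ℂ] ℂ)
    (h : ∀ R : ℝ, Summable fun n => ‖a n‖ * Real.exp (R * ‖l n‖)) (z : E) :
    HasFDerivAt (fun z => ∑' n, cexp (l n z) • a n)
      (∑' n, cexp (l n z) • (l n).smulRight (a n)) z := by
  refine hasFDerivAt_tsum_of_isPreconnected
    (u := fun n => ‖a n‖ * Real.exp ((‖z‖ + 1 + 1) * ‖l n‖)) (h (‖z‖ + 1 + 1)) isOpen_ball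
    (m7_ball (‖z‖ + 1))
    (fun n x _ => m7_term (a n) (l n) x) ?_ (x₀ := 0) (mem_ball_self (by positivity)) ?_ ?_
  · intro n x hx
    rw [mem_ball_zero_iff] at hx
    exact m7_bound _ _ _ hx.le
  · have h3 : Summable fun n => ‖a n‖ := by
      refine (h 0).congr fun n => ?_
      rw [zero_mul, Real.exp_zero, mul_one]
    refine h3.of_norm.congr fun n => ?_
    rw [map_zero, Complex.exp_zero, one_smul]
  · rw [mem_ball_zero_iff]
    linarith

lemma m7_summable_next (a : N → F) (l : N → E →L[ℂ] ℂ)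
    (h : ∀ R : ℝ, Summable fun n => ‖a n‖ * Real.exp (R * ‖l n‖)) (R : ℝ) :
    Summable fun n => ‖(l n).smulRight (a n)‖ * Real.exp (R * ‖l n‖) := by
  refine Summable.of_nonneg_of_le (fun n => by positivity) (fun n => ?_) (h (R + 1))
  rw [ContinuousLinearMap.norm_smulRight_apply, m7_exp_succ]
  have := m7_exp_le ‖l n‖
  calc ‖l n‖ * ‖a n‖ * Real.exp (R * ‖l n‖)
      ≤ Real.exp ‖l n‖ * ‖a n‖ * Real.exp (R * ‖l n‖) := by gcongr
    _ = _ := by ring

lemma m7_eval [CompleteSpace F] (b : N → F) (l : N → E →L[ℂ] ℂ)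
    (h : Summable fun n => ‖l n‖ * ‖b n‖) (v : E) :
    (∑' n, (l n).smulRight (b n)) v = ∑' n, (l n v) • b n := by
  have h3 : Summable fun n => (l n).smulRight (b n) := by
    refine Summable.of_norm_bounded h fun n => ?_
    rw [ContinuousLinearMap.norm_smulRight_apply]
  have h5 := (ContinuousLinearMap.apply ℂ F v).map_tsum h3
  rw [ContinuousLinearMap.apply_apply] at h5
  rw [h5]
  refine tsum_congr fun n => ?_
  rw [ContinuousLinearMap.apply_apply, ContinuousLinearMap.smulRight_apply]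

/-- the second derivative of an exponential sum at the origin -/
theorem m7_second (a : N → ℂ) (l : N → E →L[ℂ] ℂ)
    (h : ∀ R : ℝ, Summable fun n => ‖a n‖ * Real.exp (R * ‖l n‖)) :
    ∃ (D : E → E →L[ℂ] ℂ) (D2 : E →L[ℂ] E →L[ℂ] ℂ),
      (∀ z, HasFDerivAt (fun z => ∑' n, a n * cexp (l n z)) (D z) z) ∧
      HasFDerivAt D D2 0 ∧ ∀ v w, D2 v w = ∑' n, a n * (l n v * l n w) := by
  have h2 := m7_summable_next a l h
  have h3 := m7_first (fun n => (l n).smulRight (a n)) l h2 0
  refine ⟨fun z => ∑' n, cexp (l n z) • (l n).smulRight (a n), _, ?_, h3, ?_⟩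
  · intro z
    refine (m7_first a l h z).congr_of_eventuallyEq (Eventually.of_forall fun z => ?_)
    refine tsum_congr fun n => ?_
    rw [smul_eq_mul, mul_comm]
  · intro v w
    have h4 : ∑' n, cexp (l n 0) • (l n).smulRight ((l n).smulRight (a n))
        = ∑' n, (l n).smulRight ((l n).smulRight (a n)) := by
      refine tsum_congr fun n => ?_
      rw [map_zero, Complex.exp_zero, one_smul]
    rw [h4]
    have h5 : Summable fun n => ‖l n‖ * ‖(l n).smulRight (a n)‖ := by
      refine Summable.of_nonneg_of_le (fun n => by positivity) (fun n => ?_) (h2 1)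
      rw [one_mul, mul_comm]
      exact mul_le_mul_of_nonneg_left (m7_exp_le _) (norm_nonneg _)
    rw [m7_eval (fun n => (l n).smulRight (a n)) l h5 v]
    have h6 : ∀ n, (l n v) • (l n).smulRight (a n) = (l n).smulRight ((l n v) • a n) := by
      intro n
      ext w
      rw [_root_.smul_apply, ContinuousLinearMap.smulRight_apply,
        ContinuousLinearMap.smulRight_apply, smul_comm]
    rw [tsum_congr h6]
    have h7 : Summable fun n => ‖l n‖ * ‖(l n v) • a n‖ := by
      refine Summable.of_nonneg_of_le (fun n => by positivity) (fun n => ?_)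
        (h5.mul_left ‖v‖)
      rw [norm_smul, ContinuousLinearMap.norm_smulRight_apply]
      have e1 := (l n).le_opNorm v
      calc ‖l n‖ * (‖(l n) v‖ * ‖a n‖) ≤ ‖l n‖ * (‖l n‖ * ‖v‖ * ‖a n‖) := by gcongr
        _ = _ := by ring
    rw [m7_eval (fun n => (l n v) • a n) l h7 w]
    refine tsum_congr fun n => ?_
    rw [smul_eq_mul, smul_eq_mul]
    ring

end

end Pool.Agent.H36.G00
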