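import Pool.Agent.H36.G00.Tau

set_option autoImplicit false

/-! # The ppav of `tau0`: the automorphism `ω`, indecomposability -/

namespace Pool.Agent.H36.G00

open Complex Matrix

/-! ### the Siegel condition and the coordinates of lattice vectors -/

lemma Sm_symm (i j : Fin 6) : Sm i j = Sm j i := by
  fin_cases i <;> fin_cases j <;> rfl

lemma tau0_im (i j : Fin 6) : (tau0 i j).im = if i = j then Real.sqrt 3 / 4 else 0 := by
  by_cases h : i = j
  · simp [tau0, h, om]
    ring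
  · simp [tau0, h]

theorem tau0_siegel : InSiegel tau0 := by
  constructor
  · ext i j
    simp only [Matrix.transpose_apply, tau0]
    rw [Sm_symm j i]
    by_cases h : i = j
    · simp [h]
    · simp [h, Ne.symm h]
  · have h : tau0.map Complex.im = (Real.sqrt 3 / 4) • (1 : Matrix (Fin 6) (Fin 6) ℝ) := by
      ext i j
      simp only [Matrix.map_apply, tau0_im, Matrix.smul_apply, Matrix.one_apply, smul_eq_mul]
      split_ifs <;> simp
    rw [h]
    exact Matrix.PosDef.one.smul (by positivity)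

lemma pt_apply (m n : Fin 6 → ℤ) (i : Fin 6) :
    pt tau0 m n i = (m i : ℂ) + om / 2 * n i + (∑ j, Sm i j * n j : ℤ) / 2 := by
  simp only [pt, Pi.add_apply, Matrix.mulVec, dotProduct, tau0]
  have : ∑ j, ((if i = j then om / 2 else 0) + ((Sm i j : ℤ) : ℂ) / 2) * ((n j : ℤ) : ℂ)
      = om / 2 * n i + (∑ j, Sm i j * n j : ℤ) / 2 := by
    simp only [add_mul, Finset.sum_add_distrib, ite_mul, zero_mul, Finset.sum_ite_eq,
      Finset.mem_univ, if_true]
    push_cast
    rw [Finset.sum_div]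
    congr 1
    apply Finset.sum_congr rfl
    intro j _
    ring
  rw [this]
  ring

lemma pt_inj {m n m' n' : Fin 6 → ℤ} (h : pt tau0 m n = pt tau0 m' n') : m = m' ∧ n = n' := by
  have hn : n = n' := by
    ext i
    have := congrArg Complex.im (congrFun h i)
    rw [pt_apply, pt_apply] at this
    simpa [om] using this
  refine ⟨?_, hn⟩
  subst hn
  ext i
  have := congrFun h i
  rw [pt_apply, pt_apply] at this
  have h2 : ((m i : ℤ) : ℂ) = m' i := by linear_combination this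
  exact_mod_cast h2

/-! ### the action of `ω` on the lattice -/

/-- `(1 + S ^ 2 - S) / 2` -/
def Um : Matrix (Fin 6) (Fin 6) ℤ :=
  !![3, 1, 1, 1, 1, 1;
     1, 2, 0, 1, 1, 0;
     1, 0, 2, 0, 1, 1;
     1, 1, 0, 2, 0, 1;
     1, 1, 1, 0, 2, 0;
     1, 0, 1, 1, 0, 2]

/-- coordinates of lattice vectors -/
abbrev ZZ := (Fin 6 → ℤ) × (Fin 6 → ℤ)

/-- the lattice vector of the coordinates -/
noncomputable def pz (v : ZZ) : Fin 6 → ℂ := pt tau0 v.1 v.2

/-- the form `E` -/
def EE (v w : ZZ) : ℤ := v.2 ⬝ᵥ w.1 - v.1 ⬝ᵥ w.2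

/-- multiplication by `ω` -/
def ow (v : ZZ) : ZZ :=
  (fun i => -(∑ j, Sm i j * v.1 j) - ∑ j, Um i j * v.2 j,
   fun i => 2 * v.1 i + (∑ j, Sm i j * v.2 j) - v.2 i)

lemma pz_inj {v w : ZZ} (h : pz v = pz w) : v = w := by
  obtain ⟨h1, h2⟩ := pt_inj h
  exact Prod.ext h1 h2

lemma pz_ow (v : ZZ) : pz (ow v) = om • pz v := by
  obtain ⟨m, n⟩ := v
  have h := om_sq
  ext i
  simp only [pz, Pi.smul_apply, smul_eq_mul, pt_apply, ow]
  fin_cases i <;>
  · simp [Fin.sum_univ_six, Sm, Um]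
    ring_nf
    simp only [h]
    ring

lemma EE_ow (v w : ZZ) : EE (ow v) (ow w) = EE v w := by
  obtain ⟨m, n⟩ := v
  obtain ⟨m', n'⟩ := w
  simp only [EE, ow, dotProduct, Fin.sum_univ_six, Sm, Um]
  simp
  ring

lemma EE_ow_self (v : ZZ) : 2 * EE (ow v) v =
    ∑ i, ((2 * v.1 i + ∑ j, Sm i j * v.2 j) ^ 2 - (2 * v.1 i + ∑ j, Sm i j * v.2 j) * v.2 i
      + v.2 i ^ 2) := by
  obtain ⟨m, n⟩ := v
  simp only [EE, ow, dotProduct, Fin.sum_univ_six, Sm, Um]
  simp
  ring

lemma EE_add_left (u v w : ZZ) : EE (u + v) w = EE u w + EE v w := by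
  simp only [EE, Prod.fst_add, Prod.snd_add, add_dotProduct]
  ring

lemma EE_add_right (u v w : ZZ) : EE u (v + w) = EE u v + EE u w := by
  simp only [EE, Prod.fst_add, Prod.snd_add, dotProduct_add]
  ring

lemma EE_swap (v w : ZZ) : EE v w = -EE w v := by
  simp only [EE]
  rw [dotProduct_comm v.2 w.1, dotProduct_comm v.1 w.2]
  ring

lemma pt_add {ι : Type} [Fintype ι] (τ : Matrix ι ι ℂ) (m n m' n' : ι → ℤ) :
    pt τ (m + m') (n + n') = pt τ m n + pt τ m' n' := by
  simp only [pt]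
  have h1 : (fun i => (((m + m') i : ℤ) : ℂ)) = (fun i => (m i : ℂ)) + fun i => (m' i : ℂ) := by
    ext i; simp
  have h2 : (fun i => (((n + n') i : ℤ) : ℂ)) = (fun i => (n i : ℂ)) + fun i => (n' i : ℂ) := by
    ext i; simp
  rw [h1, h2, Matrix.mulVec_add]
  abel

lemma pz_add (v w : ZZ) : pz (v + w) = pz v + pz w := pt_add _ _ _ _ _

lemma ow_add (v w : ZZ) : ow (v + w) = ow v + ow w := by
  apply pz_inj
  rw [pz_ow, pz_add, pz_add, pz_ow, pz_ow, smul_add]

lemma pz_zero : pz 0 = 0 := by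
  have := pz_add 0 0
  simpa using this

lemma EE_zero_left (w : ZZ) : EE 0 w = 0 := by
  simp [EE]

theorem omega_iso : IsIso tau0 tau0 omEquiv := by
  have hap : ∀ z, omEquiv z = om • z := fun z => rfl
  have key : ∀ z, z ∈ lattice tau0 → om • z ∈ lattice tau0 := by
    rintro z ⟨m, n, rfl⟩
    exact ⟨(ow (m, n)).1, (ow (m, n)).2, (pz_ow (m, n)).symm⟩
  refine ⟨fun z => ⟨fun hz => ?_, fun hz => ?_⟩, ?_⟩
  · rw [hap]
    exact key z hz
  · rw [hap] at hz
    have h3 : z = om • (om • (om • z)) := by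
      rw [smul_smul, smul_smul]
      have : om * om * om = 1 := by
        have h := om_sq
        linear_combination (om - 1) * h
      rw [this, one_smul]
    rw [h3]
    exact key _ (key _ hz)
  · intro m n m' n' M N M' N' h1 h2
    have e1 : ow (m, n) = (M, N) := by
      apply pz_inj
      rw [pz_ow]
      exact h1
    have e2 : ow (m', n') = (M', N') := by
      apply pz_inj
      rw [pz_ow]
      exact h2
    have := EE_ow (m, n) (m', n')
    rw [e1, e2] at this
    exact this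

/-! ### the minimum of the form -/

/-- the form `q (v) = E (ω v, v)` -/
def qf (v : ZZ) : ℤ := EE (ow v) v

lemma words : ∀ n : Fin 6 → ZMod 2,
    (Finset.univ.filter (fun i => n i ≠ 0 ∨ ∑ j, ((Sm i j : ℤ) : ZMod 2) * n j ≠ 0)).card ≤ 2 →
      n = 0 := by
  decide +kernel

lemma qf_min (v : ZZ) (h : qf v ≤ 1) : v = 0 := by
  obtain ⟨m, n⟩ := v
  have h2 := EE_ow_self (m, n)
  set a : Fin 6 → ℤ := fun i => 2 * m i + ∑ j, Sm i j * n j with ha
  set N : Fin 6 → ℤ := fun i => a i ^ 2 - a i * n i + n i ^ 2 with hN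
  have h3 : ∑ i, N i ≤ 2 := by
    have : ∑ i, N i = 2 * qf (m, n) := h2.symm
    omega
  have hN0 : ∀ i, 0 ≤ N i := by
    intro i
    simp only [hN]
    nlinarith [sq_nonneg (2 * a i - n i), sq_nonneg (n i)]
  -- parity
  have hpar : ∀ i, ((n i : ZMod 2) ≠ 0 ∨ ∑ j, ((Sm i j : ℤ) : ZMod 2) * (n j : ZMod 2) ≠ 0) →
      1 ≤ N i := by
    intro i hi
    have : N i ≠ 0 := by
      intro h0
      have hn : n i = 0 := by
        simp only [hN] at h0
        nlinarith [sq_nonneg (2 * a i - n i), sq_nonneg (n i)]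
      have ha0 : a i = 0 := by
        simp only [hN, hn] at h0
        simpa using h0
      rcases hi with hi | hi
      · apply hi
        simp [hn]
      · apply hi
        have : ((a i : ℤ) : ZMod 2) = 0 := by simp [ha0]
        simp only [ha] at this
        push_cast at this
        have h20 : (2 : ZMod 2) = 0 := by decide
        rw [h20] at this
        simpa using this
    have := hN0 i
    omega
  have hcard : (Finset.univ.filter (fun i => ((n i : ℤ) : ZMod 2) ≠ 0 ∨
      ∑ j, ((Sm i j : ℤ) : ZMod 2) * ((n j : ℤ) : ZMod 2) ≠ 0)).card ≤ 2 := by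
    have h4 : ((Finset.univ.filter (fun i => ((n i : ℤ) : ZMod 2) ≠ 0 ∨
      ∑ j, ((Sm i j : ℤ) : ZMod 2) * ((n j : ℤ) : ZMod 2) ≠ 0)).card : ℤ) ≤ ∑ i, N i := by
      calc ((Finset.univ.filter (fun i => ((n i : ℤ) : ZMod 2) ≠ 0 ∨
            ∑ j, ((Sm i j : ℤ) : ZMod 2) * ((n j : ℤ) : ZMod 2) ≠ 0)).card : ℤ)
          = ∑ i ∈ Finset.univ.filter (fun i => ((n i : ℤ) : ZMod 2) ≠ 0 ∨
            ∑ j, ((Sm i j : ℤ) : ZMod 2) * ((n j : ℤ) : ZMod 2) ≠ 0), (1 : ℤ) := by simp
        _ ≤ ∑ i ∈ Finset.univ.filter (fun i => ((n i : ℤ) : ZMod 2) ≠ 0 ∨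
            ∑ j, ((Sm i j : ℤ) : ZMod 2) * ((n j : ℤ) : ZMod 2) ≠ 0), N i := by
            apply Finset.sum_le_sum
            intro i hi
            exact hpar i (Finset.mem_filter.mp hi).2
        _ ≤ ∑ i, N i := by
            apply Finset.sum_le_sum_of_subset_of_nonneg (Finset.subset_univ _)
            intro i _ _
            exact hN0 i
    omega
  have hn2 := words (fun i => ((n i : ℤ) : ZMod 2)) hcard
  have hne : ∀ i, (2 : ℤ) ∣ n i := by
    intro i
    have := congrFun hn2 i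
    exact (ZMod.intCast_zmod_eq_zero_iff_dvd (n i) 2).mp this
  have hae : ∀ i, (2 : ℤ) ∣ a i := by
    intro i
    simp only [ha]
    apply dvd_add (dvd_mul_right 2 _)
    apply Finset.dvd_sum
    intro j _
    exact dvd_mul_of_dvd_right (hne j) _
  have hNz : ∀ i, N i = 0 := by
    intro i
    have h5 : N i ≤ 2 := le_trans (Finset.single_le_sum (f := N) (fun j _ => hN0 j)
      (Finset.mem_univ i)) h3
    obtain ⟨x, hx⟩ := hne i
    obtain ⟨y, hy⟩ := hae i
    have h6 : N i = 4 * (y ^ 2 - y * x + x ^ 2) := by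
      simp only [hN, hx, hy]
      ring
    have := hN0 i
    omega
  have hn0 : ∀ i, n i = 0 := by
    intro i
    have h0 := hNz i
    simp only [hN] at h0
    nlinarith [sq_nonneg (2 * a i - n i), sq_nonneg (n i)]
  have ha0 : ∀ i, a i = 0 := by
    intro i
    have h0 := hNz i
    simp only [hN, hn0 i] at h0
    simpa using h0
  have hm0 : ∀ i, m i = 0 := by
    intro i
    have := ha0 i
    simp only [ha, hn0] at this
    simpa using this
  apply Prod.ext
  · ext i
    exact hm0 i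
  · ext i
    exact hn0 i

lemma qf_nonneg (v : ZZ) : 0 ≤ qf v := by
  have h2 := EE_ow_self v
  have : 0 ≤ 2 * EE (ow v) v := by
    rw [h2]
    apply Finset.sum_nonneg
    intro i _
    nlinarith [sq_nonneg (2 * (2 * v.1 i + ∑ j, Sm i j * v.2 j) - v.2 i), sq_nonneg (v.2 i)]
  simp only [qf]
  omega

/-! ### projections -/

/-- an abstract projection of the lattice which respects the form and commutes with `ω` -/
structure Pr (p : ZZ → ZZ) : Prop where
  orth : ∀ v w, EE (p v) (w - p w) = 0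
  comm : ∀ v, p (ow v) = ow (p v)

lemma Pr.side {p : ZZ → ZZ} (hp : Pr p) (v : ZZ) (hv : qf v = 2) : p v = 0 ∨ p v = v := by
  have h1 : v = p v + (v - p v) := by abel
  have h2 : qf v = qf (p v) + qf (v - p v) := by
    have e : qf v = EE (ow (p v + (v - p v))) (p v + (v - p v)) := by
      rw [← h1, qf]
    rw [e, ow_add, EE_add_left, EE_add_right, EE_add_right]
    have e1 : EE (ow (p v)) (v - p v) = 0 := by
      rw [← hp.comm]
      exact hp.orth _ _
    have e2 : EE (ow (v - p v)) (p v) = 0 := by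
      have e3 : ow (v - p v) = ow v - p (ow v) := by
        have : ow v = ow (p v) + ow (v - p v) := by rw [← ow_add, ← h1]
        rw [hp.comm]
        rw [this]
        abel
      rw [e3, EE_swap, hp.orth, neg_zero]
    rw [e1, e2, qf, qf]
    ring
  rw [hv] at h2
  have h3 := qf_nonneg (p v)
  have h4 := qf_nonneg (v - p v)
  by_cases h5 : qf (p v) ≤ 1
  · left
    exact qf_min _ h5
  · right
    have : v - p v = 0 := qf_min _ (by omega)
    exact (sub_eq_zero.mp this).symm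

lemma Pr.same {p : ZZ → ZZ} (hp : Pr p) {v w : ZZ} (h : EE v w ≠ 0 ∨ EE (ow v) w ≠ 0)
    (hv : p v = v) : p w ≠ 0 := by
  intro hw
  rcases h with h | h
  · apply h
    have := hp.orth v w
    rw [hv, hw, sub_zero] at this
    exact this
  · apply h
    have := hp.orth (ow v) w
    rw [hp.comm, hv, hw, sub_zero] at this
    exact this

lemma Pr.same' {p : ZZ → ZZ} (hp : Pr p) {v w : ZZ} (h : EE v w ≠ 0 ∨ EE (ow v) w ≠ 0)
    (hv : p v = 0) : p w ≠ w := by
  intro hw
  rcases h with h | h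
  · apply h
    have := hp.orth w v
    rw [hv, hw, sub_zero] at this
    rw [EE_swap, this, neg_zero]
  · apply h
    have := hp.orth w (ow v)
    have h0 : ow 0 = 0 := by
      have := ow_add 0 0
      simpa using this
    rw [hp.comm, hv, hw, h0, sub_zero] at this
    rw [EE_swap, this, neg_zero]

/-- the lattice vector `e_j` -/
def ee (j : Fin 6) : ZZ := (fun i => if i = j then 1 else 0, 0)

/-- the lattice vector `τ e_j` -/
def te (j : Fin 6) : ZZ := (0, fun i => if i = j then 1 else 0)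

lemma qf_ee (j : Fin 6) : qf (ee j) = 2 := by
  fin_cases j <;> decide +kernel

lemma qf_te (j : Fin 6) (hj : j ≠ 0) : qf (te j) = 2 := by
  revert hj
  fin_cases j <;> decide +kernel

lemma te_zero (j : Fin 6) (hj : j ≠ 0) : EE (te j) (ee 0) ≠ 0 ∨ EE (ow (te j)) (ee 0) ≠ 0 := by
  revert hj
  fin_cases j <;> decide +kernel

lemma te_self (j : Fin 6) : EE (te j) (ee j) ≠ 0 ∨ EE (ow (te j)) (ee j) ≠ 0 := by
  fin_cases j <;> decide +kernel

lemma ee_ne (j : Fin 6) : ee j ≠ 0 := by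
  fin_cases j <;> decide +kernel

lemma Pr.sides {p : ZZ → ZZ} (hp : Pr p) :
    (∀ j, p (ee j) = ee j) ∨ (∀ j, p (ee j) = 0) := by
  rcases hp.side (ee 0) (qf_ee 0) with h0 | h0
  · right
    intro j
    by_cases hj : j = 0
    · rw [hj]
      exact h0
    · rcases hp.side (te j) (qf_te j hj) with h1 | h1
      · rcases hp.side (ee j) (qf_ee j) with h2 | h2
        · exact h2
        · exact absurd h2 (hp.same' (te_self j) h1)
      · exact absurd h0 (hp.same (te_zero j hj) h1)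
  · left
    intro j
    by_cases hj : j = 0
    · rw [hj]
      exact h0
    · rcases hp.side (te j) (qf_te j hj) with h1 | h1
      · exact absurd h0 (hp.same' (te_zero j hj) h1)
      · rcases hp.side (ee j) (qf_ee j) with h2 | h2
        · exact absurd h2 (hp.same (te_self j) h1)
        · exact h2

lemma pz_ee (j : Fin 6) : pz (ee j) = Pi.single j 1 := by
  ext i
  simp only [pz, pt_apply, ee]
  by_cases h : i = j
  · subst h
    simp
  · simp [h]

/-- the projection to the first block -/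
def P1 (g₁ g₂ : ℕ) : (Fin g₁ ⊕ Fin g₂ → ℂ) →ₗ[ℂ] (Fin g₁ ⊕ Fin g₂ → ℂ) where
  toFun z := Sum.elim (z ∘ Sum.inl) 0
  map_add' x y := by
    ext (i | i) <;> simp
  map_smul' c x := by
    ext (i | i) <;> simp

lemma pt_block {g₁ g₂ : ℕ} (τ₁ : Matrix (Fin g₁) (Fin g₁) ℂ) (τ₂ : Matrix (Fin g₂) (Fin g₂) ℂ)
    (M N : Fin g₁ ⊕ Fin g₂ → ℤ) :
    P1 g₁ g₂ (pt (Matrix.fromBlocks τ₁ 0 0 τ₂) M N) =
      pt (Matrix.fromBlocks τ₁ 0 0 τ₂) (Sum.elim (M ∘ Sum.inl) 0) (Sum.elim (N ∘ Sum.inl) 0) := by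
  ext (i | i) <;> simp [P1, pt, Matrix.mulVec, dotProduct, Fintype.sum_sum_type]

lemma pt_block' {g₁ g₂ : ℕ} (τ₁ : Matrix (Fin g₁) (Fin g₁) ℂ) (τ₂ : Matrix (Fin g₂) (Fin g₂) ℂ)
    (M N : Fin g₁ ⊕ Fin g₂ → ℤ) :
    pt (Matrix.fromBlocks τ₁ 0 0 τ₂) M N - P1 g₁ g₂ (pt (Matrix.fromBlocks τ₁ 0 0 τ₂) M N) =
      pt (Matrix.fromBlocks τ₁ 0 0 τ₂) (Sum.elim 0 (M ∘ Sum.inr)) (Sum.elim 0 (N ∘ Sum.inr)) := by
  ext (i | i) <;> simp [P1, pt, Matrix.mulVec, dotProduct, Fintype.sum_sum_type]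

theorem tau0_indecomposable : ¬ Decomposable tau0 := by
  rintro ⟨g₁, g₂, τ₁, τ₂, φ, hg1, hg2, -, -, hlat, hE⟩
  set Q : (Fin 6 → ℂ) →ₗ[ℂ] (Fin 6 → ℂ) :=
    φ.symm.toLinearMap ∘ₗ (P1 g₁ g₂) ∘ₗ φ.toLinearMap with hQ
  have hφQ : ∀ z, φ (Q z) = P1 g₁ g₂ (φ z) := by
    intro z
    simp [hQ]
  have hmem : ∀ v : ZZ, pz v ∈ lattice tau0 := fun v => ⟨v.1, v.2, rfl⟩
  have hex : ∀ v : ZZ, ∃ w : ZZ, pz w = Q (pz v) := by
    intro v
    obtain ⟨M, N, hMN⟩ := (hlat _).mp (hmem v)
    have h1 : Q (pz v) ∈ lattice tau0 := by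
      rw [hlat, hφQ, hMN, pt_block]
      exact ⟨_, _, rfl⟩
    obtain ⟨m, n, hmn⟩ := h1
    exact ⟨(m, n), hmn.symm⟩
  choose p hp using hex
  have hPr : Pr p := by
    constructor
    · intro v w
      obtain ⟨M, N, hMN⟩ := (hlat _).mp (hmem v)
      obtain ⟨M', N', hMN'⟩ := (hlat _).mp (hmem w)
      have h1 : φ (pt tau0 (p v).1 (p v).2) = pt (Matrix.fromBlocks τ₁ 0 0 τ₂)
          (Sum.elim (M ∘ Sum.inl) 0) (Sum.elim (N ∘ Sum.inl) 0) := by
        have : φ (pz (p v)) = pt (Matrix.fromBlocks τ₁ 0 0 τ₂)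
            (Sum.elim (M ∘ Sum.inl) 0) (Sum.elim (N ∘ Sum.inl) 0) := by
          rw [hp, hφQ, hMN, pt_block]
        exact this
      have h2 : φ (pt tau0 (w - p w).1 (w - p w).2) = pt (Matrix.fromBlocks τ₁ 0 0 τ₂)
          (Sum.elim 0 (M' ∘ Sum.inr)) (Sum.elim 0 (N' ∘ Sum.inr)) := by
        have h3 : pz (w - p w) = pz w - pz (p w) := by
          have := pz_add (w - p w) (p w)
          rw [sub_add_cancel] at this
          rw [this]
          abel
        have : φ (pz (w - p w)) = pt (Matrix.fromBlocks τ₁ 0 0 τ₂)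
            (Sum.elim 0 (M' ∘ Sum.inr)) (Sum.elim 0 (N' ∘ Sum.inr)) := by
          rw [h3, map_sub, hp, hφQ, hMN', pt_block']
        exact this
      have h4 := hE _ _ _ _ _ _ _ _ h1 h2
      simp only [EE]
      rw [← h4]
      simp [dotProduct, Fintype.sum_sum_type]
    · intro v
      apply pz_inj
      rw [hp, pz_ow, pz_ow, map_smul, hp]
  rcases hPr.sides with h | h
  · have hid : Q = LinearMap.id := by
      apply LinearMap.pi_ext'
      intro j
      ext1
      have := hp (ee j)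
      rw [h, pz_ee] at this
      simpa using this.symm
    have h1 := hφQ (φ.symm (fun _ => 1))
    rw [hid] at h1
    have h2 := congrFun h1 (Sum.inr ⟨0, hg2⟩)
    simp [P1] at h2
  · have h0 : Q = 0 := by
      apply LinearMap.pi_ext'
      intro j
      ext1
      have := hp (ee j)
      rw [h, pz_ee, pz_zero] at this
      simpa using this.symm
    have h1 := hφQ (φ.symm (fun _ => 1))
    rw [h0] at h1
    have h2 := congrFun h1 (Sum.inl ⟨0, hg1⟩)
    simp [P1] at h2

end Pool.Agent.H36.G00
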