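import Pool.Agent.H36.G00.Tau
import Pool.Agent.H36.G00.Series

set_option autoImplicit false

/-! # The Jacobi theta functions at `τ = ω` -/

namespace Pool.Agent.H36.G00

open Complex Matrix

/-- coefficients of the Jacobi theta functions with characteristics at `ω` -/
noncomputable def coef (e : ℕ) (t n : ℤ) : ℂ :=
  cexp (Real.pi * I * n * t + Real.pi * I * om * ((n : ℂ) + (e : ℂ) / 2) ^ 2)

lemma om_re : om.re = -1 / 2 := rfl
lemma om_im : om.im = Real.sqrt 3 / 2 := rfl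

lemma norm_coef (e : ℕ) (t n : ℤ) :
    ‖coef e t n‖ = Real.exp (-(Real.pi * Real.sqrt 3 / 2) * ((n : ℝ) + (e : ℝ) / 2) ^ 2) := by
  rw [coef, Complex.norm_exp]
  congr 1
  have h1 : ((n : ℂ) + (e : ℂ) / 2) ^ 2 = (((((n : ℝ) + (e : ℝ) / 2) ^ 2 : ℝ)) : ℂ) := by
    push_cast; ring
  rw [h1]
  have h2 : (Real.pi * I * n * t : ℂ) = ((Real.pi * n * t : ℝ) : ℂ) * I := by
    push_cast; ring
  rw [h2, Complex.add_re, Complex.re_ofReal_mul, Complex.I_re, mul_zero, zero_add]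
  have h3 : (Real.pi * I * om * (((((n : ℝ) + (e : ℝ) / 2) ^ 2 : ℝ)) : ℂ) : ℂ) =
      ((Real.pi * ((n : ℝ) + (e : ℝ) / 2) ^ 2 : ℝ) : ℂ) * (I * om) := by
    push_cast; ring
  rw [h3, Complex.re_ofReal_mul, Complex.I_mul_re, om_im]
  ring

/-- `exp (-c (n + e/2)^2 + R |n + e/2|)` is summable -/
lemma summable_gauss (e : ℕ) {c : ℝ} (hc : 0 < c) (R : ℝ) (hR : 0 ≤ R) :
    Summable fun n : ℤ => Real.exp (-c * ((n : ℝ) + (e : ℝ) / 2) ^ 2) *
      Real.exp (R * |(n : ℝ) + (e : ℝ) / 2|) := by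
  have h := summable_pow_mul_jacobiTheta₂_term_bound (R / (2 * Real.pi))
    (T := c / (2 * Real.pi)) (by positivity) 0
  have h' := h.mul_left (Real.exp (c * (e : ℝ) ^ 2 / 4 + R * (e : ℝ) / 2))
  refine Summable.of_nonneg_of_le (fun n => by positivity) (fun n => ?_) h'
  rw [pow_zero, one_mul, ← Real.exp_add, ← Real.exp_add]
  apply Real.exp_le_exp.2
  have hpi := Real.pi_pos
  have h1 : -Real.pi * (c / (2 * Real.pi) * (n : ℝ) ^ 2 - 2 * (R / (2 * Real.pi)) * |(n : ℤ)|) =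
      -c * (n : ℝ) ^ 2 / 2 + R * |(n : ℤ)| := by
    field_simp
    ring
  rw [h1]
  have h2 : |(n : ℝ) + (e : ℝ) / 2| ≤ |(n : ℝ)| + (e : ℝ) / 2 := by
    refine (abs_add_le _ _).trans ?_
    rw [abs_of_nonneg (show (0 : ℝ) ≤ (e : ℝ) / 2 by positivity)]
  have h3 : R * |(n : ℝ) + (e : ℝ) / 2| ≤ R * |(n : ℝ)| + R * (e : ℝ) / 2 := by
    calc _ ≤ R * (|(n : ℝ)| + (e : ℝ) / 2) := mul_le_mul_of_nonneg_left h2 hR
      _ = _ := by ring
  have h4 : -c * ((n : ℝ) + (e : ℝ) / 2) ^ 2 ≤ c * (e : ℝ) ^ 2 / 4 + -c * (n : ℝ) ^ 2 / 2 := by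
    nlinarith [mul_nonneg hc.le (sq_nonneg ((n : ℝ) + (e : ℝ)))]
  have h5 : ((|n| : ℤ) : ℝ) = |(n : ℝ)| := by push_cast; rfl
  rw [h5]
  linarith

lemma sqrt3_pos : 0 < Real.sqrt 3 := Real.sqrt_pos.2 (by norm_num)

lemma summable_coef (e : ℕ) (t : ℤ) (R : ℝ) (hR : 0 ≤ R) :
    Summable fun n : ℤ => ‖coef e t n‖ * Real.exp (R * ‖(2 * Real.pi * I * ((n : ℂ) + (e : ℂ) / 2))‖) := by
  have h := summable_gauss e (c := Real.pi * Real.sqrt 3 / 2)
    (by have := Real.pi_pos; have := sqrt3_pos; positivity) (R * (2 * Real.pi))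
    (by have := Real.pi_pos; positivity)
  refine h.congr (fun n => ?_)
  rw [norm_coef]
  congr 2
  have h1 : (2 * Real.pi * I * ((n : ℂ) + (e : ℂ) / 2) : ℂ) =
      ((2 * Real.pi * ((n : ℝ) + (e : ℝ) / 2) : ℝ) : ℂ) * I := by push_cast; ring
  rw [h1, norm_mul, Complex.norm_I, mul_one, Complex.norm_real, Real.norm_eq_abs, abs_mul,
    abs_of_pos (show (0 : ℝ) < 2 * Real.pi by have := Real.pi_pos; positivity)]
  ring

/-- the frequency -/
noncomputable def fr (e : ℕ) (n : ℤ) : ℂ := 2 * Real.pi * I * ((n : ℂ) + (e : ℂ) / 2)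

/-- the Jacobi theta function with characteristic `(e, t)` and its formal derivatives -/
noncomputable def J (k : ℕ) (e : ℕ) (t : ℤ) (w : ℂ) : ℂ :=
  ∑' n : ℤ, coef e t n * fr e n ^ k * cexp (w * fr e n)

lemma summable_coef_pow (k : ℕ) (e : ℕ) (t : ℤ) (R : ℝ) (hR : 0 ≤ R) :
    Summable fun n : ℤ => ‖coef e t n * fr e n ^ k‖ * Real.exp (R * ‖fr e n‖) := by
  have h := (summable_coef e t (R + 1) (by linarith)).mul_left ((k.factorial : ℝ))
  refine Summable.of_nonneg_of_le (fun n => by positivity) (fun n => ?_) h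
  change _ ≤ (k.factorial : ℝ) * (‖coef e t n‖ * Real.exp ((R + 1) * ‖fr e n‖))
  rw [norm_mul, norm_pow]
  have h1 : ‖fr e n‖ ^ k ≤ (k.factorial : ℝ) * Real.exp (‖fr e n‖) := by
    have := Real.pow_div_factorial_le_exp (‖fr e n‖) (norm_nonneg _) k
    rw [div_le_iff₀ (by positivity)] at this
    linarith
  have h2 : Real.exp ((R + 1) * ‖fr e n‖) = Real.exp (‖fr e n‖) * Real.exp (R * ‖fr e n‖) := by
    rw [← Real.exp_add]; congr 1; ring
  rw [h2]
  calc ‖coef e t n‖ * ‖fr e n‖ ^ k * Real.exp (R * ‖fr e n‖)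
      ≤ ‖coef e t n‖ * ((k.factorial : ℝ) * Real.exp (‖fr e n‖)) * Real.exp (R * ‖fr e n‖) := by
        gcongr
    _ = _ := by ring

lemma hasDerivAt_J (k e : ℕ) (t : ℤ) (w : ℂ) : HasDerivAt (J k e t) (J (k + 1) e t w) w := by
  have h := hasDerivAt_expSum (fun n : ℤ => coef e t n * fr e n ^ k) (fun n => fr e n)
    (R := ‖w‖ + 1) (summable_coef_pow k e t (‖w‖ + 1) (by positivity)) (t := w) (by linarith)
  refine h.congr_deriv ?_
  rw [J]
  apply tsum_congr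
  intro n
  ring

lemma summable_J (k e : ℕ) (t : ℤ) (w : ℂ) :
    Summable fun n : ℤ => ‖coef e t n * fr e n ^ k * cexp (w * fr e n)‖ := by
  refine Summable.of_nonneg_of_le (fun n => norm_nonneg _) (fun n => ?_)
    (summable_coef_pow k e t ‖w‖ (norm_nonneg _))
  rw [norm_mul]
  apply mul_le_mul_of_nonneg_left _ (norm_nonneg _)
  rw [Complex.norm_exp]
  apply Real.exp_le_exp.2
  calc _ ≤ ‖w * fr e n‖ := Complex.re_le_norm _
    _ = _ := norm_mul _ _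

end Pool.Agent.H36.G00
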