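import Pool.Agent.H36.G00.Jac

set_option autoImplicit false

/-! # Relations between the Jacobi theta functions at `ω` -/

namespace Pool.Agent.H36.G00

open Complex Matrix

lemma om_cube : om ^ 3 = 1 := by
  have h := om_sq
  linear_combination (om - 1) * h

lemma J_eq (e : ℕ) (t : ℤ) (w : ℂ) : J 0 e t w =
    cexp (Real.pi * I * om * (e : ℂ) ^ 2 / 4 + Real.pi * I * e * w) *
      jacobiTheta₂ (w + e * om / 2 + t / 2) om := by
  rw [J, jacobiTheta₂, ← tsum_mul_left]
  apply tsum_congr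
  intro n
  rw [pow_zero, mul_one, coef, fr, jacobiTheta₂_term, ← Complex.exp_add, ← Complex.exp_add]
  congr 1
  ring

lemma theta_add_one (v : ℂ) : jacobiTheta₂ v (om + 1) = jacobiTheta₂ (v + 1 / 2) om := by
  rw [jacobiTheta₂, jacobiTheta₂]
  apply tsum_congr
  intro n
  rw [jacobiTheta₂_term, jacobiTheta₂_term]
  have h : cexp (Real.pi * I * (n : ℂ) ^ 2) = cexp (Real.pi * I * (n : ℂ)) := by
    rw [Complex.exp_eq_exp_iff_exists_int]
    obtain ⟨k, hk⟩ := Int.even_mul_succ_self (n - 1)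
    refine ⟨k, ?_⟩
    have hk' : ((n : ℂ) - 1) * ((n : ℂ) - 1 + 1) = (k : ℂ) + k := by exact_mod_cast hk
    linear_combination (Real.pi * I) * hk'
  have h1 : (2 * Real.pi * I * n * v + Real.pi * I * n ^ 2 * (om + 1) : ℂ) =
      (2 * Real.pi * I * n * v + Real.pi * I * n ^ 2 * om) + Real.pi * I * n ^ 2 := by ring
  have h2 : (2 * Real.pi * I * n * (v + 1 / 2) + Real.pi * I * n ^ 2 * om : ℂ) =
      (2 * Real.pi * I * n * v + Real.pi * I * n ^ 2 * om) + Real.pi * I * n := by ring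
  rw [h1, h2, Complex.exp_add, h, ← Complex.exp_add]

/-- the constant in the functional equation -/
noncomputable def KK : ℂ := 1 / (-I * om) ^ (1 / 2 : ℂ)

lemma KK_ne_zero : KK ≠ 0 := by
  rw [KK]
  apply one_div_ne_zero
  rw [Ne, Complex.cpow_eq_zero_iff]
  intro h
  have := h.1
  have h2 : -I * om ≠ 0 := mul_ne_zero (neg_ne_zero.2 Complex.I_ne_zero) om_ne_zero
  exact h2 this

lemma theta_fe (w : ℂ) : jacobiTheta₂ w om =
    KK * cexp (-(Real.pi * I * om ^ 2 * w ^ 2)) * jacobiTheta₂ (om ^ 2 * w + 1 / 2) om := by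
  have h := jacobiTheta₂_functional_equation w om
  have h0 := om_ne_zero
  have h1 : -1 / om = om + 1 := by
    field_simp
    linear_combination -om_sq
  have h2 : w / om = om ^ 2 * w := by
    field_simp
    linear_combination -w * om_cube
  have h3 : -Real.pi * I * w ^ 2 / om = -(Real.pi * I * om ^ 2 * w ^ 2) := by
    rw [div_eq_iff h0]
    linear_combination Real.pi * I * w ^ 2 * om_cube
  rw [h, h1, h2, h3, theta_add_one, KK]

lemma rel00 (w : ℂ) : J 0 0 0 w =
    KK * cexp (-(Real.pi * I * om ^ 2 * w ^ 2)) * J 0 0 1 (om ^ 2 * w) := by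
  rw [J_eq, J_eq]
  have := theta_fe w
  simp only [Nat.cast_zero, Int.cast_zero, Int.cast_one, zero_mul, zero_div, add_zero, mul_zero,
    Complex.exp_zero, one_mul, ne_eq, OfNat.ofNat_ne_zero, not_false_eq_true, zero_pow]
  rw [this]

lemma rel01 (w : ℂ) : J 0 0 1 w =
    KK * cexp (Real.pi * I / 4) * cexp (-(Real.pi * I * om ^ 2 * w ^ 2)) * J 0 1 0 (om ^ 2 * w) := by
  rw [J_eq, J_eq]
  have h := theta_fe (w + 1 / 2)
  have h1 : om ^ 2 * (w + 1 / 2) + 1 / 2 = -(-(om ^ 2 * w) + om / 2) := by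
    linear_combination (1 / 2) * om_sq
  rw [h1, jacobiTheta₂_neg_left] at h
  have h2 : jacobiTheta₂ (-(om ^ 2 * w) + om / 2) om =
      cexp (2 * Real.pi * I * (om ^ 2 * w)) * jacobiTheta₂ (om ^ 2 * w + om / 2) om := by
    have h3 := jacobiTheta₂_add_left' (-(om ^ 2 * w + om / 2)) om
    rw [jacobiTheta₂_neg_left] at h3
    have h4 : -(om ^ 2 * w + om / 2) + om = -(om ^ 2 * w) + om / 2 := by ring
    rw [h4] at h3
    rw [h3]
    congr 2
    ring
  rw [h2] at h
  simp only [Nat.cast_zero, Nat.cast_one, Int.cast_zero, Int.cast_one, zero_mul, zero_div, add_zero,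
    mul_zero, Complex.exp_zero, one_mul, ne_eq, OfNat.ofNat_ne_zero, not_false_eq_true, zero_pow,
    one_pow, mul_one]
  rw [h]
  rw [show KK * cexp (-(Real.pi * I * om ^ 2 * (w + 1 / 2) ^ 2)) *
      (cexp (2 * Real.pi * I * (om ^ 2 * w)) * jacobiTheta₂ (om ^ 2 * w + om / 2) om) =
      KK * (cexp (-(Real.pi * I * om ^ 2 * (w + 1 / 2) ^ 2)) *
      cexp (2 * Real.pi * I * (om ^ 2 * w))) * jacobiTheta₂ (om ^ 2 * w + om / 2) om by ring]
  rw [show KK * cexp (Real.pi * I / 4) * cexp (-(Real.pi * I * om ^ 2 * w ^ 2)) *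
      (cexp (Real.pi * I * om / 4 + Real.pi * I * (om ^ 2 * w)) *
      jacobiTheta₂ (om ^ 2 * w + om / 2) om) =
      KK * (cexp (Real.pi * I / 4) * cexp (-(Real.pi * I * om ^ 2 * w ^ 2)) *
      cexp (Real.pi * I * om / 4 + Real.pi * I * (om ^ 2 * w))) *
      jacobiTheta₂ (om ^ 2 * w + om / 2) om by ring]
  rw [← Complex.exp_add, ← Complex.exp_add, ← Complex.exp_add]
  congr 3
  linear_combination (-(Real.pi * I) / 4) * om_sq

lemma rel10 (w : ℂ) : J 0 1 0 w =
    KK * cexp (-(Real.pi * I * om ^ 2 * w ^ 2)) * J 0 0 0 (om ^ 2 * w) := by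
  rw [J_eq, J_eq]
  have h := theta_fe (w + om / 2)
  have h1 : om ^ 2 * (w + om / 2) + 1 / 2 = om ^ 2 * w + 1 := by
    linear_combination (1 / 2) * om_cube
  rw [h1, jacobiTheta₂_add_left] at h
  simp only [Nat.cast_zero, Nat.cast_one, Int.cast_zero, zero_mul, zero_div, add_zero,
    mul_zero, Complex.exp_zero, one_mul, ne_eq, OfNat.ofNat_ne_zero, not_false_eq_true, zero_pow,
    one_pow, mul_one]
  rw [h]
  rw [show cexp (Real.pi * I * om / 4 + Real.pi * I * w) *
      (KK * cexp (-(Real.pi * I * om ^ 2 * (w + om / 2) ^ 2)) * jacobiTheta₂ (om ^ 2 * w) om) =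
      KK * (cexp (Real.pi * I * om / 4 + Real.pi * I * w) *
      cexp (-(Real.pi * I * om ^ 2 * (w + om / 2) ^ 2))) * jacobiTheta₂ (om ^ 2 * w) om by ring]
  rw [← Complex.exp_add]
  congr 3
  linear_combination (-(Real.pi * I) * w - (Real.pi * I) * om / 4) * om_cube

end Pool.Agent.H36.G00
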