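import Pool.Agent.H36.G00.Jac

set_option autoImplicit false

/-! # Numerical facts about the Jacobi theta functions at `ω` -/

namespace Pool.Agent.H36.G00

open Complex Matrix

/-- the torsion point `w₀ = (4 + 2 ω) / 3 = 1 + i / √3` -/
noncomputable def w0 : ℂ := (4 + 2 * om) / 3

namespace NumAux

lemma geo {B t : ℝ} (ht : 0 ≤ t) (ht1 : t < 1) :
    HasSum (fun k : ℕ => B * t ^ (k + 1)) (B * (t / (1 - t))) := by
  have h := (hasSum_geometric_of_lt_one ht ht1).mul_left (B * t)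
  have h6 : B * t * (1 - t)⁻¹ = B * (t / (1 - t)) := by
    rw [div_eq_mul_inv]; ring
  have h7 : (fun k : ℕ => B * t ^ (k + 1)) = fun k : ℕ => B * t * t ^ k := by
    funext k
    rw [pow_succ]; ring
  rw [h7, ← h6]
  exact h

/-- a doubly infinite sum is close to its dominating term -/
lemma norm_sub_le (f : ℤ → ℂ) (n0 : ℤ) (hf : Summable fun n => ‖f n‖) {B r s : ℝ}
    (hr : 0 ≤ r) (hr1 : r < 1) (hs : 0 ≤ s) (hs1 : s < 1)
    (h1 : ∀ k : ℕ, ‖f (n0 + ((k : ℤ) + 1))‖ ≤ B * r ^ (k + 1))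
    (h2 : ∀ k : ℕ, ‖f (n0 + -((k : ℤ) + 1))‖ ≤ B * s ^ (k + 1)) :
    ‖∑' n, f n - f n0‖ ≤ B * (r / (1 - r)) + B * (s / (1 - s)) := by
  have hsum : Summable (fun n : ℤ => f (n0 + n)) :=
    (Equiv.addLeft n0).summable_iff.2 hf.of_norm
  have he : ∑' n, f n = ∑' n : ℤ, f (n0 + n) := ((Equiv.addLeft n0).tsum_eq f).symm
  have hpos : Summable (fun n : ℕ => f (n0 + (n : ℤ))) :=
    hsum.comp_injective (i := fun n : ℕ => (n : ℤ)) Nat.cast_injective
  have hneg : Summable (fun n : ℕ => f (n0 + -((n : ℤ) + 1))) :=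
    hsum.comp_injective (i := fun n : ℕ => -((n : ℤ) + 1)) (fun a b h => by
      simp only at h
      omega)
  have h3 : ∑' n : ℤ, f (n0 + n) =
      ∑' n : ℕ, f (n0 + (n : ℤ)) + ∑' n : ℕ, f (n0 + -((n : ℤ) + 1)) :=
    tsum_of_nat_of_neg_add_one hpos hneg
  have h4 : ∑' n : ℕ, f (n0 + (n : ℤ)) = f n0 + ∑' n : ℕ, f (n0 + ((n : ℤ) + 1)) := by
    rw [hpos.tsum_eq_zero_add]
    congr 1
    simp
  rw [he, h3, h4]
  have h5 : f n0 + ∑' n : ℕ, f (n0 + ((n : ℤ) + 1)) + ∑' n : ℕ, f (n0 + -((n : ℤ) + 1)) - f n0 =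
      ∑' n : ℕ, f (n0 + ((n : ℤ) + 1)) + ∑' n : ℕ, f (n0 + -((n : ℤ) + 1)) := by ring
  rw [h5]
  refine (norm_add_le _ _).trans (add_le_add ?_ ?_)
  · exact tsum_of_norm_bounded (geo hr hr1) h1
  · exact tsum_of_norm_bounded (geo hs hs1) h2

/-- one-sided version -/
lemma norm_sub_le_nat (f : ℕ → ℂ) (hf : Summable f) {B r : ℝ}
    (hr : 0 ≤ r) (hr1 : r < 1) (h1 : ∀ k : ℕ, ‖f (k + 1)‖ ≤ B * r ^ (k + 1)) :
    ‖∑' n, f n - f 0‖ ≤ B * (r / (1 - r)) := by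
  rw [hf.tsum_eq_zero_add, add_sub_cancel_left]
  exact tsum_of_norm_bounded (geo hr hr1) h1

/-- `π / (2 √3)` -/
noncomputable def cc : ℝ := Real.pi * Real.sqrt 3 / 6

lemma cc_pos : 0 < cc := by
  have h1 := Real.pi_pos
  have h2 := sqrt3_pos
  unfold cc
  positivity

lemma sq3 : Real.sqrt 3 ^ 2 = 3 := Real.sq_sqrt (by norm_num)

lemma sq3_lt : Real.sqrt 3 < 1.7321 := by
  rw [Real.sqrt_lt' (by norm_num)]
  norm_num

lemma lt_sq3 : 1.732 < Real.sqrt 3 := by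
  rw [Real.lt_sqrt (by norm_num)]
  norm_num

/-- the nome `|q|` -/
noncomputable def qq : ℝ := Real.exp (-(3 * cc))

lemma qq_pos : 0 < qq := Real.exp_pos _

lemma qq_lt : qq < 1 / 14 := by
  have h1 : (8 / 3 : ℝ) < 3 * cc := by
    have hp := Real.pi_gt_d2
    have h3 := lt_sq3
    unfold cc
    nlinarith
  have h2 : Real.exp (8 / 3) < Real.exp (3 * cc) := Real.exp_lt_exp.2 h1
  have h3 : (14 : ℝ) < Real.exp (8 / 3) := by
    have h4 : Real.exp (8 / 3) ^ 3 = Real.exp 1 ^ 8 := by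
      rw [← Real.exp_nat_mul, ← Real.exp_nat_mul]
      norm_num
    have h5 : (2.7182818283 : ℝ) ^ 8 < Real.exp 1 ^ 8 :=
      pow_lt_pow_left₀ Real.exp_one_gt_d9 (by norm_num) (by norm_num)
    by_contra hc
    push Not at hc
    have h6 : Real.exp (8 / 3) ^ 3 ≤ 14 ^ 3 := pow_le_pow_left₀ (Real.exp_pos _).le hc 3
    rw [h4] at h6
    norm_num at h5 h6
    linarith
  unfold qq
  rw [Real.exp_neg, one_div]
  exact inv_strictAnti₀ (by norm_num) (h3.trans h2)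

lemma lt_qq : 1 / 16 < qq := by
  have h1 : 3 * cc < (11 / 4 : ℝ) := by
    have hp := Real.pi_lt_d2
    have h3 := sq3_lt
    have hp0 := Real.pi_pos
    have h30 := sqrt3_pos
    unfold cc
    nlinarith
  have h2 : Real.exp (3 * cc) < Real.exp (11 / 4) := Real.exp_lt_exp.2 h1
  have h3 : Real.exp (11 / 4) < 16 := by
    have h4 : Real.exp (11 / 4) ^ 4 = Real.exp 1 ^ 11 := by
      rw [← Real.exp_nat_mul, ← Real.exp_nat_mul]
      norm_num
    have h5 : Real.exp 1 ^ 11 < (2.7182818286 : ℝ) ^ 11 :=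
      pow_lt_pow_left₀ Real.exp_one_lt_d9 (Real.exp_pos _).le (by norm_num)
    by_contra hc
    push Not at hc
    have h6 : 16 ^ 4 ≤ Real.exp (11 / 4) ^ 4 := pow_le_pow_left₀ (by norm_num) hc 4
    rw [h4] at h6
    norm_num at h5 h6
    linarith
  unfold qq
  rw [Real.exp_neg, one_div]
  exact inv_strictAnti₀ (Real.exp_pos _) (h2.trans h3)

lemma q1_lt : Real.exp (-cc * 1) < 0.415 := by
  by_contra hc
  push Not at hc
  have h1 : (0.415 : ℝ) ^ 3 ≤ Real.exp (-cc * 1) ^ 3 := pow_le_pow_left₀ (by norm_num) hc 3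
  have h2 : Real.exp (-cc * 1) ^ 3 = qq := by
    rw [← Real.exp_nat_mul, qq]
    congr 1
    push_cast
    ring
  rw [h2] at h1
  have := qq_lt
  norm_num at h1 this
  linarith

lemma qpow_lt (a : ℕ) : Real.exp (-cc * (a + 1 : ℕ)) ≤ 0.415 ^ (a + 1) := by
  have h2 : Real.exp (-cc * (a + 1 : ℕ)) = Real.exp (-cc * 1) ^ (a + 1) := by
    rw [← Real.exp_nat_mul]
    congr 1
    ring
  rw [h2]
  exact pow_le_pow_left₀ (Real.exp_pos _).le q1_lt.le _

/-- the norm of a term -/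
lemma norm_term (e : ℕ) (t n : ℤ) (k : ℕ) :
    ‖coef e t n * fr e n ^ k * cexp (0 * fr e n)‖ =
      Real.exp (-cc * (3 * ((n : ℝ) + (e : ℝ) / 2) ^ 2)) *
        (2 * Real.pi * |(n : ℝ) + (e : ℝ) / 2|) ^ k := by
  rw [zero_mul, Complex.exp_zero, mul_one, norm_mul, norm_pow, norm_coef]
  congr 2
  · unfold cc
    ring
  · have h1 : fr e n = ((2 * Real.pi * ((n : ℝ) + (e : ℝ) / 2) : ℝ) : ℂ) * I := by
      rw [fr]; push_cast; ring
    rw [h1, norm_mul, Complex.norm_I, mul_one, Complex.norm_real, Real.norm_eq_abs, abs_mul,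
      abs_of_pos (show (0 : ℝ) < 2 * Real.pi by have := Real.pi_pos; positivity)]

lemma w0_im : w0.im = Real.sqrt 3 / 3 := by
  have h : w0 = ((1 : ℝ) : ℂ) + ((Real.sqrt 3 / 3 : ℝ) : ℂ) * I := by
    rw [w0]
    apply Complex.ext
    · simp [om]
      norm_num
    · simp [om]
      ring
  rw [h]
  simp

lemma norm_term_w0 (e : ℕ) (t n : ℤ) :
    ‖coef e t n * fr e n ^ 0 * cexp (w0 * fr e n)‖ =
      Real.exp (-cc * (3 * ((n : ℝ) + (e : ℝ) / 2) ^ 2 + 4 * ((n : ℝ) + (e : ℝ) / 2))) := by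
  rw [pow_zero, mul_one, norm_mul, norm_coef, Complex.norm_exp, ← Real.exp_add]
  congr 1
  have h1 : w0 * fr e n = ((2 * Real.pi * ((n : ℝ) + (e : ℝ) / 2) : ℝ) : ℂ) * (I * w0) := by
    rw [fr]; push_cast; ring
  rw [h1, Complex.re_ofReal_mul, Complex.I_mul_re, w0_im]
  unfold cc
  ring

lemma term_bound {X b a : ℝ} (k : ℕ) (h : b + a * ((k : ℝ) + 1) ≤ X) :
    Real.exp (-cc * X) ≤ Real.exp (-cc * b) * Real.exp (-cc * a) ^ (k + 1) := by
  rw [← Real.exp_nat_mul, ← Real.exp_add]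
  apply Real.exp_le_exp.2
  have h1 := mul_le_mul_of_nonneg_left h cc_pos.le
  push_cast
  nlinarith

/-- the criterion for `w₀` -/
lemma ne_zero_w0 (e : ℕ) (t : ℤ) (n0 : ℤ) (b : ℝ) (a a' : ℕ)
    (hb : 3 * ((n0 : ℝ) + (e : ℝ) / 2) ^ 2 + 4 * ((n0 : ℝ) + (e : ℝ) / 2) = b)
    (h1 : ∀ k : ℕ, b + ((a + 1 : ℕ) : ℝ) * ((k : ℝ) + 1) ≤
      3 * (((n0 + ((k : ℤ) + 1) : ℤ) : ℝ) + (e : ℝ) / 2) ^ 2 +
        4 * (((n0 + ((k : ℤ) + 1) : ℤ) : ℝ) + (e : ℝ) / 2))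
    (h2 : ∀ k : ℕ, b + ((a' + 1 : ℕ) : ℝ) * ((k : ℝ) + 1) ≤
      3 * (((n0 + -((k : ℤ) + 1) : ℤ) : ℝ) + (e : ℝ) / 2) ^ 2 +
        4 * (((n0 + -((k : ℤ) + 1) : ℤ) : ℝ) + (e : ℝ) / 2))
    (h3 : (0.415 : ℝ) ^ (a + 1) / (1 - 0.415 ^ (a + 1)) +
      (0.415 : ℝ) ^ (a' + 1) / (1 - 0.415 ^ (a' + 1)) < 1) :
    J 0 e t w0 ≠ 0 := by
  have hlt : ∀ m : ℕ, (0.415 : ℝ) ^ (m + 1) < 1 := fun m =>
    pow_lt_one₀ (by norm_num) (by norm_num) (by omega)
  have hE : ∀ m : ℕ, Real.exp (-cc * (m + 1 : ℕ)) < 1 := fun m => (qpow_lt m).trans_lt (hlt m)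
  have hdiv : ∀ m : ℕ, Real.exp (-cc * (m + 1 : ℕ)) / (1 - Real.exp (-cc * (m + 1 : ℕ))) ≤
      (0.415 : ℝ) ^ (m + 1) / (1 - 0.415 ^ (m + 1)) := by
    intro m
    have h4 := qpow_lt m
    have h5 := hlt m
    have h6 := hE m
    exact div_le_div₀ (by positivity) h4 (by linarith) (by linarith)
  have hm := norm_sub_le (fun n : ℤ => coef e t n * fr e n ^ 0 * cexp (w0 * fr e n)) n0
    (summable_J 0 e t w0) (B := Real.exp (-cc * b)) (r := Real.exp (-cc * (a + 1 : ℕ)))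
    (s := Real.exp (-cc * (a' + 1 : ℕ))) (Real.exp_pos _).le (hE a) (Real.exp_pos _).le (hE a')
    (fun k => by rw [norm_term_w0]; exact term_bound k (h1 k))
    (fun k => by rw [norm_term_w0]; exact term_bound k (h2 k))
  intro h0
  rw [J] at h0
  rw [h0, zero_sub, norm_neg, norm_term_w0, hb, ← mul_add] at hm
  have hB := Real.exp_pos (-cc * b)
  have h7 : Real.exp (-cc * (a + 1 : ℕ)) / (1 - Real.exp (-cc * (a + 1 : ℕ))) +
      Real.exp (-cc * (a' + 1 : ℕ)) / (1 - Real.exp (-cc * (a' + 1 : ℕ))) < 1 :=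
    (add_le_add (hdiv a) (hdiv a')).trans_lt h3
  have h8 := mul_lt_mul_of_pos_left h7 hB
  rw [mul_one] at h8
  exact absurd (hm.trans_lt h8) (lt_irrefl _)

end NumAux

open NumAux

/-- (N4) -/
lemma J_000_w0_ne : J 0 0 0 w0 ≠ 0 := by
  refine ne_zero_w0 0 0 (-1) (-1) 0 4 ?_ ?_ ?_ ?_
  · norm_num
  · intro k
    have hk : (0 : ℝ) ≤ k := Nat.cast_nonneg k
    push_cast
    nlinarith
  · intro k
    have hk : (0 : ℝ) ≤ k := Nat.cast_nonneg k
    push_cast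
    nlinarith
  · norm_num

/-- (N5) -/
lemma J_011_w0_ne : J 0 1 1 w0 ≠ 0 := by
  refine ne_zero_w0 1 1 (-1) (-5 / 4) 3 1 ?_ ?_ ?_ ?_
  · norm_num
  · intro k
    have hk : (0 : ℝ) ≤ k := Nat.cast_nonneg k
    push_cast
    nlinarith
  · intro k
    have hk : (0 : ℝ) ≤ k := Nat.cast_nonneg k
    push_cast
    nlinarith
  · norm_num

namespace NumAux

lemma exp3 : Real.exp (-cc * 3) = qq := by
  rw [qq]; congr 1; ring

lemma J0_sub_one : ‖J 0 0 0 0 - 1‖ ≤ 2 * (qq / (1 - qq)) := by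
  have hq := qq_lt
  have hq0 := qq_pos
  have hm := norm_sub_le (fun n : ℤ => coef 0 0 n * fr 0 n ^ 0 * cexp (0 * fr 0 n)) 0
    (summable_J 0 0 0 0) (B := 1) (r := qq)
    (s := qq) hq0.le (by linarith) hq0.le (by linarith)
    (fun k => by
      rw [norm_term, pow_zero, mul_one]
      have h := term_bound (X := 3 * (((0 + ((k : ℤ) + 1) : ℤ) : ℝ) + ((0 : ℕ) : ℝ) / 2) ^ 2)
        (b := 0) (a := 3) k (by
          have hk : (0 : ℝ) ≤ k := Nat.cast_nonneg k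
          push_cast
          nlinarith)
      rw [mul_zero, Real.exp_zero, exp3] at h
      exact h)
    (fun k => by
      rw [norm_term, pow_zero, mul_one]
      have h := term_bound (X := 3 * (((0 + -((k : ℤ) + 1) : ℤ) : ℝ) + ((0 : ℕ) : ℝ) / 2) ^ 2)
        (b := 0) (a := 3) k (by
          have hk : (0 : ℝ) ≤ k := Nat.cast_nonneg k
          push_cast
          nlinarith)
      rw [mul_zero, Real.exp_zero, exp3] at h
      exact h)
  have h0 : coef 0 0 0 * fr 0 0 ^ 0 * cexp (0 * fr 0 0) = 1 := by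
    simp [coef]
  simp only [h0] at hm
  rw [J]
  linarith

end NumAux

/-- (N1) -/
lemma J_000_ne : J 0 0 0 0 ≠ 0 := by
  intro h
  have h1 := J0_sub_one
  rw [h, zero_sub, norm_neg, norm_one] at h1
  have hq := qq_lt
  have hq0 := qq_pos
  have h2 : qq / (1 - qq) < 1 / 13 := by
    rw [div_lt_div_iff₀ (by linarith) (by norm_num)]
    linarith
  linarith

namespace NumAux

lemma coef_symm (n : ℤ) : coef 1 1 (-(n + 1)) = -coef 1 1 n := by
  rw [coef, coef]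
  have h1 : (Real.pi * I * ((-(n + 1) : ℤ) : ℂ) * ((1 : ℤ) : ℂ) +
      Real.pi * I * om * (((-(n + 1) : ℤ) : ℂ) + ((1 : ℕ) : ℂ) / 2) ^ 2 : ℂ) =
      (Real.pi * I * (n : ℂ) * ((1 : ℤ) : ℂ) + Real.pi * I * om * ((n : ℂ) + ((1 : ℕ) : ℂ) / 2) ^ 2) +
        (-(Real.pi * I) + ((-n : ℤ) : ℂ) * (2 * Real.pi * I)) := by
    push_cast
    ring
  rw [h1, Complex.exp_add, Complex.exp_add (-(Real.pi * I)), Complex.exp_int_mul_two_pi_mul_I,
    Complex.exp_neg, Complex.exp_pi_mul_I]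
  norm_num

lemma fr_symm (n : ℤ) : fr 1 (-(n + 1)) = -fr 1 n := by
  rw [fr, fr]
  push_cast
  ring

end NumAux

/-- (N2) -/
lemma J_1110_ne : J 1 1 1 0 ≠ 0 := by
  set f : ℤ → ℂ := fun n => coef 1 1 n * fr 1 n ^ 1 * cexp (0 * fr 1 n) with hfdef
  have hf : Summable f := (summable_J 1 1 1 0).of_norm
  have hpos : Summable (fun n : ℕ => f (n : ℤ)) :=
    hf.comp_injective (i := fun n : ℕ => (n : ℤ)) Nat.cast_injective
  have hsym : ∀ n : ℤ, f (-(n + 1)) = f n := by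
    intro n
    simp only [hfdef]
    rw [coef_symm, fr_symm]
    simp
  have hneg : Summable (fun n : ℕ => f (-((n : ℤ) + 1))) := by
    simpa only [hsym] using hpos
  have h3 : ∑' n : ℤ, f n =
      ∑' n : ℕ, f (n : ℤ) + ∑' n : ℕ, f (-((n : ℤ) + 1)) :=
    tsum_of_nat_of_neg_add_one hpos hneg
  simp only [hsym] at h3
  have hq := qq_lt
  have hq0 := qq_pos
  have hpi := Real.pi_pos
  have hm := norm_sub_le_nat (fun n : ℕ => f (n : ℤ)) hpos
    (B := Real.exp (-cc * (3 / 4)) * Real.pi) (r := 3 * qq) (by positivity) (by linarith)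
    (fun k => by
      simp only [hfdef]
      rw [norm_term, pow_one]
      have hk : (0 : ℝ) ≤ k := Nat.cast_nonneg k
      have h := term_bound (X := 3 * ((((k + 1 : ℕ) : ℤ) : ℝ) + ((1 : ℕ) : ℝ) / 2) ^ 2)
        (b := 3 / 4) (a := 3) k (by
          push_cast
          nlinarith)
      rw [exp3] at h
      have h5 : |(((k + 1 : ℕ) : ℤ) : ℝ) + ((1 : ℕ) : ℝ) / 2| = ((k : ℝ) + 3 / 2) := by
        rw [abs_of_nonneg]
        · push_cast
          ring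
        · push_cast
          positivity
      rw [h5]
      have h6 : (2 * (k : ℝ) + 3) ≤ 3 ^ (k + 1) := by
        have h7 := one_add_mul_le_pow (show (-2 : ℝ) ≤ 2 by norm_num) (k + 1)
        push_cast at h7
        norm_num at h7
        linarith
      calc Real.exp (-cc * (3 * ((((k + 1 : ℕ) : ℤ) : ℝ) + ((1 : ℕ) : ℝ) / 2) ^ 2)) *
            (2 * Real.pi * ((k : ℝ) + 3 / 2))
          ≤ (Real.exp (-cc * (3 / 4)) * qq ^ (k + 1)) * (Real.pi * 3 ^ (k + 1)) := by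
            apply mul_le_mul h _ (by positivity) (by positivity)
            nlinarith
        _ = _ := by rw [mul_pow]; ring)
  have h0 : ‖f ((0 : ℕ) : ℤ)‖ = Real.exp (-cc * (3 / 4)) * Real.pi := by
    simp only [hfdef]
    rw [norm_term, pow_one]
    have h5 : |((((0 : ℕ) : ℤ) : ℝ)) + ((1 : ℕ) : ℝ) / 2| = 1 / 2 := by
      rw [abs_of_nonneg]
      · push_cast
        norm_num
      · push_cast
        norm_num
    rw [h5]
    congr 1
    · congr 1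
      push_cast
      norm_num
    · ring
  intro hJ
  have h8 : ∑' n : ℤ, f n = 0 := hJ
  rw [h8] at h3
  have h9 : ∑' n : ℕ, f (n : ℤ) = 0 := by
    have h10 : (2 : ℂ) * ∑' n : ℕ, f (n : ℤ) = 0 := by
      rw [two_mul]; exact h3.symm
    simpa using h10
  simp only [h9, zero_sub, norm_neg] at hm
  rw [h0] at hm
  have hB : 0 < Real.exp (-cc * (3 / 4)) * Real.pi := by positivity
  have h11 : 3 * qq / (1 - 3 * qq) < 1 := by
    rw [div_lt_one (by linarith)]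
    linarith
  have h12 := mul_lt_mul_of_pos_left h11 hB
  rw [mul_one] at h12
  exact absurd (hm.trans_lt h12) (lt_irrefl _)

namespace NumAux

lemma coef_symm0 (n : ℤ) : coef 0 0 (-n) = coef 0 0 n := by
  rw [coef, coef]
  congr 1
  push_cast
  ring

lemma fr_symm0 (n : ℤ) : fr 0 (-n) = -fr 0 n := by
  rw [fr, fr]
  push_cast
  ring

lemma exp9 : Real.exp (-cc * 9) = qq ^ 3 := by
  rw [qq, ← Real.exp_nat_mul]; congr 1; push_cast; ring

lemma qq3_lt : 4 * qq ^ 3 < 1 / 500 := by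
  have h := pow_lt_pow_left₀ qq_lt qq_pos.le (show (3 : ℕ) ≠ 0 by norm_num)
  norm_num at h
  linarith

lemma J2_lower : 8 * Real.pi ^ 2 * qq * (1 - 4 * qq ^ 3 / (1 - 4 * qq ^ 3)) ≤ ‖J 2 0 0 0‖ := by
  set f : ℤ → ℂ := fun n => coef 0 0 n * fr 0 n ^ 2 * cexp (0 * fr 0 n) with hfdef
  have hf : Summable f := (summable_J 2 0 0 0).of_norm
  have hpos : Summable (fun n : ℕ => f (n : ℤ)) :=
    hf.comp_injective (i := fun n : ℕ => (n : ℤ)) Nat.cast_injective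
  have hsym : ∀ n : ℤ, f (-n) = f n := by
    intro n
    simp only [hfdef]
    rw [coef_symm0, fr_symm0]
    simp
  have hpos1 : Summable (fun n : ℕ => f ((n : ℤ) + 1)) :=
    hf.comp_injective (i := fun n : ℕ => ((n : ℤ) + 1)) (fun a b h => by
      simp only at h
      omega)
  have hneg : Summable (fun n : ℕ => f (-((n : ℤ) + 1))) := by
    simpa only [hsym] using hpos1
  have h3 : ∑' n : ℤ, f n =
      ∑' n : ℕ, f (n : ℤ) + ∑' n : ℕ, f (-((n : ℤ) + 1)) :=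
    tsum_of_nat_of_neg_add_one hpos hneg
  have hf0 : f 0 = 0 := by
    simp [hfdef, fr]
  have h4 : ∑' n : ℕ, f (n : ℤ) = ∑' n : ℕ, f ((n : ℤ) + 1) := by
    rw [hpos.tsum_eq_zero_add]
    simp [hf0]
  simp only [hsym] at h3
  rw [h4, ← two_mul] at h3
  have hq := qq_lt
  have hq0 := qq_pos
  have hpi := Real.pi_pos
  have hm := norm_sub_le_nat (fun n : ℕ => f ((n : ℤ) + 1)) hpos1
    (B := 4 * Real.pi ^ 2 * qq) (r := 4 * qq ^ 3) (by positivity) (by linarith [qq3_lt])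
    (fun k => by
      simp only [hfdef]
      rw [norm_term]
      have hk : (0 : ℝ) ≤ k := Nat.cast_nonneg k
      have h := term_bound (X := 3 * (((((k + 1 : ℕ) : ℤ) + 1 : ℤ) : ℝ) + ((0 : ℕ) : ℝ) / 2) ^ 2)
        (b := 3) (a := 9) k (by
          push_cast
          nlinarith)
      rw [exp3, exp9] at h
      have h5 : |((((k + 1 : ℕ) : ℤ) + 1 : ℤ) : ℝ) + ((0 : ℕ) : ℝ) / 2| = ((k : ℝ) + 2) := by
        rw [abs_of_nonneg]
        · push_cast
          ring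
        · push_cast
          positivity
      rw [h5]
      have h6 : (k : ℝ) + 2 ≤ 2 ^ (k + 1) := by
        have h7 := one_add_mul_le_pow (show (-2 : ℝ) ≤ 1 by norm_num) (k + 1)
        push_cast at h7
        norm_num at h7
        linarith
      have h8 : ((k : ℝ) + 2) ^ 2 ≤ 4 ^ (k + 1) := by
        calc ((k : ℝ) + 2) ^ 2 ≤ (2 ^ (k + 1)) ^ 2 := pow_le_pow_left₀ (by linarith) h6 2
          _ = 4 ^ (k + 1) := by rw [← pow_mul, mul_comm, pow_mul]; norm_num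
      calc Real.exp (-cc * (3 * (((((k + 1 : ℕ) : ℤ) + 1 : ℤ) : ℝ) + ((0 : ℕ) : ℝ) / 2) ^ 2)) *
            (2 * Real.pi * ((k : ℝ) + 2)) ^ 2
          ≤ (qq * (qq ^ 3) ^ (k + 1)) * (4 * Real.pi ^ 2 * 4 ^ (k + 1)) := by
            apply mul_le_mul h _ (by positivity) (by positivity)
            have h9 : (2 * Real.pi * ((k : ℝ) + 2)) ^ 2 = 4 * Real.pi ^ 2 * ((k : ℝ) + 2) ^ 2 := by
              ring
            rw [h9]
            exact mul_le_mul_of_nonneg_left h8 (by positivity)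
        _ = _ := by rw [mul_pow]; ring)
  have h0 : ‖f (((0 : ℕ) : ℤ) + 1)‖ = 4 * Real.pi ^ 2 * qq := by
    simp only [hfdef]
    rw [norm_term]
    have h5 : |((((0 : ℕ) : ℤ) + 1 : ℤ) : ℝ) + ((0 : ℕ) : ℝ) / 2| = 1 := by
      push_cast
      norm_num
    rw [h5]
    have h6 : (-cc * (3 * (((((0 : ℕ) : ℤ) + 1 : ℤ) : ℝ) + ((0 : ℕ) : ℝ) / 2) ^ 2)) = -cc * 3 := by
      push_cast
      ring
    rw [h6, exp3]
    ring
  have hJ : J 2 0 0 0 = 2 * ∑' n : ℕ, f ((n : ℤ) + 1) := h3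
  rw [hJ, norm_mul]
  have h12 : ‖f (((0 : ℕ) : ℤ) + 1)‖ - ‖∑' n : ℕ, f ((n : ℤ) + 1) - f (((0 : ℕ) : ℤ) + 1)‖ ≤
      ‖∑' n : ℕ, f ((n : ℤ) + 1)‖ := by
    have h13 := norm_sub_norm_le (f (((0 : ℕ) : ℤ) + 1))
      (f (((0 : ℕ) : ℤ) + 1) - ∑' n : ℕ, f ((n : ℤ) + 1))
    rw [sub_sub_cancel, norm_sub_rev (f (((0 : ℕ) : ℤ) + 1))] at h13
    exact h13
  rw [h0] at h12
  have h14 : ‖(2 : ℂ)‖ = 2 := by norm_num
  rw [h14]
  have h15 : 8 * Real.pi ^ 2 * qq * (1 - 4 * qq ^ 3 / (1 - 4 * qq ^ 3)) =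
      2 * (4 * Real.pi ^ 2 * qq - 4 * Real.pi ^ 2 * qq * (4 * qq ^ 3 / (1 - 4 * qq ^ 3))) := by ring
  rw [h15]
  have h16 : 4 * Real.pi ^ 2 * qq - 4 * Real.pi ^ 2 * qq * (4 * qq ^ 3 / (1 - 4 * qq ^ 3)) ≤
      ‖∑' n : ℕ, f ((n : ℤ) + 1)‖ := (sub_le_sub_left hm _).trans h12
  exact mul_le_mul_of_nonneg_left h16 (by norm_num)

end NumAux

/-- (N3) -/
lemma J_2000_ne (gam : ℂ) (hg : ‖gam‖ = 2 * Real.pi / Real.sqrt 3) :
    J 2 0 0 0 ≠ gam * J 0 0 0 0 := by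
  intro h
  have h1 := J2_lower
  rw [h, norm_mul, hg] at h1
  have hq := qq_lt
  have hq0 := qq_pos
  have hq1 := lt_qq
  have h2 : qq / (1 - qq) < 1 / 13 := by
    rw [div_lt_div_iff₀ (by linarith) (by norm_num)]
    linarith
  have h3 : ‖J 0 0 0 0‖ ≤ 15 / 13 := by
    have h4 := norm_le_norm_add_norm_sub' (J 0 0 0 0) 1
    have h5 := J0_sub_one
    rw [norm_one] at h4
    linarith
  have h6 : 4 * qq ^ 3 / (1 - 4 * qq ^ 3) < 1 / 400 := by
    have h7 := qq3_lt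
    rw [div_lt_div_iff₀ (by linarith) (by norm_num)]
    linarith
  have hpi := Real.pi_pos
  have hpi3 := Real.pi_gt_three
  have hs := sqrt3_pos
  have h8 : 2 * Real.pi / Real.sqrt 3 ≤ 2 * Real.pi * (1.7322 / 3) := by
    rw [div_eq_mul_inv]
    apply mul_le_mul_of_nonneg_left _ (by positivity)
    rw [inv_le_comm₀ hs (by norm_num)]
    have := lt_sq3
    norm_num at this ⊢
    linarith
  have h9 : 2 * Real.pi / Real.sqrt 3 * ‖J 0 0 0 0‖ ≤ 2 * Real.pi * (1.7322 / 3) * (15 / 13) :=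
    mul_le_mul h8 h3 (norm_nonneg _) (by positivity)
  have h10 : 8 * Real.pi ^ 2 * (1 / 16) * (399 / 400) ≤
      8 * Real.pi ^ 2 * qq * (1 - 4 * qq ^ 3 / (1 - 4 * qq ^ 3)) := by
    apply mul_le_mul _ (by linarith) (by norm_num) (by positivity)
    exact mul_le_mul_of_nonneg_left hq1.le (by positivity)
  have h11 : 8 * Real.pi ^ 2 * (1 / 16) * (399 / 400) ≤ 2 * Real.pi * (1.7322 / 3) * (15 / 13) :=
    h10.trans (h1.trans h9)
  nlinarith [mul_pos hpi (sub_pos.2 hpi3)]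

end Pool.Agent.H36.G00
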