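import Pool.Agent.H36.G00.JacRel
import Pool.Agent.H36.G00.Num

set_option autoImplicit false

/-! # Values and second derivatives of the Jacobi theta functions at `ω` -/

namespace Pool.Agent.H36.G00

open Complex Matrix

lemma second_deriv (F G : ℕ → ℂ → ℂ) (hF : ∀ k w, HasDerivAt (F k) (F (k + 1) w) w)
    (hG : ∀ k w, HasDerivAt (G k) (G (k + 1) w) w) (κ α β : ℂ)
    (h : ∀ w, F 0 w = κ * cexp (α * w ^ 2) * G 0 (β * w)) :
    F 2 0 = κ * (2 * α * G 0 0 + β ^ 2 * G 2 0) := by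
  have hb : ∀ w : ℂ, HasDerivAt (fun w : ℂ => β * w) β w := by
    intro w
    simpa using (hasDerivAt_id w).const_mul β
  have hG' : ∀ k w, HasDerivAt (fun w => G k (β * w)) (G (k + 1) (β * w) * β) w := by
    intro k w
    exact (hG k (β * w)).comp w (hb w)
  have he : ∀ w : ℂ, HasDerivAt (fun w : ℂ => cexp (α * w ^ 2)) (cexp (α * w ^ 2) * (2 * α * w)) w := by
    intro w
    have h1 : HasDerivAt (fun w : ℂ => α * w ^ 2) (α * (2 * w)) w := by
      simpa using (hasDerivAt_pow 2 w).const_mul α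
    refine h1.cexp.congr_deriv ?_
    ring
  have h1 : ∀ w, F 1 w = κ * (cexp (α * w ^ 2) * (2 * α * w)) * G 0 (β * w) +
      κ * cexp (α * w ^ 2) * (G 1 (β * w) * β) := by
    intro w
    have h2 := ((he w).const_mul κ).mul (hG' 0 w)
    have h3 : F 0 = fun w => κ * cexp (α * w ^ 2) * G 0 (β * w) := funext h
    have h4 := hF 0 w
    rw [h3] at h4
    exact h4.unique h2
  have h2 : HasDerivAt (F 1) (F 2 0) 0 := hF 1 0
  have h3 : F 1 = fun w => κ * (cexp (α * w ^ 2) * (2 * α * w)) * G 0 (β * w) +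
      κ * cexp (α * w ^ 2) * (G 1 (β * w) * β) := funext h1
  rw [h3] at h2
  have hl : HasDerivAt (fun w : ℂ => 2 * α * w) (2 * α) 0 := by
    simpa using (hasDerivAt_id (0 : ℂ)).const_mul (2 * α)
  have h4 := (((((he 0).mul hl).const_mul κ).mul (hG' 0 0)).add
    (((he 0).const_mul κ).mul ((hG' 1 0).mul_const β)))
  have h5 := h2.unique h4
  rw [h5]
  simp
  ring

lemma om_eq_exp : om = cexp (2 * Real.pi * I / 3) := by
  have h1 : (2 * Real.pi * I / 3 : ℂ) = ((2 * Real.pi / 3 : ℝ) : ℂ) * I := by push_cast; ring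
  rw [h1, Complex.exp_mul_I, ← Complex.ofReal_cos, ← Complex.ofReal_sin]
  have h2 : (2 * Real.pi / 3 : ℝ) = Real.pi - Real.pi / 3 := by ring
  rw [h2, Real.cos_pi_sub, Real.sin_pi_sub, Real.cos_pi_div_three, Real.sin_pi_div_three]
  apply Complex.ext
  · simp [om]; norm_num
  · simp [om]

/-- parity -/
lemma J_neg (k e : ℕ) (t : ℤ) (w : ℂ) :
    J k e t (-w) = (-1) ^ k * cexp (-(Real.pi * I * e * t)) * J k e t w := by
  rw [J, J, ← (Equiv.subLeft (-(e : ℤ))).tsum_eq, ← tsum_mul_left]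
  apply tsum_congr
  intro n
  have h1 : ((Equiv.subLeft (-(e : ℤ)) n : ℤ) : ℂ) = -(e : ℂ) - n := by
    simp [Equiv.subLeft]
  have hfr : fr e (Equiv.subLeft (-(e : ℤ)) n) = -fr e n := by
    rw [fr, fr, h1]; ring
  have hco : coef e t (Equiv.subLeft (-(e : ℤ)) n) = cexp (-(Real.pi * I * e * t)) * coef e t n := by
    rw [coef, coef, h1, ← Complex.exp_add, Complex.exp_eq_exp_iff_exists_int]
    refine ⟨-(n * t), ?_⟩
    push_cast
    ring
  rw [hfr, hco, neg_pow]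
  have : -w * -fr e n = w * fr e n := by ring
  rw [this]
  ring

lemma J_odd_zero (k e : ℕ) (t : ℤ) (h : (-1 : ℂ) ^ k * cexp (-(Real.pi * I * e * t)) = -1) :
    J k e t 0 = 0 := by
  have h1 := J_neg k e t 0
  rw [neg_zero, h] at h1
  have h2 : (2 : ℂ) * J k e t 0 = 0 := by linear_combination h1
  simpa using h2

lemma J_1_00 : J 1 0 0 0 = 0 := J_odd_zero 1 0 0 (by simp)
lemma J_1_01 : J 1 0 1 0 = 0 := J_odd_zero 1 0 1 (by simp)
lemma J_1_10 : J 1 1 0 0 = 0 := J_odd_zero 1 1 0 (by simp)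
lemma exp_neg_pi : cexp (-(Real.pi * I)) = -1 := by
  rw [Complex.exp_neg, Complex.exp_pi_mul_I]; norm_num
lemma J_0_11 : J 0 1 1 0 = 0 := J_odd_zero 0 1 1 (by simp [Complex.exp_neg])
lemma J_2_11 : J 2 1 1 0 = 0 := J_odd_zero 2 1 1 (by simp [Complex.exp_neg])

/-- periodicity in the characteristic -/
lemma J_add_two (k e : ℕ) (t m : ℤ) (w : ℂ) : J k e (t + 2 * m) w = J k e t w := by
  rw [J, J]
  apply tsum_congr
  intro n
  have : coef e (t + 2 * m) n = coef e t n := by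
    rw [coef, coef, Complex.exp_eq_exp_iff_exists_int]
    refine ⟨n * m, ?_⟩
    push_cast
    ring
  rw [this]

/-- quasi-periodicity -/
lemma J_shift (e : ℕ) (t : ℤ) (w : ℂ) : J 0 e t (w - 2 - 2 * om) =
    cexp (-(4 * Real.pi * I * om) + 4 * Real.pi * I * w) * J 0 e t w := by
  rw [J, J, ← tsum_mul_left, ← (Equiv.addRight (2 : ℤ)).tsum_eq]
  apply tsum_congr
  intro n
  simp only [Equiv.coe_addRight, pow_zero, mul_one]
  rw [coef, coef, fr, fr, ← Complex.exp_add, ← Complex.exp_add, ← Complex.exp_add,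
    Complex.exp_eq_exp_iff_exists_int]
  refine ⟨t - 2 * (n + 2) - e, ?_⟩
  push_cast
  ring

lemma w0_rel : om ^ 2 * w0 = w0 - 2 - 2 * om := by
  rw [w0]
  linear_combination (4 / 3 : ℂ) * om_sq + (2 / 3) * om_cube

lemma J_w0 (κ : ℂ) (e e' : ℕ) (t t' : ℤ)
    (h : ∀ w, J 0 e t w = κ * cexp (-(Real.pi * I * om ^ 2 * w ^ 2)) * J 0 e' t' (om ^ 2 * w)) :
    J 0 e t w0 = κ * om ^ 2 * J 0 e' t' w0 := by
  rw [h, w0_rel, J_shift]
  have h1 : cexp (-(Real.pi * I * om ^ 2 * w0 ^ 2)) *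
      cexp (-(4 * Real.pi * I * om) + 4 * Real.pi * I * w0) = om ^ 2 := by
    have h2 : om ^ 2 = cexp (2 * (2 * Real.pi * I / 3)) := by
      rw [om_eq_exp, ← Complex.exp_nat_mul]
      push_cast
      rfl
    have h3 : -(Real.pi * I * om ^ 2 * w0 ^ 2) + (-(4 * Real.pi * I * om) + 4 * Real.pi * I * w0) =
        2 * (2 * Real.pi * I / 3) + (2 : ℤ) * (2 * Real.pi * I) := by
      rw [w0]
      push_cast
      linear_combination (-(Real.pi * I) * (4 * om ^ 2 + 12 * om) / 9) * om_sq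
    rw [← Complex.exp_add, h3, Complex.exp_add, Complex.exp_int_mul_two_pi_mul_I, mul_one, ← h2]
  calc κ * cexp (-(Real.pi * I * om ^ 2 * w0 ^ 2)) *
      (cexp (-(4 * Real.pi * I * om) + 4 * Real.pi * I * w0) * J 0 e' t' w0)
      = κ * (cexp (-(Real.pi * I * om ^ 2 * w0 ^ 2)) *
      cexp (-(4 * Real.pi * I * om) + 4 * Real.pi * I * w0)) * J 0 e' t' w0 := by ring
    _ = _ := by rw [h1]

/-- the fixed point of the transformation of logarithmic second derivatives -/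
noncomputable def gam : ℂ := 2 * (-(Real.pi * I * om ^ 2)) / (1 - om)

lemma one_sub_om_ne : (1 : ℂ) - om ≠ 0 := by
  intro h
  have := congrArg Complex.re h
  simp [om] at this
  norm_num at this

lemma gam_rel : gam = 2 * (-(Real.pi * I * om ^ 2)) + om * gam := by
  have h := one_sub_om_ne
  rw [gam]
  field_simp
  ring

lemma J2_rel (κ : ℂ) (e e' : ℕ) (t t' : ℤ)
    (h : ∀ w, J 0 e t w = κ * cexp (-(Real.pi * I * om ^ 2 * w ^ 2)) * J 0 e' t' (om ^ 2 * w)) :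
    J 2 e t 0 = κ * (2 * (-(Real.pi * I * om ^ 2)) * J 0 e' t' 0 + om * J 2 e' t' 0) := by
  have h1 := second_deriv (fun k => J k e t) (fun k => J k e' t')
    (fun k w => hasDerivAt_J k e t w) (fun k w => hasDerivAt_J k e' t' w)
    κ (-(Real.pi * I * om ^ 2)) (om ^ 2) (fun w => by
      rw [h w]
      congr 3
      ring)
  rw [h1]
  linear_combination (κ * J 2 e' t' 0 * om) * om_cube

lemma J0_rel (κ : ℂ) (e e' : ℕ) (t t' : ℤ)
    (h : ∀ w, J 0 e t w = κ * cexp (-(Real.pi * I * om ^ 2 * w ^ 2)) * J 0 e' t' (om ^ 2 * w)) :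
    J 0 e t 0 = κ * J 0 e' t' 0 := by
  rw [h]
  simp

/-- the three even values and their relations -/
theorem vals (h0 : J 0 0 0 0 ≠ 0) : ∃ u r : ℂ,
    u = J 2 0 0 0 / J 0 0 0 0 - gam ∧ r = J 0 0 0 w0 / J 0 0 0 0 ∧
    J 0 0 1 0 ≠ 0 ∧ J 0 1 0 0 ≠ 0 ∧
    J 2 0 0 0 = J 0 0 0 0 * (gam + u) ∧ J 2 0 1 0 = J 0 0 1 0 * (gam + om ^ 2 * u) ∧
    J 2 1 0 0 = J 0 1 0 0 * (gam + om * u) ∧
    J 0 0 0 w0 = J 0 0 0 0 * r ∧ J 0 0 1 w0 = J 0 0 1 0 * (om * r) ∧
    J 0 1 0 w0 = J 0 1 0 0 * (om ^ 2 * r) := by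
  have a0 := J0_rel KK 0 0 0 1 rel00
  have a1 := J0_rel (KK * cexp (Real.pi * I / 4)) 0 1 1 0 rel01
  have b0 := J2_rel KK 0 0 0 1 rel00
  have b1 := J2_rel (KK * cexp (Real.pi * I / 4)) 0 1 1 0 rel01
  have c0 := J_w0 KK 0 0 0 1 rel00
  have c1 := J_w0 (KK * cexp (Real.pi * I / 4)) 0 1 1 0 rel01
  have hK := KK_ne_zero
  have hK' : KK * cexp (Real.pi * I / 4) ≠ 0 := mul_ne_zero hK (Complex.exp_ne_zero _)
  set κ := KK * cexp (Real.pi * I / 4) with hκ
  have h1 : J 0 0 1 0 ≠ 0 := by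
    intro h
    apply h0
    rw [a0, h, mul_zero]
  have h2 : J 0 1 0 0 ≠ 0 := by
    intro h
    apply h1
    rw [a1, h, mul_zero]
  have ho := om_cube
  have hom := om_ne_zero
  have hg := gam_rel
  set u := J 2 0 0 0 / J 0 0 0 0 - gam with hu
  set r := J 0 0 0 w0 / J 0 0 0 0 with hr
  have e1 : J 2 0 0 0 = J 0 0 0 0 * (gam + u) := by
    rw [hu]
    field_simp
    ring
  have e2 : J 0 0 0 w0 = J 0 0 0 0 * r := by
    rw [hr]
    field_simp
  have e3 : J 2 0 1 0 = J 0 0 1 0 * (gam + om ^ 2 * u) := by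
    have h3 : KK * om * J 2 0 1 0 = KK * om * (J 0 0 1 0 * (gam + om ^ 2 * u)) := by
      rw [a0] at e1
      linear_combination e1 - b0 - KK * J 0 0 1 0 * u * ho + KK * J 0 0 1 0 * hg
    exact mul_left_cancel₀ (mul_ne_zero hK hom) h3
  have e4 : J 2 1 0 0 = J 0 1 0 0 * (gam + om * u) := by
    have h3 : κ * om * J 2 1 0 0 = κ * om * (J 0 1 0 0 * (gam + om * u)) := by
      rw [a1] at e3
      linear_combination e3 - b1 + κ * J 0 1 0 0 * hg
    exact mul_left_cancel₀ (mul_ne_zero hK' hom) h3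
  have e5 : J 0 0 1 w0 = J 0 0 1 0 * (om * r) := by
    have h3 : KK * om ^ 2 * J 0 0 1 w0 = KK * om ^ 2 * (J 0 0 1 0 * (om * r)) := by
      rw [a0] at e2
      linear_combination e2 - c0 - KK * J 0 0 1 0 * r * ho
    exact mul_left_cancel₀ (mul_ne_zero hK (pow_ne_zero 2 hom)) h3
  have e6 : J 0 1 0 w0 = J 0 1 0 0 * (om ^ 2 * r) := by
    have h3 : κ * om ^ 2 * J 0 1 0 w0 = κ * om ^ 2 * (J 0 1 0 0 * (om ^ 2 * r)) := by
      rw [a1] at e5
      linear_combination e5 - c1 - κ * J 0 1 0 0 * om * r * ho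
    exact mul_left_cancel₀ (mul_ne_zero hK' (pow_ne_zero 2 hom)) h3
  exact ⟨u, r, hu, hr, h1, h2, e1, e3, e4, e2, e5, e6⟩

end Pool.Agent.H36.G00
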