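import Pool.Agent.H36.G00.StarUn
import Pool.Agent.H36.G00.Indec

set_option autoImplicit false

/-! # Assembly -/

namespace Pool.Agent.H36.G00

open Complex Matrix

lemma norm_one_sub_om : ‖(1 : ℂ) - om‖ = Real.sqrt 3 := by
  have h3 : (Real.sqrt 3) ^ 2 = 3 := Real.sq_sqrt (by norm_num)
  rw [Complex.norm_def]
  congr 1
  rw [Complex.normSq_apply]
  simp [om]
  nlinarith

lemma norm_om : ‖om‖ = 1 := by
  have h3 : (Real.sqrt 3) ^ 2 = 3 := Real.sq_sqrt (by norm_num)
  rw [Complex.norm_def, Complex.normSq_apply]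
  rw [show om.re * om.re + om.im * om.im = 1 by simp [om]; nlinarith]
  exact Real.sqrt_one

lemma norm_gam : ‖gam‖ = 2 * Real.pi / Real.sqrt 3 := by
  rw [gam, norm_div, norm_one_sub_om, norm_mul, norm_neg, norm_mul, norm_mul, norm_pow, norm_om,
    Complex.norm_I, Complex.norm_real, Real.norm_eq_abs, abs_of_pos Real.pi_pos]
  norm_num

lemma uu_ne : uu ≠ 0 := by
  intro h
  have h1 := J_000_ne
  apply J_2000_ne gam norm_gam
  rw [uu, sub_eq_zero, div_eq_iff h1] at h
  exact h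

lemma rr_ne : rr ≠ 0 := div_ne_zero J_000_w0_ne J_000_ne

lemma om_ne_one : om ≠ 1 := by
  intro h
  exact one_sub_om_ne (by rw [h, sub_self])

lemma z0_not_mem : z0 ∉ lattice tau0 := by
  rintro ⟨m, n, h⟩
  have h0 := congrArg Complex.im (congrFun h 0)
  have h1 : (z0 0).im = Real.sqrt 3 / 6 := by
    simp only [z0, true_or, if_true]
    rw [w0]
    have : ((4 + 2 * om) / 3 / 2 : ℂ) = ((1 / 3 : ℝ) : ℂ) * (2 + om) := by push_cast; ring
    rw [this, Complex.im_ofReal_mul, Complex.add_im, om_im]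
    simp
    ring
  have h2 : (pt tau0 m n 0).im = (n 0 : ℝ) * Real.sqrt 3 / 4 := by
    unfold pt
    simp only [Pi.add_apply, mulVec, dotProduct, Complex.add_im, Complex.im_sum]
    simp only [Fin.sum_univ_six, Complex.mul_im, tau0_im, Complex.intCast_im, Complex.intCast_re]
    simp
    ring
  rw [h1, h2] at h0
  have h3 := sqrt3_pos
  have h4 : (3 : ℝ) * (n 0 : ℝ) = 2 := by
    field_simp at h0
    nlinarith
  have h5 : (3 : ℤ) * n 0 = 2 := by exact_mod_cast h4
  omega

theorem star_z0 : Star tau0 z0 l0 L0 := star_exists J_000_ne uu_ne J_1110_ne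

theorem det_z0 (l : ℂ) (L : Matrix (Fin 6) (Fin 6) ℂ) (hsym : L.IsSymm) (h : Star tau0 z0 l L) :
    L.det ≠ 0 :=
  star_det J_000_ne uu_ne rr_ne J_1110_ne J_011_w0_ne hsym h

end Pool.Agent.H36.G00
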