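import Pool.Agent.H36.G00.Indec

set_option autoImplicit false

/-! # 960 automorphisms of the ppav of `tau0` -/

namespace Pool.Agent.H36.G00

open Complex Matrix

/-- the lattice in the coordinates `2 z = a + ω b`, `a = S b (mod 2)` -/
lemma lat_iff (z : Fin 6 → ℂ) : z ∈ lattice tau0 ↔ ∃ a b : Fin 6 → ℤ,
    (∀ i, 2 * z i = a i + om * b i) ∧ ∀ i, (2 : ℤ) ∣ a i - ∑ j, Sm i j * b j := by
  constructor
  · rintro ⟨m, n, rfl⟩
    refine ⟨fun i => 2 * m i + ∑ j, Sm i j * n j, n, fun i => ?_, fun i => ?_⟩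
    · rw [pt_apply]
      push_cast
      ring
    · exact ⟨m i, by ring⟩
  · rintro ⟨a, b, h1, h2⟩
    choose m hm using h2
    refine ⟨m, b, ?_⟩
    ext i
    rw [pt_apply]
    have e1 := h1 i
    have e2 : ((a i : ℤ) : ℂ) = 2 * m i + (∑ j, Sm i j * b j : ℤ) := by
      have : a i = 2 * m i + ∑ j, Sm i j * b j := by linarith [hm i]
      exact_mod_cast this
    rw [e2] at e1
    linear_combination e1 / 2

lemma pz_im (v : ZZ) (i : Fin 6) : (pz v i).im = Real.sqrt 3 / 4 * (v.2 i : ℝ) := by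
  rw [pz, pt_apply]
  simp [om]
  left
  ring

lemma pz_re (v : ZZ) (i : Fin 6) :
    (pz v i).re = (v.1 i : ℝ) - (v.2 i : ℝ) / 4 + (∑ j, Sm i j * v.2 j : ℤ) / 2 := by
  rw [pz, pt_apply]
  have : (((∑ j, Sm i j * v.2 j : ℤ) : ℂ) / 2) = (((∑ j, Sm i j * v.2 j : ℤ) : ℝ) / 2 : ℝ) := by
    push_cast
    ring
  rw [this, Complex.add_re, Complex.add_re, Complex.ofReal_re]
  simp [om]
  ring

/-- the form `E` by the Hermitian form -/
lemma EE_herm (v w : ZZ) :
    (∑ i, pz v i * (starRingEnd ℂ) (pz w i)).im = Real.sqrt 3 / 4 * (EE v w : ℤ) := by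
  rw [Complex.im_sum]
  have h : ∀ i, (pz v i * (starRingEnd ℂ) (pz w i)).im
      = Real.sqrt 3 / 4 * ((v.2 i : ℝ) * ((w.1 i : ℝ) - (w.2 i : ℝ) / 4 +
        (∑ j, Sm i j * w.2 j : ℤ) / 2) - ((v.1 i : ℝ) - (v.2 i : ℝ) / 4 +
        (∑ j, Sm i j * v.2 j : ℤ) / 2) * (w.2 i : ℝ)) := by
    intro i
    rw [Complex.mul_im, Complex.conj_re, Complex.conj_im, pz_im, pz_im, pz_re, pz_re]
    ring
  simp only [h]
  rw [← Finset.mul_sum]
  congr 1
  obtain ⟨m, n⟩ := v
  obtain ⟨m', n'⟩ := w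
  simp only [EE, dotProduct, Fin.sum_univ_six, Sm]
  simp
  ring

/-- the monomial map -/
noncomputable def mono (c : Fin 6 → ℂ) (hc : ∀ i, c i ≠ 0) (σ : Equiv.Perm (Fin 6)) :
    (Fin 6 → ℂ) ≃ₗ[ℂ] (Fin 6 → ℂ) where
  toFun z := fun i => c i * z (σ i)
  invFun z := fun i => (c (σ.symm i))⁻¹ * z (σ.symm i)
  map_add' x y := by
    ext i
    simp [mul_add]
  map_smul' r x := by
    ext i
    simp
    ring
  left_inv z := by
    ext i
    simp [hc]
  right_inv z := by
    ext i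
    simp [hc]

lemma mono_apply (c : Fin 6 → ℂ) (hc : ∀ i, c i ≠ 0) (σ : Equiv.Perm (Fin 6)) (z : Fin 6 → ℂ)
    (i : Fin 6) : mono c hc σ z i = c i * z (σ i) := rfl

/-- a monomial unitary map which preserves the lattice is an automorphism -/
lemma iso_of_mono (c : Fin 6 → ℂ) (hc : ∀ i, c i ≠ 0) (σ : Equiv.Perm (Fin 6))
    (hn : ∀ i, c i * (starRingEnd ℂ) (c i) = 1)
    (hl : ∀ z, z ∈ lattice tau0 ↔ mono c hc σ z ∈ lattice tau0) :
    IsIso tau0 tau0 (mono c hc σ) := by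
  refine ⟨hl, ?_⟩
  intro m n m' n' M N M' N' h1 h2
  have e1 := EE_herm (m, n) (m', n')
  have e2 := EE_herm (M, N) (M', N')
  have e3 : ∑ i, pz (M, N) i * (starRingEnd ℂ) (pz (M', N') i)
      = ∑ i, pz (m, n) i * (starRingEnd ℂ) (pz (m', n') i) := by
    have h1' : pz (M, N) = mono c hc σ (pz (m, n)) := h1.symm
    have h2' : pz (M', N') = mono c hc σ (pz (m', n')) := h2.symm
    rw [h1', h2']
    rw [← Equiv.sum_comp σ (fun i => pz (m, n) i * (starRingEnd ℂ) (pz (m', n') i))]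
    apply Finset.sum_congr rfl
    intro i _
    rw [mono_apply, mono_apply, map_mul]
    linear_combination (pz (m, n) (σ i) * (starRingEnd ℂ) (pz (m', n') (σ i))) * hn i
  rw [e3, e1] at e2
  have h3 : (Real.sqrt 3 / 4) ≠ 0 := by positivity
  have h4 := mul_left_cancel₀ h3 e2
  have h5 : EE (m, n) (m', n') = EE (M, N) (M', N') := by exact_mod_cast h4
  exact h5.symm

/-- the signs -/
def sg (t : Fin 6 → Bool) (i : Fin 6) : ℤ := if t i then -1 else 1

lemma sg_sq (t : Fin 6 → Bool) (i : Fin 6) : sg t i * sg t i = 1 := by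
  unfold sg
  split_ifs <;> norm_num

/-- the rotation of the rim -/
def rim : Equiv.Perm (Fin 6) where
  toFun := ![0, 2, 3, 4, 5, 1]
  invFun := ![0, 5, 1, 2, 3, 4]
  left_inv := by decide
  right_inv := by decide

lemma Sm_rim (k : Fin 5) (i j : Fin 6) : Sm ((rim ^ (k : ℕ)) i) ((rim ^ (k : ℕ)) j) = Sm i j := by
  have h1 : ∀ i j, Sm (rim i) (rim j) = Sm i j := by
    intro i j
    fin_cases i <;> fin_cases j <;> rfl
  have h2 : ∀ (k : ℕ) (i j : Fin 6), Sm ((rim ^ k) i) ((rim ^ k) j) = Sm i j := by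
    intro k
    induction k with
    | zero => intro i j; simp
    | succ k ih =>
      intro i j
      rw [pow_succ, Equiv.Perm.mul_apply, Equiv.Perm.mul_apply, ih, h1]
  exact h2 k i j

lemma lat_sign (t : Fin 6 → Bool) (z : Fin 6 → ℂ) (h : z ∈ lattice tau0) :
    (fun i => (sg t i : ℂ) * z i) ∈ lattice tau0 := by
  rw [lat_iff] at h ⊢
  obtain ⟨a, b, h1, h2⟩ := h
  refine ⟨fun i => sg t i * a i, fun i => sg t i * b i, fun i => ?_, fun i => ?_⟩
  · push_cast
    linear_combination (sg t i : ℂ) * h1 i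
  · have e : sg t i * a i - ∑ j, Sm i j * (sg t j * b j)
        = (a i - ∑ j, Sm i j * b j) + ((sg t i - 1) * a i - ∑ j, Sm i j * ((sg t j - 1) * b j)) := by
      have : ∑ j, Sm i j * ((sg t j - 1) * b j) = ∑ j, Sm i j * (sg t j * b j) - ∑ j, Sm i j * b j := by
        rw [← Finset.sum_sub_distrib]
        apply Finset.sum_congr rfl
        intro j _
        ring
      rw [this]
      ring
    have e2 : ∀ j, (2 : ℤ) ∣ sg t j - 1 := by
      intro j
      unfold sg
      split_ifs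
      · exact ⟨-1, by norm_num⟩
      · exact ⟨0, by norm_num⟩
    rw [e]
    apply dvd_add (h2 i)
    apply dvd_sub
    · exact Dvd.dvd.mul_right (e2 i) _
    · apply Finset.dvd_sum
      intro j _
      exact Dvd.dvd.mul_left (Dvd.dvd.mul_right (e2 j) _) _

lemma lat_perm (σ : Equiv.Perm (Fin 6)) (hσ : ∀ i j, Sm (σ i) (σ j) = Sm i j) (z : Fin 6 → ℂ)
    (h : z ∈ lattice tau0) : (fun i => z (σ i)) ∈ lattice tau0 := by
  rw [lat_iff] at h ⊢
  obtain ⟨a, b, h1, h2⟩ := h
  refine ⟨fun i => a (σ i), fun i => b (σ i), fun i => h1 _, fun i => ?_⟩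
  have e : ∑ j, Sm i j * b (σ j) = ∑ j, Sm (σ i) j * b j := by
    rw [← Equiv.sum_comp σ (fun j => Sm (σ i) j * b j)]
    apply Finset.sum_congr rfl
    intro j _
    rw [hσ]
  rw [e]
  exact h2 _

lemma lat_om (j : ℕ) (z : Fin 6 → ℂ) (h : z ∈ lattice tau0) :
    (fun i => om ^ j * z i) ∈ lattice tau0 := by
  induction j with
  | zero => simpa using h
  | succ j ih =>
    have := (omega_iso.1 _).mp ih
    have e : omEquiv (fun i => om ^ j * z i) = fun i => om ^ (j + 1) * z i := by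
      ext i
      simp [omEquiv, pow_succ]
      ring
    rwa [e] at this

lemma om_cube : om ^ 3 = 1 := by
  have h := om_sq
  linear_combination (om - 1) * h

/-- the index set -/
abbrev Ix := (Fin 6 → Bool) × Fin 3 × Fin 5

/-- the coefficients -/
noncomputable def cf (x : Ix) (i : Fin 6) : ℂ := om ^ (x.2.1 : ℕ) * (sg x.1 i : ℂ)

lemma cf_ne (x : Ix) (i : Fin 6) : cf x i ≠ 0 := by
  unfold cf
  apply mul_ne_zero (pow_ne_zero _ om_ne_zero)
  unfold sg
  split_ifs <;> norm_num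

lemma om_norm : om * (starRingEnd ℂ) om = 1 := by
  rw [Complex.mul_conj]
  have h3 : (Real.sqrt 3) ^ 2 = 3 := Real.sq_sqrt (by norm_num)
  have : Complex.normSq om = 1 := by
    simp [Complex.normSq, om]
    nlinarith
  rw [this]
  norm_num

lemma cf_norm (x : Ix) (i : Fin 6) : cf x i * (starRingEnd ℂ) (cf x i) = 1 := by
  unfold cf
  rw [map_mul, map_pow]
  have h1 : om ^ (x.2.1 : ℕ) * (starRingEnd ℂ) om ^ (x.2.1 : ℕ) = 1 := by
    rw [← mul_pow, om_norm, one_pow]
  have h2 : (sg x.1 i : ℂ) * (starRingEnd ℂ) (sg x.1 i : ℂ) = 1 := by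
    rw [map_intCast]
    exact_mod_cast sg_sq x.1 i
  calc _ = (om ^ (x.2.1 : ℕ) * (starRingEnd ℂ) om ^ (x.2.1 : ℕ)) *
      ((sg x.1 i : ℂ) * (starRingEnd ℂ) (sg x.1 i : ℂ)) := by ring
    _ = 1 := by rw [h1, h2, one_mul]

/-- the automorphisms -/
noncomputable def FF (x : Ix) : (Fin 6 → ℂ) ≃ₗ[ℂ] (Fin 6 → ℂ) :=
  mono (cf x) (cf_ne x) (rim ^ (x.2.2 : ℕ))

lemma FF_iso (x : Ix) : IsIso tau0 tau0 (FF x) := by
  obtain ⟨t, j, k⟩ := x
  apply iso_of_mono _ _ _ (cf_norm _)
  intro z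
  constructor
  · intro h
    have h1 := lat_perm (rim ^ (k : ℕ)) (Sm_rim k) z h
    have h2 := lat_sign t _ h1
    have h3 := lat_om (j : ℕ) _ h2
    have e : mono (cf (t, j, k)) (cf_ne (t, j, k)) (rim ^ (k : ℕ)) z
        = fun i => om ^ (j : ℕ) * ((sg t i : ℂ) * z ((rim ^ (k : ℕ)) i)) := by
      ext i
      rw [mono_apply]
      simp [cf, mul_assoc]
    simp only
    rw [e]
    exact h3
  · intro h
    have e : mono (cf (t, j, k)) (cf_ne (t, j, k)) (rim ^ (k : ℕ)) z
        = fun i => om ^ (j : ℕ) * ((sg t i : ℂ) * z ((rim ^ (k : ℕ)) i)) := by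
      ext i
      rw [mono_apply]
      simp [cf, mul_assoc]
    simp only at h
    rw [e] at h
    have h1 := lat_om (2 * (j : ℕ)) _ h
    have h2 := lat_sign t _ h1
    have h3 := lat_perm (rim ^ (k : ℕ)).symm (by
      intro i i'
      rw [← Sm_rim k, Equiv.apply_symm_apply, Equiv.apply_symm_apply]) _ h2
    have e2 : (fun i => (sg t ((rim ^ (k : ℕ)).symm i) : ℂ) * (om ^ (2 * (j : ℕ)) *
        (om ^ (j : ℕ) * ((sg t ((rim ^ (k : ℕ)).symm i) : ℂ) *
          z ((rim ^ (k : ℕ)) ((rim ^ (k : ℕ)).symm i)))))) = z := by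
      ext i
      rw [Equiv.apply_symm_apply]
      have h4 : (sg t ((rim ^ (k : ℕ)).symm i) : ℂ) * (sg t ((rim ^ (k : ℕ)).symm i) : ℂ) = 1 := by
        exact_mod_cast sg_sq t _
      have h5 : om ^ (2 * (j : ℕ)) * om ^ (j : ℕ) = 1 := by
        rw [← pow_add, show 2 * (j : ℕ) + j = 3 * j by ring, pow_mul, om_cube, one_pow]
      calc _ = ((sg t ((rim ^ (k : ℕ)).symm i) : ℂ) * (sg t ((rim ^ (k : ℕ)).symm i) : ℂ)) *
            (om ^ (2 * (j : ℕ)) * om ^ (j : ℕ)) * z i := by ring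
        _ = z i := by rw [h4, h5]; ring
    rw [e2] at h3
    exact h3

lemma om_ne_one : om ≠ 1 := by
  intro h
  have := congrArg Complex.re h
  simp [om] at this
  norm_num at this

lemma om_pow_inj (j j' : Fin 3) (h : om ^ (j : ℕ) = om ^ (j' : ℕ)) : j = j' := by
  have h1 := om_ne_one
  have h2 := om_ne_zero
  have h3 : om ^ 2 ≠ 1 := by
    intro h
    apply h1
    have := om_cube
    calc om = om ^ 3 := by rw [pow_succ, h, one_mul]
      _ = 1 := this
  have h4 : om ^ 2 ≠ om := by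
    intro h
    apply h1
    have : om * om = om * 1 := by rw [← pow_two, h, mul_one]
    exact mul_left_cancel₀ h2 this
  have e0 : ((0 : Fin 3) : ℕ) = 0 := rfl
  have e1 : ((1 : Fin 3) : ℕ) = 1 := rfl
  have e2 : ((2 : Fin 3) : ℕ) = 2 := rfl
  fin_cases j <;> fin_cases j'
  · rfl
  · exact absurd (by simpa using h.symm) h1
  · exact absurd (by simpa using h.symm) h3
  · exact absurd (by simpa using h) h1
  · rfl
  · exact absurd (by simpa using h.symm) h4
  · exact absurd (by simpa using h) h3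
  · exact absurd (by simpa using h) h4
  · rfl

lemma FF_inj : Function.Injective FF := by
  rintro ⟨t, j, k⟩ ⟨t', j', k'⟩ h
  have hap : ∀ (z : Fin 6 → ℂ) (i : Fin 6),
      cf (t, j, k) i * z ((rim ^ (k : ℕ)) i) = cf (t', j', k') i * z ((rim ^ (k' : ℕ)) i) := by
    intro z i
    have := congrFun (congrArg (fun φ => φ z) h) i
    exact this
  have hσ : ∀ i, (rim ^ (k : ℕ)) i = (rim ^ (k' : ℕ)) i := by
    intro i
    by_contra hne
    have := hap (Pi.single ((rim ^ (k : ℕ)) i) 1) i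
    rw [Pi.single_eq_same, Pi.single_eq_of_ne (Ne.symm hne), mul_one, mul_zero] at this
    exact cf_ne _ _ this
  have hk : k = k' := by
    have key : ∀ k k' : Fin 5, (rim ^ (k : ℕ)) 1 = (rim ^ (k' : ℕ)) 1 → k = k' := by decide
    exact key k k' (hσ 1)
  subst hk
  have hc : ∀ i, cf (t, j, k) i = cf (t', j', k) i := by
    intro i
    have := hap (fun _ => 1) i
    simpa using this
  have hs : ∀ i, sg t i = sg t' i := by
    intro i
    have h1 := congrArg (fun x => x ^ 3) (hc i)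
    simp only [cf, mul_pow, ← pow_mul] at h1
    rw [mul_comm (j : ℕ) 3, mul_comm (j' : ℕ) 3, pow_mul, pow_mul, om_cube, one_pow, one_pow,
      one_mul, one_mul] at h1
    have h2 : sg t i ^ 3 = sg t' i ^ 3 := by exact_mod_cast h1
    have h3 := sg_sq t i
    have h4 := sg_sq t' i
    have h5 : sg t i ^ 3 = sg t i := by
      rw [pow_succ, pow_two, h3, one_mul]
    have h6 : sg t' i ^ 3 = sg t' i := by
      rw [pow_succ, pow_two, h4, one_mul]
    rw [← h5, ← h6, h2]
  have ht : t = t' := by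
    ext i
    have := hs i
    unfold sg at this
    cases h1 : t i <;> cases h2 : t' i <;> simp_all
  subst ht
  have hj : j = j' := by
    have h1 := hc 0
    simp only [cf] at h1
    have h2 : (sg t 0 : ℂ) ≠ 0 := by
      unfold sg
      split_ifs <;> norm_num
    exact om_pow_inj _ _ (mul_right_cancel₀ h2 h1)
  subst hj
  rfl

/-- the ppav of `tau0` has at least `960` automorphisms (a Jacobian of dimension `6` has at most
`2 * 84 * 5 = 840`) -/
theorem many_automorphisms : ∃ F : Fin 960 → ((Fin 6 → ℂ) ≃ₗ[ℂ] (Fin 6 → ℂ)),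
    Function.Injective F ∧ ∀ i, IsIso tau0 tau0 (F i) := by
  have hcard : Fintype.card Ix = 960 := by
    simp [Ix]
  let e : Ix ≃ Fin 960 := Fintype.equivFinOfCardEq hcard
  exact ⟨fun i => FF (e.symm i), FF_inj.comp e.symm.injective, fun i => FF_iso _⟩

end Pool.Agent.H36.G00
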