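import Pool.Agent.H36.G00.JacVal

set_option autoImplicit false

/-! # The second order theta functions of `τ₀` as products -/

namespace Pool.Agent.H36.G00

open Complex Matrix

/-- the second half of the characteristic -/
def ch (e : Fin 6 → Fin 2) (i : Fin 6) : ℤ := ∑ j, Sm i j * ((e j : ℕ) : ℤ) + Sm i i

/-- the phase -/
noncomputable def ph (e : Fin 6 → Fin 2) : ℂ :=
  cexp (Real.pi * I * (∑ i, ∑ j, (Sm i j : ℂ) * ((e i : ℕ) : ℂ) * ((e j : ℕ) : ℂ)) / 4)

lemma ph_ne_zero (e : Fin 6 → Fin 2) : ph e ≠ 0 := Complex.exp_ne_zero _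

/-- products of one variable functions -/
noncomputable def PP (e : Fin 6 → Fin 2) (k : Fin 6 → ℕ) (w : Fin 6 → ℂ) : ℂ :=
  ∏ i, J (k i) (e i : ℕ) (ch e i) (w i)

/-- parity of the quadratic form -/
lemma quad_parity (n : Fin 6 → ℤ) :
    ∃ k : ℤ, ∑ i, ∑ j, Sm i j * n i * n j = ∑ i, Sm i i * n i + 2 * k := by
  obtain ⟨k, hk⟩ := Int.even_mul_succ_self (n 0 - 1)
  refine ⟨k + n 0 * (n 1 + n 2 + n 3 + n 4 + n 5) + n 1 * n 2 + n 2 * n 3 + n 3 * n 4 + n 4 * n 5 +
    n 5 * n 1, ?_⟩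
  simp [Fin.sum_univ_six, Sm]
  linear_combination hk

/-- the general term factorizes -/
lemma term_factor (e : Fin 6 → Fin 2) (n : Fin 6 → ℤ) (z : Fin 6 → ℂ) :
    cexp (2 * Real.pi * I *
    ((fun i => (n i : ℂ) + ((e i : ℕ) : ℂ) / 2) ⬝ᵥ tau0 *ᵥ (fun i => (n i : ℂ) + ((e i : ℕ) : ℂ) / 2) +
      2 * ((fun i => (n i : ℂ) + ((e i : ℕ) : ℂ) / 2) ⬝ᵥ z))) =
    ph e * ∏ i, (coef (e i : ℕ) (ch e i) (n i) * cexp (2 * z i * fr (e i : ℕ) (n i))) := by
  obtain ⟨k, hk⟩ := quad_parity n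
  have hk' : ∑ i, ∑ j, (Sm i j : ℂ) * (n i : ℂ) * (n j : ℂ) =
      ∑ i, (Sm i i : ℂ) * (n i : ℂ) + 2 * (k : ℂ) := by exact_mod_cast hk
  simp_rw [coef, ← Complex.exp_add]
  rw [← Complex.exp_sum, ph, ← Complex.exp_add, Complex.exp_eq_exp_iff_exists_int]
  refine ⟨k, ?_⟩
  simp only [dotProduct, mulVec, tau0, fr, ch]
  simp only [Fin.sum_univ_six] at hk' ⊢
  simp only [Sm] at hk' ⊢
  simp at hk' ⊢
  linear_combination (Real.pi * I) * hk'

/-- the product series -/
lemma PP_series (e : Fin 6 → Fin 2) (k : Fin 6 → ℕ) (w : Fin 6 → ℂ) :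
    Summable (fun n : Fin 6 → ℤ => ‖∏ i, (coef (e i : ℕ) (ch e i) (n i) * fr (e i : ℕ) (n i) ^ k i *
      cexp (w i * fr (e i : ℕ) (n i)))‖) ∧
    ∑' n : Fin 6 → ℤ, ∏ i, (coef (e i : ℕ) (ch e i) (n i) * fr (e i : ℕ) (n i) ^ k i *
      cexp (w i * fr (e i : ℕ) (n i))) = PP e k w :=
  pi_prod (fun i m => coef (e i : ℕ) (ch e i) m * fr (e i : ℕ) m ^ k i *
      cexp (w i * fr (e i : ℕ) m)) (fun i => summable_J (k i) (e i) (ch e i) (w i))

lemma Theta_eq (e : Fin 6 → Fin 2) (z : Fin 6 → ℂ) :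
    Theta e tau0 z = ph e * PP e 0 (fun i => 2 * z i) := by
  rw [Theta, tsum_congr (fun n => term_factor e n z), tsum_mul_left]
  congr 1
  rw [← (PP_series e 0 (fun i => 2 * z i)).2]
  apply tsum_congr
  intro n
  apply Finset.prod_congr rfl
  intro i _
  simp

/-- the multi-index `δ_a + δ_b` -/
def dd (a b : Fin 6) : Fin 6 → ℕ := fun i => (if i = a then 1 else 0) + (if i = b then 1 else 0)

/-- `1` on the diagonal, `2` off the diagonal -/
def cc (a b : Fin 6) : ℕ := if a = b then 1 else 2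

lemma symUnit_form (a b : Fin 6) (x : Fin 6 → ℂ) :
    x ⬝ᵥ symUnit a b *ᵥ x = (cc a b : ℂ) * (x a * x b) := by
  have h : ∀ i j, symUnit a b i j =
      (if i = a then 1 else 0) * (if j = b then 1 else 0) +
      (if a = b then 0 else (if i = b then 1 else 0) * (if j = a then 1 else 0)) := by
    intro i j
    unfold symUnit
    by_cases hab : a = b
    · subst hab
      by_cases h1 : i = a <;> by_cases h2 : j = a <;> simp [h1, h2]
    · by_cases h1 : i = a
      · subst h1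
        by_cases h2 : j = b
        · subst h2; simp [hab]
        · simp [h2, hab]
      · by_cases h3 : i = b
        · subst h3
          simp [h1, hab]
        · simp [h1, h3]
  simp only [dotProduct, mulVec, h]
  by_cases hab : a = b
  · subst hab
    simp [cc]
  · simp [cc, hab, Finset.sum_add_distrib, add_mul, mul_add]
    ring

lemma dd_prod (a b : Fin 6) (f : Fin 6 → ℂ) : ∏ i, f i ^ dd a b i = f a * f b := by
  simp only [dd, pow_add, Finset.prod_mul_distrib]
  congr 1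
  · rw [Finset.prod_eq_single a]
    · simp
    · intro i _ hi; simp [hi]
    · simp
  · rw [Finset.prod_eq_single b]
    · simp
    · intro i _ hi; simp [hi]
    · simp

/-- the real coordinates -/
noncomputable def xr (e : Fin 6 → Fin 2) (n : Fin 6 → ℤ) (i : Fin 6) : ℝ :=
  (n i : ℝ) + ((e i : ℕ) : ℝ) / 2

lemma norm_prod_coef (e : Fin 6 → Fin 2) (n : Fin 6 → ℤ) :
    ‖∏ i, coef (e i : ℕ) (ch e i) (n i)‖ =
      Real.exp (∑ i, -(Real.pi * Real.sqrt 3 / 2) * xr e n i ^ 2) := by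
  rw [norm_prod, Real.exp_sum]
  apply Finset.prod_congr rfl
  intro i _
  rw [norm_coef, xr]

lemma summable_real_gauss (e : Fin 6 → Fin 2) {c : ℝ} (hc : 0 < c) :
    Summable fun n : Fin 6 → ℤ => Real.exp (∑ i, -c * xr e n i ^ 2) := by
  have h := (pi_prod (fun (i : Fin 6) (m : ℤ) =>
    ((Real.exp (-c * ((m : ℝ) + ((e i : ℕ) : ℝ) / 2) ^ 2) : ℝ) : ℂ)) (fun i => by
      have h1 := summable_gauss (e i : ℕ) hc 0 le_rfl
      refine h1.congr (fun m => ?_)
      rw [zero_mul, Real.exp_zero, mul_one, Complex.norm_real, Real.norm_eq_abs,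
        abs_of_pos (Real.exp_pos _)])).1
  refine h.congr (fun n => ?_)
  rw [norm_prod, Real.exp_sum]
  apply Finset.prod_congr rfl
  intro i _
  rw [Complex.norm_real, Real.norm_eq_abs, abs_of_pos (Real.exp_pos _), xr]

lemma dTheta_eq (a b : Fin 6) (e : Fin 6 → Fin 2) :
    dTheta a b e tau0 = (cc a b : ℂ) / (2 * Real.pi * I) * (ph e * PP e (dd a b) 0) := by
  set A : (Fin 6 → ℤ) → ℂ := fun n => ph e * ∏ i, coef (e i : ℕ) (ch e i) (n i) with hA
  set B : (Fin 6 → ℤ) → ℂ := fun n => (cc a b : ℂ) / (2 * Real.pi * I) *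
    (fr (e a : ℕ) (n a) * fr (e b : ℕ) (n b)) with hB
  have hpi : (2 * Real.pi * I : ℂ) ≠ 0 := by
    simp [Real.pi_ne_zero]
  have h1 : ∀ t : ℂ, Theta e (tau0 + t • symUnit a b) 0 = ∑' n, A n * cexp (t * B n) := by
    intro t
    rw [Theta]
    apply tsum_congr
    intro n
    have h2 := term_factor e n 0
    have h3 : ∏ i, (coef (e i : ℕ) (ch e i) (n i) * cexp (2 * (0 : Fin 6 → ℂ) i * fr (e i : ℕ) (n i))) =
        ∏ i, coef (e i : ℕ) (ch e i) (n i) := by
      apply Finset.prod_congr rfl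
      intro i _
      simp
    rw [h3] at h2
    rw [hA]
    simp only
    rw [← h2, ← Complex.exp_add]
    congr 1
    rw [Matrix.add_mulVec, dotProduct_add, Matrix.smul_mulVec, dotProduct_smul, symUnit_form, hB]
    simp only [fr, smul_eq_mul]
    field_simp
    ring
  have h2 : Summable fun n => ‖A n‖ * Real.exp ((1 / 8 : ℝ) * ‖B n‖) := by
    have hs3 : (1 : ℝ) < Real.sqrt 3 := by
      rw [Real.lt_sqrt (by norm_num)]
      norm_num
    have hc : 0 < Real.pi * Real.sqrt 3 / 2 - Real.pi / 4 := by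
      have := Real.pi_pos
      nlinarith
    have h3 := (summable_real_gauss e hc).mul_left ‖ph e‖
    refine Summable.of_nonneg_of_le (fun n => by positivity) (fun n => ?_) h3
    rw [hA]
    simp only
    rw [norm_mul, norm_prod_coef, mul_assoc, ← Real.exp_add]
    apply mul_le_mul_of_nonneg_left _ (norm_nonneg _)
    apply Real.exp_le_exp.2
    have h4 : ∀ i, fr (e i : ℕ) (n i) = 2 * Real.pi * I * (xr e n i : ℂ) := by
      intro i
      rw [fr, xr]
      push_cast
      ring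
    have h5 : B n = ((2 * Real.pi * (cc a b : ℝ) * (xr e n a * xr e n b) : ℝ) : ℂ) * I := by
      rw [hB]
      simp only
      rw [h4, h4]
      field_simp
      push_cast
      ring
    have h6 : ‖B n‖ = 2 * Real.pi * (cc a b : ℝ) * |xr e n a * xr e n b| := by
      rw [h5, norm_mul, Complex.norm_I, mul_one, Complex.norm_real, Real.norm_eq_abs, abs_mul,
        abs_of_nonneg (by have := Real.pi_pos; positivity)]
    have h7 : (cc a b : ℝ) * |xr e n a * xr e n b| ≤ ∑ i, xr e n i ^ 2 := by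
      by_cases hab : a = b
      · subst hab
        simp only [cc, if_true, Nat.cast_one, one_mul]
        rw [← pow_two, abs_of_nonneg (sq_nonneg _)]
        exact Finset.single_le_sum (f := fun i => xr e n i ^ 2) (fun i _ => sq_nonneg _)
          (Finset.mem_univ a)
      · simp only [cc, hab, if_false]
        have h8 : xr e n a ^ 2 + xr e n b ^ 2 ≤ ∑ i, xr e n i ^ 2 := by
          rw [← Finset.sum_pair (f := fun i => xr e n i ^ 2) hab]
          exact Finset.sum_le_sum_of_subset_of_nonneg (Finset.subset_univ _)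
            (fun i _ _ => sq_nonneg _)
        rw [abs_mul]
        push_cast
        nlinarith [sq_nonneg (|xr e n a| - |xr e n b|), sq_abs (xr e n a), sq_abs (xr e n b)]
    rw [h6, ← Finset.mul_sum, ← Finset.mul_sum]
    have hp := Real.pi_pos
    nlinarith [mul_le_mul_of_nonneg_left h7 hp.le]
  have h3 := hasDerivAt_expSum A B (R := 1 / 8) h2 (t := 0) (by simp)
  have h4 : (fun t : ℂ => Theta e (tau0 + t • symUnit a b) 0) = fun t => ∑' n, A n * cexp (t * B n) :=
    funext h1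
  rw [dTheta, h4, h3.deriv, ← (PP_series e (dd a b) 0).2, ← tsum_mul_left, ← tsum_mul_left]
  apply tsum_congr
  intro n
  rw [zero_mul, Complex.exp_zero, mul_one, hA, hB]
  simp only
  rw [← dd_prod a b (fun i => fr (e i : ℕ) (n i))]
  have h5 : ∏ i, (coef (e i : ℕ) (ch e i) (n i) * fr (e i : ℕ) (n i) ^ dd a b i *
      cexp ((0 : Fin 6 → ℂ) i * fr (e i : ℕ) (n i))) =
      (∏ i, coef (e i : ℕ) (ch e i) (n i)) * ∏ i, fr (e i : ℕ) (n i) ^ dd a b i := by
    rw [← Finset.prod_mul_distrib]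
    apply Finset.prod_congr rfl
    intro i _
    simp
  rw [h5]
  ring

end Pool.Agent.H36.G00
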