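import Pool.Agent.H36.G00.Defs

set_option autoImplicit false

/-! # Sections of `2Θ`: Fourier coefficients on the real torus -/

namespace Pool.Agent.H36.G00

open Complex Matrix MeasureTheory Set Filter Topology

noncomputable local instance m6_ms : MeasureSpace UnitAddCircle := ⟨AddCircle.haarAddCircle⟩

local instance m6_haar : Measure.IsAddHaarMeasure (volume : Measure UnitAddCircle) :=
  inferInstanceAs (Measure.IsAddHaarMeasure AddCircle.haarAddCircle)

local instance m6_prob : IsProbabilityMeasure (volume : Measure UnitAddCircle) :=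
  inferInstanceAs (IsProbabilityMeasure AddCircle.haarAddCircle)

variable {ι : Type} [Fintype ι]

/-- the representative in `[0, 1)` -/
noncomputable def m6_rep (a : UnitAddCircle) : ℝ := (AddCircle.equivIco 1 0 a : ℝ)

lemma m6_coe_rep (a : UnitAddCircle) : ((m6_rep a : ℝ) : UnitAddCircle) = a :=
  AddCircle.coe_equivIco

lemma m6_rep_coe (x : ℝ) : ∃ m : ℤ, m6_rep (x : UnitAddCircle) = x + m := by
  refine ⟨-⌊x⌋, ?_⟩
  have h := AddCircle.coe_equivIco_mk_apply (p := (1 : ℝ)) x
  rw [div_one, mul_one] at h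
  rw [m6_rep]
  refine h.trans ?_
  rw [Int.fract]
  push_cast
  ring

/-- the function on the torus -/
noncomputable def m6_F (f : (ι → ℂ) → ℂ) (w : ι → ℂ) (t : UnitAddTorus ι) : ℂ :=
  f (fun i => ((m6_rep (t i) : ℝ) : ℂ) + w i)

lemma m6_per {τ : Matrix ι ι ℂ} {f : (ι → ℂ) → ℂ} (hf : IsSection τ f) (m : ι → ℤ)
    (z : ι → ℂ) : f (fun i => z i + (m i : ℂ)) = f z := by
  have h := hf.2 m 0 z
  have h1 : z + pt τ m 0 = fun i => z i + (m i : ℂ) := by
    ext i
    simp [pt, Matrix.mulVec, dotProduct]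
  rw [h1] at h
  rw [h]
  simp [dotProduct]

lemma m6_F_coe {τ : Matrix ι ι ℂ} {f : (ι → ℂ) → ℂ} (hf : IsSection τ f) (w : ι → ℂ)
    (x : ι → ℝ) : m6_F f w (fun i => (x i : UnitAddCircle)) = f (fun i => (x i : ℂ) + w i) := by
  choose m hm using m6_rep_coe
  unfold m6_F
  rw [← m6_per hf (fun i => m (x i)) (fun i => (x i : ℂ) + w i)]
  congr 1
  ext i
  rw [hm (x i)]
  push_cast
  ring

lemma m6_cont {τ : Matrix ι ι ℂ} {f : (ι → ℂ) → ℂ} (hf : IsSection τ f) (w : ι → ℂ) :
    Continuous (m6_F f w) := by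
  have h1 : IsOpenQuotientMap (Pi.map (fun (_ : ι) (x : ℝ) => (x : UnitAddCircle))) :=
    IsOpenQuotientMap.piMap fun _ => QuotientAddGroup.isOpenQuotientMap_mk
  rw [← h1.continuous_comp_iff]
  have h2 : m6_F f w ∘ (Pi.map (fun (_ : ι) (x : ℝ) => (x : UnitAddCircle)))
      = fun x : ι → ℝ => f (fun i => (x i : ℂ) + w i) := by
    ext x
    exact m6_F_coe hf w x
  rw [h2]
  have h3 := hf.1.continuous
  fun_prop

lemma m6_mF (k : ι → ℤ) (x : ι → ℝ) :
    UnitAddTorus.mFourier k (fun i => (x i : UnitAddCircle))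
      = exp (2 * Real.pi * I * ∑ i, (k i : ℂ) * (x i : ℂ)) := by
  simp only [UnitAddTorus.mFourier, ContinuousMap.coe_mk]
  rw [Finset.mul_sum, Complex.exp_sum]
  refine Finset.prod_congr rfl fun i _ => ?_
  rw [fourier_coe_apply]
  congr 1
  push_cast
  ring

/-- the Fourier coefficient -/
noncomputable def m6_c (f : (ι → ℂ) → ℂ) (w : ι → ℂ) (k : ι → ℤ) : ℂ :=
  UnitAddTorus.mFourierCoeff (m6_F f w) k

lemma m6_trans {τ : Matrix ι ι ℂ} {f : (ι → ℂ) → ℂ} (hf : IsSection τ f) (w : ι → ℂ)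
    (y : ι → ℝ) (k : ι → ℤ) :
    m6_c f (fun i => w i + (y i : ℂ)) k =
      exp (2 * Real.pi * I * ∑ i, (k i : ℂ) * (y i : ℂ)) * m6_c f w k := by
  have h1 : ∀ t : UnitAddTorus ι, m6_F f (fun i => w i + (y i : ℂ)) t
      = m6_F f w (t + fun i => (y i : UnitAddCircle)) := by
    intro t
    have h2 : (t + fun i => (y i : UnitAddCircle))
        = fun i => ((m6_rep (t i) + y i : ℝ) : UnitAddCircle) := by
      ext i
      rw [Pi.add_apply, AddCircle.coe_add, m6_coe_rep]
    rw [h2, m6_F_coe hf]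
    unfold m6_F
    congr 1
    ext i
    push_cast
    ring
  have h3 : ∀ t : UnitAddTorus ι, UnitAddTorus.mFourier (-k) t =
      exp (2 * Real.pi * I * ∑ i, (k i : ℂ) * (y i : ℂ)) *
        UnitAddTorus.mFourier (-k) (t + fun i => (y i : UnitAddCircle)) := by
    intro t
    have h2 : (t + fun i => (y i : UnitAddCircle))
        = fun i => ((m6_rep (t i) + y i : ℝ) : UnitAddCircle) := by
      ext i
      rw [Pi.add_apply, AddCircle.coe_add, m6_coe_rep]
    have h4 : t = fun i => ((m6_rep (t i) : ℝ) : UnitAddCircle) := by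
      ext i
      rw [m6_coe_rep]
    rw [h2, m6_mF]
    conv_lhs => rw [h4]
    rw [m6_mF, ← Complex.exp_add, ← mul_add, ← Finset.sum_add_distrib]
    congr 2
    refine Finset.sum_congr rfl fun i _ => ?_
    simp only [Pi.neg_apply]
    push_cast
    ring
  unfold m6_c UnitAddTorus.mFourierCoeff
  have h5 := integral_add_right_eq_self (μ := (volume : Measure (UnitAddTorus ι)))
    (fun t => UnitAddTorus.mFourier (-k) t • m6_F f w t) (fun i => (y i : UnitAddCircle))
  rw [← h5, ← integral_const_mul]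
  refine integral_congr_ae (Eventually.of_forall fun t => ?_)
  simp only [smul_eq_mul]
  rw [h1, h3]
  ring

/-! ## Holomorphic dependence on a parameter -/

lemma m6_param {φ : (ι → ℝ) → ℂ → ℂ} (hc : Continuous (Function.uncurry φ))
    (hd : ∀ x, Differentiable ℂ (φ x)) {K : Set (ι → ℝ)} (hK : IsCompact K) {A : Set (ι → ℝ)}
    (hA : MeasurableSet A) (hAK : A ⊆ K) : Differentiable ℂ fun s => ∫ x in A, φ x s := by
  intro s0
  obtain ⟨C, hC⟩ := (hK.prod (isCompact_closedBall s0 2)).exists_bound_of_continuousOn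
    hc.continuousOn
  have hAfin : volume A < ⊤ := (measure_mono hAK).trans_lt hK.measure_lt_top
  have hcs : ∀ s, Continuous fun x => φ x s := fun s =>
    hc.comp (continuous_id.prodMk continuous_const)
  have h := hasDerivAt_integral_of_dominated_loc_of_deriv_le (μ := volume.restrict A)
    (F := fun s x => φ x s) (F' := fun s x => deriv (φ x) s) (x₀ := s0)
    (s := Metric.ball s0 1) (bound := fun _ => C / 1) (Metric.ball_mem_nhds s0 one_pos)
    (Eventually.of_forall fun s => (hcs s).aestronglyMeasurable)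
    (((hcs s0).continuousOn.integrableOn_compact hK).mono_set hAK)
    (by
      have h1 := measurable_deriv_with_param (𝕜 := ℂ) hc
      exact (h1.comp (measurable_id.prodMk measurable_const)).aestronglyMeasurable)
    (by
      filter_upwards [ae_restrict_mem hA] with x hx s hs
      refine norm_deriv_le_of_forall_mem_sphere_norm_le one_pos (hd x).diffContOnCl ?_
      intro z hz
      refine hC (x, z) ⟨hAK hx, ?_⟩
      rw [Metric.mem_closedBall]
      rw [Metric.mem_sphere] at hz
      rw [Metric.mem_ball] at hs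
      linarith [dist_triangle z s s0])
    (integrableOn_const hAfin.ne)
    (Eventually.of_forall fun x s _ => (hd x s).hasDerivAt)
  exact h.2.differentiableAt

lemma m6_c_eq {τ : Matrix ι ι ℂ} {f : (ι → ℂ) → ℂ} (hf : IsSection τ f) (w : ι → ℂ)
    (k : ι → ℤ) : m6_c f w k = ∫ x in {x : ι → ℝ | ∀ i, x i ∈ Ioc (0 : ℝ) (0 + 1)},
      exp (-(2 * Real.pi * I * ∑ i, (k i : ℂ) * (x i : ℂ))) * f (fun i => (x i : ℂ) + w i) := by
  unfold m6_c
  rw [UnitAddTorus.mFourierCoeff_eq_integral _ _ (fun _ => 0)]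
  refine integral_congr_ae (Eventually.of_forall fun x => ?_)
  simp only [smul_eq_mul]
  rw [m6_F_coe hf, m6_mF]
  congr 2
  rw [← mul_neg, ← Finset.sum_neg_distrib]
  congr 1
  refine Finset.sum_congr rfl fun i _ => ?_
  simp

lemma m6_line {τ : Matrix ι ι ℂ} {f : (ι → ℂ) → ℂ} (hf : IsSection τ f) (w v : ι → ℂ)
    (k : ι → ℤ) : Differentiable ℂ fun s : ℂ => m6_c f (fun i => w i + s * v i) k := by
  have h1 : (fun s : ℂ => m6_c f (fun i => w i + s * v i) k) = fun s : ℂ =>
      ∫ x in {x : ι → ℝ | ∀ i, x i ∈ Ioc (0 : ℝ) (0 + 1)},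
      exp (-(2 * Real.pi * I * ∑ i, (k i : ℂ) * (x i : ℂ))) *
        f (fun i => (x i : ℂ) + (w i + s * v i)) := by
    funext s
    exact m6_c_eq hf _ k
  rw [h1]
  have h2 := hf.1.continuous
  refine m6_param (φ := fun (x : ι → ℝ) (s : ℂ) =>
      exp (-(2 * Real.pi * I * ∑ i, (k i : ℂ) * (x i : ℂ))) *
        f (fun i => (x i : ℂ) + (w i + s * v i))) ?_ ?_
    (isCompact_univ_pi fun _ => isCompact_Icc (a := (0 : ℝ)) (b := 1)) ?_ ?_
  · unfold Function.uncurry
    fun_prop
  · intro x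
    refine (differentiable_const _).mul (hf.1.comp ?_)
    rw [differentiable_pi]
    intro i
    fun_prop
  · exact MeasurableSet.univ_pi' fun i => measurableSet_Ioc
  · intro x hx i _
    have := hx i
    rw [zero_add] at this
    exact Ioc_subset_Icc_self this

/-- the dependence of the Fourier coefficients on complex translations -/
lemma m6_c_exp {τ : Matrix ι ι ℂ} {f : (ι → ℂ) → ℂ} (hf : IsSection τ f) (w : ι → ℂ)
    (k : ι → ℤ) : m6_c f w k = exp (2 * Real.pi * I * ∑ i, (k i : ℂ) * w i) * m6_c f 0 k := by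
  set x : ι → ℝ := fun i => (w i).re with hx
  set y : ι → ℝ := fun i => (w i).im with hy
  set h1 : ℂ → ℂ := fun s => m6_c f (fun i => (x i : ℂ) + s * (y i : ℂ)) k with hh1
  set h2 : ℂ → ℂ := fun s => exp (2 * Real.pi * I * ∑ i, (k i : ℂ) * ((x i : ℂ) + s * (y i : ℂ)))
    * m6_c f 0 k with hh2
  have d1 : Differentiable ℂ h1 := m6_line hf _ _ k
  have d2 : Differentiable ℂ h2 := by
    rw [hh2]
    fun_prop
  have e1 : ∀ s : ℝ, h1 s = h2 s := by
    intro s
    have h3 := m6_trans hf 0 (fun i => x i + s * y i) k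
    have h4 : (fun i => (0 : ι → ℂ) i + ((x i + s * y i : ℝ) : ℂ))
        = fun i => (x i : ℂ) + (s : ℂ) * (y i : ℂ) := by
      ext i
      push_cast
      simp
    rw [h4] at h3
    simp only [hh1, hh2]
    rw [h3]
    push_cast
    rfl
  have e2 : h1 = h2 := by
    refine AnalyticOnNhd.eq_of_frequently_eq (z₀ := 0)
      (fun z _ => d1.analyticAt z) (fun z _ => d2.analyticAt z) ?_
    have t1 : Tendsto (fun n : ℕ => ((1 / ((n : ℝ) + 1) : ℝ) : ℂ)) atTop (𝓝[≠] 0) := by
      rw [tendsto_nhdsWithin_iff]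
      constructor
      · have := tendsto_one_div_add_atTop_nhds_zero_nat (𝕜 := ℝ)
        have h5 := (Complex.continuous_ofReal.tendsto 0).comp this
        rw [Complex.ofReal_zero] at h5
        exact h5
      · refine Eventually.of_forall fun n => ?_
        have h7 : (1 / ((n : ℝ) + 1) : ℝ) ≠ 0 := by positivity
        exact Complex.ofReal_ne_zero.mpr h7
    exact t1.frequently (Frequently.of_forall fun n => e1 _)
  have e3 := congrFun e2 I
  have h6 : ∀ i, (x i : ℂ) + I * (y i : ℂ) = w i := by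
    intro i
    rw [mul_comm]
    exact Complex.re_add_im (w i)
  simp only [hh1, hh2, h6] at e3
  exact e3

/-- the quasi-periodicity of the Fourier coefficients -/
lemma m6_quasi {τ : Matrix ι ι ℂ} {f : (ι → ℂ) → ℂ} (hf : IsSection τ f) (k m : ι → ℤ) :
    m6_c f 0 (fun i => k i + 2 * m i) =
      exp (2 * Real.pi * I * ((fun i => (m i : ℂ)) ⬝ᵥ τ *ᵥ (fun i => (m i : ℂ))
        + (fun i => (k i : ℂ)) ⬝ᵥ τ *ᵥ (fun i => (m i : ℂ)))) * m6_c f 0 k := by
  set w : ι → ℂ := τ *ᵥ (fun i => (m i : ℂ)) with hw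
  have h1 := m6_c_exp hf w k
  have h2 : ∀ t : UnitAddTorus ι, m6_F f w t =
      exp (-(2 * Real.pi * I * ((fun i => (m i : ℂ)) ⬝ᵥ w))) *
        (UnitAddTorus.mFourier (-(fun i => 2 * m i)) t * m6_F f 0 t) := by
    intro t
    have h3 := hf.2 0 m (fun i => ((m6_rep (t i) : ℝ) : ℂ))
    have h4 : (fun i => ((m6_rep (t i) : ℝ) : ℂ)) + pt τ 0 m
        = fun i => ((m6_rep (t i) : ℝ) : ℂ) + w i := by
      ext i
      simp [pt, hw]
    rw [h4] at h3
    have h5 : t = fun i => ((m6_rep (t i) : ℝ) : UnitAddCircle) := by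
      ext i
      rw [m6_coe_rep]
    have h6 : UnitAddTorus.mFourier (-(fun i => 2 * m i)) t =
        exp (-(2 * Real.pi * I * (2 * ((fun i => (m i : ℂ)) ⬝ᵥ
          (fun i => ((m6_rep (t i) : ℝ) : ℂ)))))) := by
      conv_lhs => rw [h5]
      rw [m6_mF]
      congr 1
      rw [← mul_neg]
      congr 1
      rw [dotProduct, Finset.mul_sum, ← Finset.sum_neg_distrib]
      refine Finset.sum_congr rfl fun i _ => ?_
      simp only [Pi.neg_apply]
      push_cast
      ring
    unfold m6_F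
    rw [h3, h6]
    simp only [Pi.zero_apply, add_zero]
    rw [← mul_assoc, ← Complex.exp_add]
    congr 2
    ring
  have h7 : m6_c f w k = exp (-(2 * Real.pi * I * ((fun i => (m i : ℂ)) ⬝ᵥ w))) *
      m6_c f 0 (fun i => k i + 2 * m i) := by
    unfold m6_c UnitAddTorus.mFourierCoeff
    rw [← integral_const_mul]
    refine integral_congr_ae (Eventually.of_forall fun t => ?_)
    simp only [smul_eq_mul]
    rw [h2]
    have h8 : (-(fun i => k i + 2 * m i) : ι → ℤ) = -k + -(fun i => 2 * m i) := by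
      ext i
      simp only [Pi.neg_apply, Pi.add_apply]
      ring
    rw [h8, UnitAddTorus.mFourier_add]
    ring
  rw [h1] at h7
  have h9 : exp (2 * Real.pi * I * ((fun i => (m i : ℂ)) ⬝ᵥ w)) *
      exp (-(2 * Real.pi * I * ((fun i => (m i : ℂ)) ⬝ᵥ w))) = 1 := by
    rw [← Complex.exp_add, add_neg_cancel, Complex.exp_zero]
  have h10 : ∑ i, (k i : ℂ) * w i = (fun i => (k i : ℂ)) ⬝ᵥ w := rfl
  rw [h10] at h7
  rw [mul_add, Complex.exp_add, mul_assoc, h7, ← mul_assoc, h9, one_mul]

end Pool.Agent.H36.G00
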