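import Pool.Agent.H36.G00.Comb

set_option autoImplicit false

/-! # The equations `(*)` at the point `z₀` -/

namespace Pool.Agent.H36.G00

open Complex Matrix

/-- the point `z₀` -/
noncomputable def z0 : Fin 6 → ℂ := fun i => if i = 0 ∨ i = 1 then w0 / 2 else 0

lemma J_mod (k : ℕ) (e : Fin 6 → Fin 2) (i : Fin 6) (w : ℂ) :
    J k (e i : ℕ) (ch e i) w = J k (e i : ℕ) (ch e i % 2) w := by
  conv_lhs => rw [← Int.emod_add_mul_ediv (ch e i) 2]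
  exact J_add_two k _ _ _ w

lemma od_true {e : Fin 6 → Fin 2} {i : Fin 6} (h : od e i = true) :
    (e i : ℕ) = 1 ∧ ch e i % 2 = 1 := by
  simpa [od] using h

lemma J0_od {e : Fin 6 → Fin 2} {i : Fin 6} (h : od e i = true) : J 0 (e i : ℕ) (ch e i) 0 = 0 := by
  obtain ⟨h1, h2⟩ := od_true h
  rw [J_mod, h1, h2, J_0_11]

lemma J2_od {e : Fin 6 → Fin 2} {i : Fin 6} (h : od e i = true) : J 2 (e i : ℕ) (ch e i) 0 = 0 := by
  obtain ⟨h1, h2⟩ := od_true h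
  rw [J_mod, h1, h2, J_2_11]

lemma J1_od {e : Fin 6 → Fin 2} {i : Fin 6} (h : od e i = true) :
    J 1 (e i : ℕ) (ch e i) 0 = J 1 1 1 0 := by
  obtain ⟨h1, h2⟩ := od_true h
  rw [J_mod, h1, h2]

lemma Jw_od {e : Fin 6 → Fin 2} {i : Fin 6} (h : od e i = true) :
    J 0 (e i : ℕ) (ch e i) w0 = J 0 1 1 w0 := by
  obtain ⟨h1, h2⟩ := od_true h
  rw [J_mod, h1, h2]

lemma od_false {e : Fin 6 → Fin 2} {i : Fin 6} (h : od e i = false) :
    ((e i : ℕ) = 0 ∧ ch e i % 2 = 0 ∧ kx e i = 0) ∨ ((e i : ℕ) = 0 ∧ ch e i % 2 = 1 ∧ kx e i = 2) ∨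
      ((e i : ℕ) = 1 ∧ ch e i % 2 = 0 ∧ kx e i = 1) := by
  have h1 : (e i : ℕ) = 0 ∨ (e i : ℕ) = 1 := by have := (e i).isLt; omega
  have h2 : ch e i % 2 = 0 ∨ ch e i % 2 = 1 := by omega
  rcases h1 with h1 | h1 <;> rcases h2 with h2 | h2
  · left; exact ⟨h1, h2, by simp [kx, h1, h2]⟩
  · right; left; exact ⟨h1, h2, by simp [kx, h1, h2]⟩
  · right; right; exact ⟨h1, h2, by simp [kx, h1]⟩
  · exfalso; simp [od, h1, h2] at h

lemma J1_ev {e : Fin 6 → Fin 2} {i : Fin 6} (h : od e i = false) :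
    J 1 (e i : ℕ) (ch e i) 0 = 0 := by
  rw [J_mod]
  rcases od_false h with ⟨h1, h2, _⟩ | ⟨h1, h2, _⟩ | ⟨h1, h2, _⟩ <;> rw [h1, h2]
  · exact J_1_00
  · exact J_1_01
  · exact J_1_10

/-- the number `u` -/
noncomputable def uu : ℂ := J 2 0 0 0 / J 0 0 0 0 - gam
/-- the number `r` -/
noncomputable def rr : ℂ := J 0 0 0 w0 / J 0 0 0 0

lemma J_ev (h0 : J 0 0 0 0 ≠ 0) {e : Fin 6 → Fin 2} {i : Fin 6} (h : od e i = false) :
    J 0 (e i : ℕ) (ch e i) 0 ≠ 0 ∧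
    J 2 (e i : ℕ) (ch e i) 0 = J 0 (e i : ℕ) (ch e i) 0 * (gam + om ^ kx e i * uu) ∧
    J 0 (e i : ℕ) (ch e i) w0 = J 0 (e i : ℕ) (ch e i) 0 * (om ^ (2 * kx e i) * rr) := by
  obtain ⟨u, r, hu, hr, h1, h2, e1, e2, e3, e4, e5, e6⟩ := vals h0
  have hu' : u = uu := hu
  have hr' : r = rr := hr
  rw [J_mod 0, J_mod 2, J_mod 0 e i w0]
  have ho := om_cube
  rcases od_false h with ⟨g1, g2, g3⟩ | ⟨g1, g2, g3⟩ | ⟨g1, g2, g3⟩ <;> rw [g1, g2, g3, ← hu', ← hr']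
  · refine ⟨h0, ?_, ?_⟩
    · rw [e1, pow_zero, one_mul]
    · rw [e4, mul_zero, pow_zero, one_mul]
  · refine ⟨h1, ?_, ?_⟩
    · rw [e2]
    · rw [e5]
      linear_combination -(J 0 0 1 0 * om * r) * ho
  · refine ⟨h2, ?_, ?_⟩
    · rw [e3, pow_one]
    · rw [e6, mul_one]

/-- `(*)` in terms of the products -/
lemma star_iff (l : ℂ) (L : Matrix (Fin 6) (Fin 6) ℂ) : Star tau0 z0 l L ↔
    ∀ e : Fin 6 → Fin 2, PP e 0 (fun i => 2 * z0 i) = l * PP e 0 0 +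
      ∑ p ∈ Finset.univ.filter (fun p : Fin 6 × Fin 6 => p.1 ≤ p.2),
        L p.1 p.2 * ((cc p.1 p.2 : ℂ) / (2 * Real.pi * I)) * PP e (dd p.1 p.2) 0 := by
  unfold Star
  refine forall_congr' (fun e => ?_)
  have h0 := ph_ne_zero e
  rw [Theta_eq, Theta_eq]
  have h1 : (fun i => 2 * (0 : Fin 6 → ℂ) i) = 0 := by
    funext i; simp
  rw [h1]
  have h2 : ∑ p ∈ Finset.univ.filter (fun p : Fin 6 × Fin 6 => p.1 ≤ p.2),
      L p.1 p.2 * dTheta p.1 p.2 e tau0 = ph e *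
      ∑ p ∈ Finset.univ.filter (fun p : Fin 6 × Fin 6 => p.1 ≤ p.2),
        L p.1 p.2 * ((cc p.1 p.2 : ℂ) / (2 * Real.pi * I)) * PP e (dd p.1 p.2) 0 := by
    rw [Finset.mul_sum]
    apply Finset.sum_congr rfl
    intro p _
    rw [dTheta_eq]
    ring
  rw [h2]
  constructor
  · intro h
    apply mul_left_cancel₀ h0
    rw [h]
    ring
  · intro h
    rw [h]
    ring

end Pool.Agent.H36.G00
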