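import Pool.Agent.H36.G00.Star

set_option autoImplicit false

/-! # Solution of `(*)` at `z₀` -/

namespace Pool.Agent.H36.G00

open Complex Matrix

lemma dd_self (a i : Fin 6) : dd a a i = if i = a then 2 else 0 := by
  unfold dd; split_ifs <;> rfl

lemma dd_ne {a b : Fin 6} (hab : a ≠ b) (i : Fin 6) : dd a b i = if i = a ∨ i = b then 1 else 0 := by
  unfold dd
  by_cases h1 : i = a
  · subst h1; simp [hab]
  · by_cases h2 : i = b
    · subst h2; simp [h1]
    · simp [h1, h2]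

lemma PP_diag_zero {e : Fin 6 → Fin 2} {k : Fin 6} (h : od e k = true) (a : Fin 6) :
    PP e (dd a a) 0 = 0 := by
  apply Finset.prod_eq_zero (Finset.mem_univ k)
  rw [dd_self]
  split_ifs
  · exact J2_od h
  · exact J0_od h

lemma PP_zero_zero {e : Fin 6 → Fin 2} {k : Fin 6} (h : od e k = true) : PP e 0 0 = 0 := by
  apply Finset.prod_eq_zero (Finset.mem_univ k)
  exact J0_od h

lemma PP_off_zero {e : Fin 6 → Fin 2} {a b : Fin 6} (hab : a ≠ b) {k : Fin 6}
    (h : od e k ≠ decide (k = a ∨ k = b)) : PP e (dd a b) 0 = 0 := by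
  apply Finset.prod_eq_zero (Finset.mem_univ k)
  rw [dd_ne hab]
  by_cases hk : k = a ∨ k = b
  · rw [if_pos hk]
    apply J1_ev
    simpa [hk] using h
  · rw [if_neg hk]
    apply J0_od
    simpa [hk] using h

/-- the sum over pairs -/
lemma pair_sum (F : Fin 6 → Fin 6 → ℂ) :
    ∑ p ∈ Finset.univ.filter (fun p : Fin 6 × Fin 6 => p.1 ≤ p.2), F p.1 p.2 =
      ∑ a, F a a + ∑ p ∈ Finset.univ.filter (fun p : Fin 6 × Fin 6 => p.1 < p.2), F p.1 p.2 := by
  have h : Finset.univ.filter (fun p : Fin 6 × Fin 6 => p.1 ≤ p.2) =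
      (Finset.univ.image (fun a : Fin 6 => (a, a))) ∪
        Finset.univ.filter (fun p : Fin 6 × Fin 6 => p.1 < p.2) := by
    decide +kernel
  rw [h, Finset.sum_union, Finset.sum_image]
  · intro a _ b _ hab
    exact (Prod.mk.inj hab).1
  · rw [Finset.disjoint_left]
    intro p hp hq
    obtain ⟨a, _, rfl⟩ := Finset.mem_image.1 hp
    exact absurd (Finset.mem_filter.1 hq).2 (lt_irrefl _)

/-- the coefficients -/
noncomputable def mu : Fin 6 → ℂ := ![0, 0, -om ^ 2 / 2, -1 / 2, -1 / 2, -om ^ 2 / 2]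

/-- the matrix of coefficients of `(*)` -/
noncomputable def L0 : Matrix (Fin 6) (Fin 6) ℂ := fun i j =>
  if i = j then 2 * Real.pi * I * (mu i * rr ^ 2 / uu)
  else if (i = 0 ∧ j = 1) ∨ (i = 1 ∧ j = 0) then Real.pi * I * (J 0 1 1 w0 / J 1 1 1 0) ^ 2 else 0

/-- the constant coefficient of `(*)` -/
noncomputable def l0 : ℂ := -gam * ∑ a, mu a * rr ^ 2 / uu

lemma L0_symm : L0.IsSymm := by
  ext i j
  simp only [transpose_apply, L0]
  by_cases h : i = j
  · subst h; rfl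
  · rw [if_neg h, if_neg (Ne.symm h)]
    congr 1
    apply propext
    constructor
    · rintro (⟨h1, h2⟩ | ⟨h1, h2⟩)
      · right; exact ⟨h2, h1⟩
      · left; exact ⟨h2, h1⟩
    · rintro (⟨h1, h2⟩ | ⟨h1, h2⟩)
      · right; exact ⟨h2, h1⟩
      · left; exact ⟨h2, h1⟩

lemma pi_I_ne : (2 * Real.pi * I : ℂ) ≠ 0 := by
  simp [Real.pi_ne_zero]

lemma z0_two (i : Fin 6) : 2 * z0 i = if i = 0 ∨ i = 1 then w0 else 0 := by
  unfold z0
  split_ifs <;> ring

/-- the off-diagonal part of the sum for `L0` -/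
lemma off_sum_L0 (e : Fin 6 → Fin 2) :
    ∑ p ∈ Finset.univ.filter (fun p : Fin 6 × Fin 6 => p.1 < p.2),
        L0 p.1 p.2 * ((cc p.1 p.2 : ℂ) / (2 * Real.pi * I)) * PP e (dd p.1 p.2) 0 =
      (J 0 1 1 w0 / J 1 1 1 0) ^ 2 * PP e (dd 0 1) 0 := by
  rw [Finset.sum_eq_single (0, 1)]
  · have h := pi_I_ne
    simp only [L0, cc]
    rw [if_neg (by decide), if_pos (by decide), if_neg (by decide)]
    push_cast
    field_simp
  · rintro ⟨a, b⟩ hp hne
    have hab : a < b := (Finset.mem_filter.1 hp).2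
    have : L0 a b = 0 := by
      unfold L0
      rw [if_neg hab.ne, if_neg]
      rintro (⟨h1, h2⟩ | ⟨h1, h2⟩)
      · exact hne (by rw [h1, h2])
      · rw [h1, h2] at hab
        exact absurd hab (by decide)
    simp [this]
  · intro h
    exact absurd (Finset.mem_filter.2 ⟨Finset.mem_univ _, by decide⟩) h

lemma L0_diag (a : Fin 6) : L0 a a * ((cc a a : ℂ) / (2 * Real.pi * I)) = mu a * rr ^ 2 / uu := by
  have h := pi_I_ne
  simp only [L0, cc, if_true]
  push_cast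
  field_simp

/-- products on words without odd characteristics -/
lemma PP_even (h0 : J 0 0 0 0 ≠ 0) {e : Fin 6 → Fin 2} (h : ∀ i, od e i = false) (a : Fin 6) :
    PP e (dd a a) 0 = PP e 0 0 * (gam + om ^ kx e a * uu) := by
  unfold PP
  rw [← Finset.mul_prod_erase _ _ (Finset.mem_univ a), ← Finset.mul_prod_erase (a := a) _
    (fun i => J ((0 : Fin 6 → ℕ) i) (e i : ℕ) (ch e i) ((0 : Fin 6 → ℂ) i)) (Finset.mem_univ a)]
  have h1 : ∏ x ∈ Finset.univ.erase a, J (dd a a x) (e x : ℕ) (ch e x) ((0 : Fin 6 → ℂ) x) =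
      ∏ x ∈ Finset.univ.erase a, J ((0 : Fin 6 → ℕ) x) (e x : ℕ) (ch e x) ((0 : Fin 6 → ℂ) x) := by
    apply Finset.prod_congr rfl
    intro x hx
    rw [dd_self, if_neg (Finset.ne_of_mem_erase hx)]
    rfl
  rw [h1, dd_self, if_pos rfl]
  have h2 := (J_ev h0 (h a)).2.1
  simp only [Pi.zero_apply]
  rw [h2]
  ring

lemma PP_z0_even (h0 : J 0 0 0 0 ≠ 0) {e : Fin 6 → Fin 2} (h : ∀ i, od e i = false) :
    PP e 0 (fun i => 2 * z0 i) = PP e 0 0 * (om ^ (2 * kx e 0 + 2 * kx e 1) * rr ^ 2) := by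
  unfold PP
  simp only [z0_two, Fin.prod_univ_six, Pi.zero_apply]
  have h1 := (J_ev h0 (h 0)).2.2
  have h2 := (J_ev h0 (h 1)).2.2
  simp only [true_or, or_true, if_true]
  rw [h1, h2]
  have e2 : (if (2 : Fin 6) = 0 ∨ (2 : Fin 6) = 1 then w0 else 0) = 0 := if_neg (by decide)
  have e3 : (if (3 : Fin 6) = 0 ∨ (3 : Fin 6) = 1 then w0 else 0) = 0 := if_neg (by decide)
  have e4 : (if (4 : Fin 6) = 0 ∨ (4 : Fin 6) = 1 then w0 else 0) = 0 := if_neg (by decide)
  have e5 : (if (5 : Fin 6) = 0 ∨ (5 : Fin 6) = 1 then w0 else 0) = 0 := if_neg (by decide)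
  rw [e2, e3, e4, e5, pow_add]
  ring

lemma PP_z0_odd {e : Fin 6 → Fin 2} (h0 : od e 0 = true) (h1 : od e 1 = true)
    (hJ : J 1 1 1 0 ≠ 0) :
    PP e 0 (fun i => 2 * z0 i) = (J 0 1 1 w0 / J 1 1 1 0) ^ 2 * PP e (dd 0 1) 0 := by
  unfold PP
  simp only [z0_two, Fin.prod_univ_six, Pi.zero_apply, dd_ne (show (0 : Fin 6) ≠ 1 by decide)]
  simp only [true_or, or_true, if_true]
  rw [Jw_od h0, Jw_od h1, J1_od h0, J1_od h1]
  have e2 : ¬ ((2 : Fin 6) = 0 ∨ (2 : Fin 6) = 1) := by decide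
  have e3 : ¬ ((3 : Fin 6) = 0 ∨ (3 : Fin 6) = 1) := by decide
  have e4 : ¬ ((4 : Fin 6) = 0 ∨ (4 : Fin 6) = 1) := by decide
  have e5 : ¬ ((5 : Fin 6) = 0 ∨ (5 : Fin 6) = 1) := by decide
  simp only [if_neg e2, if_neg e3, if_neg e4, if_neg e5]
  field_simp

lemma PP_z0_zero {e : Fin 6 → Fin 2} {k : Fin 6} (hk : ¬ (k = 0 ∨ k = 1)) (h : od e k = true) :
    PP e 0 (fun i => 2 * z0 i) = 0 := by
  apply Finset.prod_eq_zero (Finset.mem_univ k)
  simp only [z0_two]
  rw [if_neg hk]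
  exact J0_od h

lemma mu_id {e : Fin 6 → Fin 2} (h : ∀ i, od e i = false) :
    om ^ (2 * kx e 0 + 2 * kx e 1) = ∑ a, mu a * om ^ kx e a := by
  have h1 := comb_id e (h 0) (h 1) (h 2) (h 3) (h 4) (h 5)
  have e1 := congrArg Prod.fst h1
  have e2 := congrArg Prod.snd h1
  simp only [Prod.fst_add, Prod.snd_add, Prod.fst_zero, Prod.snd_zero] at e1 e2
  have c1 := congrArg (Int.cast : ℤ → ℂ) e1
  have c2 := congrArg (Int.cast : ℤ → ℂ) e2
  push_cast at c1 c2
  have hs : om ^ (2 * kx e 0 + 2 * kx e 1) + om ^ (2 * kx e 0 + 2 * kx e 1) + om ^ (2 + kx e 2) +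
      om ^ kx e 3 + om ^ kx e 4 + om ^ (2 + kx e 5) = 0 := by
    rw [zw_spec (2 * kx e 0 + 2 * kx e 1), zw_spec (2 + kx e 2), zw_spec (kx e 3), zw_spec (kx e 4),
      zw_spec (2 + kx e 5)]
    linear_combination c1 + om * c2
  simp only [Fin.sum_univ_six, mu]
  simp only [Fin.isValue, cons_val_zero, cons_val_one, cons_val, zero_mul, zero_add]
  rw [pow_add om 2, pow_add om 2] at hs
  linear_combination (1 / 2) * hs

theorem star_exists (h0 : J 0 0 0 0 ≠ 0) (hu : uu ≠ 0) (hJ : J 1 1 1 0 ≠ 0) :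
    Star tau0 z0 l0 L0 := by
  rw [star_iff]
  intro e
  rw [pair_sum (fun a b => L0 a b * ((cc a b : ℂ) / (2 * Real.pi * I)) * PP e (dd a b) 0),
    off_sum_L0]
  simp only [L0_diag]
  by_cases hE : ∃ k, ¬ (k = 0 ∨ k = 1) ∧ od e k = true
  · obtain ⟨k, hk1, hk2⟩ := hE
    rw [PP_z0_zero hk1 hk2, PP_zero_zero hk2, PP_off_zero (by decide) (k := k) (by
      rw [hk2]; simpa using hk1)]
    simp only [PP_diag_zero hk2]
    simp
  · have h2 : ∀ k, ¬ (k = 0 ∨ k = 1) → od e k = false := by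
      intro k hk
      by_contra hc
      exact hE ⟨k, hk, by simpa using hc⟩
    have hpair := comb_pair e (h2 2 (by decide)) (h2 3 (by decide)) (h2 4 (by decide))
      (h2 5 (by decide))
    cases h01 : od e 0 with
    | true =>
      have h11 : od e 1 = true := by rw [← hpair, h01]
      rw [PP_z0_odd h01 h11 hJ, PP_zero_zero h01]
      simp only [PP_diag_zero h01]
      simp
    | false =>
      have h11 : od e 1 = false := by rw [← hpair, h01]
      have hall : ∀ i, od e i = false := by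
        intro i
        by_cases hi : i = 0 ∨ i = 1
        · rcases hi with rfl | rfl
          · exact h01
          · exact h11
        · exact h2 i hi
      rw [PP_z0_even h0 hall, PP_off_zero (by decide) (k := 0) (by rw [h01]; simp), mu_id hall]
      simp only [PP_even h0 hall]
      rw [l0]
      simp only [Finset.mul_sum, Finset.sum_mul]
      rw [mul_zero, add_zero, ← Finset.sum_add_distrib]
      apply Finset.sum_congr rfl
      intro a _
      field_simp
      ring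

end Pool.Agent.H36.G00
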