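import Pool.Agent.H36.G00.StarEx

set_option autoImplicit false

/-! # The coefficient matrix of `(*)` at `z₀` has rank six -/

namespace Pool.Agent.H36.G00

open Complex Matrix

lemma comb_sep : ∀ a b c d : Fin 6, a < b → c < d → (c, d) ≠ (a, b) →
    ∃ k, decide (k = a ∨ k = b) ≠ decide (k = c ∨ k = d) := by
  decide +kernel

lemma comb_big : ∀ a b : Fin 6, a < b → (a, b) ≠ (0, 1) →
    ∃ k, ¬ (k = 0 ∨ k = 1) ∧ (k = a ∨ k = b) := by
  decide +kernel

lemma PP_word_ne (h0 : J 0 0 0 0 ≠ 0) (hJ : J 1 1 1 0 ≠ 0) {e : Fin 6 → Fin 2} {a b : Fin 6}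
    (hab : a ≠ b) (h : ∀ i, od e i = decide (i = a ∨ i = b)) : PP e (dd a b) 0 ≠ 0 := by
  unfold PP
  rw [Finset.prod_ne_zero_iff]
  intro i _
  rw [dd_ne hab]
  by_cases hi : i = a ∨ i = b
  · rw [if_pos hi]
    have : od e i = true := by rw [h i]; simpa using hi
    simp only [Pi.zero_apply]
    rw [J1_od this]
    exact hJ
  · rw [if_neg hi]
    have : od e i = false := by rw [h i]; simpa using hi
    exact (J_ev h0 this).1

/-- the equation for a word with exactly the odd positions `a`, `b` -/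
lemma star_word {l : ℂ} {L : Matrix (Fin 6) (Fin 6) ℂ} (hs : Star tau0 z0 l L)
    {e : Fin 6 → Fin 2} {a b : Fin 6} (hab : a < b) (h : ∀ i, od e i = decide (i = a ∨ i = b)) :
    PP e 0 (fun i => 2 * z0 i) = L a b * ((cc a b : ℂ) / (2 * Real.pi * I)) * PP e (dd a b) 0 := by
  rw [star_iff] at hs
  have h1 := hs e
  rw [pair_sum (fun a b => L a b * ((cc a b : ℂ) / (2 * Real.pi * I)) * PP e (dd a b) 0)] at h1
  have ha : od e a = true := by rw [h a]; simp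
  rw [PP_zero_zero ha] at h1
  simp only [PP_diag_zero ha, mul_zero, Finset.sum_const_zero, zero_add] at h1
  rw [h1, Finset.sum_eq_single (a, b)]
  · rintro ⟨c, d⟩ hp hne
    have hcd : c < d := (Finset.mem_filter.1 hp).2
    obtain ⟨k, hk⟩ := comb_sep a b c d hab hcd hne
    have : PP e (dd c d) 0 = 0 := PP_off_zero hcd.ne (k := k) (by rw [h k]; exact hk)
    simp only
    rw [this, mul_zero]
  · intro hn
    have hin : (a, b) ∈ Finset.univ.filter (fun p : Fin 6 × Fin 6 => p.1 < p.2) :=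
      Finset.mem_filter.2 ⟨Finset.mem_univ _, hab⟩
    exact absurd hin hn

lemma cc_ne (a b : Fin 6) : ((cc a b : ℂ) / (2 * Real.pi * I)) ≠ 0 := by
  apply div_ne_zero _ pi_I_ne
  unfold cc
  split_ifs <;> norm_num

lemma off_zero (h0 : J 0 0 0 0 ≠ 0) (hJ : J 1 1 1 0 ≠ 0) {l : ℂ} {L : Matrix (Fin 6) (Fin 6) ℂ}
    (hs : Star tau0 z0 l L) {a b : Fin 6} (hab : a < b) (hne : (a, b) ≠ (0, 1)) : L a b = 0 := by
  obtain ⟨e, he⟩ := comb_word a b hab
  have h1 := star_word hs hab he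
  obtain ⟨k, hk1, hk2⟩ := comb_big a b hab hne
  rw [PP_z0_zero hk1 (by rw [he k]; simpa using hk2)] at h1
  have h2 := PP_word_ne h0 hJ hab.ne he
  have h3 := cc_ne a b
  have h4 : L a b * ((cc a b : ℂ) / (2 * Real.pi * I)) * PP e (dd a b) 0 = 0 := h1.symm
  rcases mul_eq_zero.1 h4 with h5 | h5
  · rcases mul_eq_zero.1 h5 with h6 | h6
    · exact h6
    · exact absurd h6 h3
  · exact absurd h5 h2

lemma L01_ne (h0 : J 0 0 0 0 ≠ 0) (hJ : J 1 1 1 0 ≠ 0) (hJw : J 0 1 1 w0 ≠ 0) {l : ℂ}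
    {L : Matrix (Fin 6) (Fin 6) ℂ} (hs : Star tau0 z0 l L) : L 0 1 ≠ 0 := by
  obtain ⟨e, he⟩ := comb_word 0 1 (by decide)
  have h1 := star_word hs (by decide) he
  rw [PP_z0_odd (by rw [he 0]; simp) (by rw [he 1]; simp) hJ] at h1
  have h2 := PP_word_ne h0 hJ (by decide) he
  intro h
  rw [h, zero_mul, zero_mul] at h1
  have h3 : (J 0 1 1 w0 / J 1 1 1 0) ^ 2 ≠ 0 := pow_ne_zero 2 (div_ne_zero hJw hJ)
  exact mul_ne_zero h3 h2 h1

lemma sum_zw (s : Finset (Fin 6 → Fin 2)) (f : (Fin 6 → Fin 2) → ℕ) :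
    ∑ e ∈ s, om ^ f e = ((∑ e ∈ s, zw (f e)).1 : ℂ) + ((∑ e ∈ s, zw (f e)).2 : ℂ) * om := by
  rw [Prod.fst_sum, Prod.snd_sum]
  push_cast
  rw [Finset.sum_mul, ← Finset.sum_add_distrib]
  exact Finset.sum_congr rfl (fun e _ => zw_spec (f e))

/-- the equation for words without odd positions -/
lemma star_even (h0 : J 0 0 0 0 ≠ 0) {l : ℂ} {L : Matrix (Fin 6) (Fin 6) ℂ}
    (hs : Star tau0 z0 l L) {e : Fin 6 → Fin 2} (h : ∀ i, od e i = false) :
    om ^ (2 * kx e 0 + 2 * kx e 1) * rr ^ 2 =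
      l + ∑ a, L a a * (1 / (2 * Real.pi * I)) * (gam + om ^ kx e a * uu) := by
  rw [star_iff] at hs
  have h1 := hs e
  rw [pair_sum (fun a b => L a b * ((cc a b : ℂ) / (2 * Real.pi * I)) * PP e (dd a b) 0)] at h1
  have hoff : ∑ p ∈ Finset.univ.filter (fun p : Fin 6 × Fin 6 => p.1 < p.2),
      L p.1 p.2 * ((cc p.1 p.2 : ℂ) / (2 * Real.pi * I)) * PP e (dd p.1 p.2) 0 = 0 := by
    apply Finset.sum_eq_zero
    rintro ⟨c, d⟩ hp
    have hcd : c < d := (Finset.mem_filter.1 hp).2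
    have : PP e (dd c d) 0 = 0 := PP_off_zero hcd.ne (k := c) (by rw [h c]; simp)
    simp only
    rw [this, mul_zero]
  rw [hoff, PP_z0_even h0 h] at h1
  simp only [PP_even h0 h] at h1
  have hP : PP e 0 0 ≠ 0 := by
    unfold PP
    rw [Finset.prod_ne_zero_iff]
    intro i _
    exact (J_ev h0 (h i)).1
  apply mul_left_cancel₀ hP
  rw [h1]
  have hcc : ∀ a : Fin 6, ((cc a a : ℕ) : ℂ) = 1 := by intro a; simp [cc]
  simp only [hcc]
  rw [mul_add, Finset.mul_sum, add_zero]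
  congr 1
  · ring
  · apply Finset.sum_congr rfl
    intro a _
    ring

lemma diag_eq (h0 : J 0 0 0 0 ≠ 0) {l : ℂ} {L : Matrix (Fin 6) (Fin 6) ℂ}
    (hs : Star tau0 z0 l L) (a : Fin 6) :
    18 * (L a a * (1 / (2 * Real.pi * I))) * uu =
      rr ^ 2 * ((((![0, 0, (9, 9), (-9, 0), (-9, 0), (9, 9)] : Fin 6 → ℤ × ℤ) a).1 : ℂ) +
        (((![0, 0, (9, 9), (-9, 0), (-9, 0), (9, 9)] : Fin 6 → ℤ × ℤ) a).2 : ℂ) * om) := by
  set X : Fin 6 → ℂ := fun b => L b b * (1 / (2 * Real.pi * I)) with hX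
  have h1 : ∀ e ∈ WW, om ^ (2 * kx e a) * (om ^ (2 * kx e 0 + 2 * kx e 1) * rr ^ 2) =
      om ^ (2 * kx e a) * (l + ∑ b, X b * (gam + om ^ kx e b * uu)) := by
    intro e he
    rw [star_even h0 hs (Finset.mem_filter.1 he).2]
  have h2 := Finset.sum_congr rfl h1
  have h3 : ∑ e ∈ WW, om ^ (2 * kx e a) * (om ^ (2 * kx e 0 + 2 * kx e 1) * rr ^ 2) =
      rr ^ 2 * ∑ e ∈ WW, om ^ (2 * kx e 0 + 2 * kx e 1 + 2 * kx e a) := by
    rw [Finset.mul_sum]
    apply Finset.sum_congr rfl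
    intro e _
    rw [pow_add om (2 * kx e 0 + 2 * kx e 1)]
    ring
  have h4 : ∑ e ∈ WW, om ^ (2 * kx e a) * (l + ∑ b, X b * (gam + om ^ kx e b * uu)) =
      (l + ∑ b, X b * gam) * ∑ e ∈ WW, om ^ (2 * kx e a) +
      ∑ b, X b * uu * ∑ e ∈ WW, om ^ (kx e b + 2 * kx e a) := by
    have h5 : ∑ b, X b * uu * ∑ e ∈ WW, om ^ (kx e b + 2 * kx e a) =
        ∑ e ∈ WW, ∑ b, X b * uu * om ^ (kx e b + 2 * kx e a) := by
      rw [Finset.sum_comm]
      apply Finset.sum_congr rfl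
      intro b _
      rw [Finset.mul_sum]
    rw [h5, Finset.mul_sum, ← Finset.sum_add_distrib]
    apply Finset.sum_congr rfl
    intro e _
    rw [add_mul, mul_add, add_assoc, Finset.sum_mul, Finset.mul_sum, ← Finset.sum_add_distrib]
    congr 1
    · ring
    · apply Finset.sum_congr rfl
      intro b _
      rw [pow_add]
      ring
  rw [h3, h4, sum_zw, sum_two a, sum_zw WW (fun e => 2 * kx e a), sum_one a] at h2
  rw [h2]
  have h6 : ∀ b, ∑ e ∈ WW, om ^ (kx e b + 2 * kx e a) = if a = b then 18 else 0 := by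
    intro b
    rw [sum_zw, sum_orth a b]
    split_ifs <;> simp
  simp only [h6, Prod.fst_zero, Prod.snd_zero, Int.cast_zero, zero_mul, add_zero, mul_zero,
    zero_add, mul_ite, Finset.sum_ite_eq, Finset.mem_univ, if_true]
  rw [hX]
  ring

theorem star_det (h0 : J 0 0 0 0 ≠ 0) (hu : uu ≠ 0) (hr : rr ≠ 0) (hJ : J 1 1 1 0 ≠ 0)
    (hJw : J 0 1 1 w0 ≠ 0) {l : ℂ} {L : Matrix (Fin 6) (Fin 6) ℂ} (hsym : L.IsSymm)
    (hs : Star tau0 z0 l L) : L.det ≠ 0 := by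
  have hpi := pi_I_ne
  have hx := L01_ne h0 hJ hJw hs
  have hsy : ∀ i j, L j i = L i j := fun i j => hsym.apply i j
  have hoff : ∀ i j, i < j → (i, j) ≠ (0, 1) → L i j = 0 := fun i j hij hne =>
    off_zero h0 hJ hs hij hne
  have hoff' : ∀ i j, i < j → (i, j) ≠ (0, 1) → L j i = 0 := fun i j hij hne => by
    rw [hsy i j]; exact off_zero h0 hJ hs hij hne
  have hc : (18 : ℂ) * (1 / (2 * Real.pi * I)) * uu ≠ 0 :=
    mul_ne_zero (mul_ne_zero (by norm_num) (one_div_ne_zero hpi)) hu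
  have hz : ∀ a, rr ^ 2 * ((((![0, 0, (9, 9), (-9, 0), (-9, 0), (9, 9)] : Fin 6 → ℤ × ℤ) a).1 : ℂ) +
      (((![0, 0, (9, 9), (-9, 0), (-9, 0), (9, 9)] : Fin 6 → ℤ × ℤ) a).2 : ℂ) * om) = 0 → L a a = 0 := by
    intro a ha
    have h1 := diag_eq h0 hs a
    rw [ha] at h1
    have h2 : (18 : ℂ) * (1 / (2 * Real.pi * I)) * uu * L a a = 0 := by linear_combination h1
    exact (mul_eq_zero.1 h2).resolve_left hc
  have hnz : ∀ a, ((((![0, 0, (9, 9), (-9, 0), (-9, 0), (9, 9)] : Fin 6 → ℤ × ℤ) a).1 : ℂ) +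
      (((![0, 0, (9, 9), (-9, 0), (-9, 0), (9, 9)] : Fin 6 → ℤ × ℤ) a).2 : ℂ) * om) ≠ 0 → L a a ≠ 0 := by
    intro a ha hL
    have h1 := diag_eq h0 hs a
    rw [hL] at h1
    exact mul_ne_zero (pow_ne_zero 2 hr) ha (by linear_combination -h1)
  have hom := om_ne_zero
  have h99 : (9 : ℂ) + 9 * om ≠ 0 := by
    have : (9 : ℂ) + 9 * om = -9 * om ^ 2 := by rw [om_sq]; ring
    rw [this]
    exact mul_ne_zero (by norm_num) (pow_ne_zero 2 hom)
  have d0 : L 0 0 = 0 := hz 0 (by simp)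
  have d1 : L 1 1 = 0 := hz 1 (by simp)
  have d2 : L 2 2 ≠ 0 := hnz 2 (by simpa using h99)
  have d3 : L 3 3 ≠ 0 := hnz 3 (by simp)
  have d4 : L 4 4 ≠ 0 := hnz 4 (by simp)
  have d5 : L 5 5 ≠ 0 := hnz 5 (by simpa using h99)
  have x10 : L 1 0 = L 0 1 := hsy 0 1
  have hL : L = !![0, L 0 1, 0, 0, 0, 0;
                   L 0 1, 0, 0, 0, 0, 0;
                   0, 0, L 2 2, 0, 0, 0;
                   0, 0, 0, L 3 3, 0, 0;
                   0, 0, 0, 0, L 4 4, 0;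
                   0, 0, 0, 0, 0, L 5 5] := by
    ext i j
    fin_cases i <;> fin_cases j <;>
      first
      | rfl
      | exact d0
      | exact d1
      | exact x10
      | exact hoff _ _ (by decide) (by decide)
      | exact hoff' _ _ (by decide) (by decide)
  intro hdet
  have hM : L * !![0, 1 / L 0 1, 0, 0, 0, 0;
                   1 / L 0 1, 0, 0, 0, 0, 0;
                   0, 0, 1 / L 2 2, 0, 0, 0;
                   0, 0, 0, 1 / L 3 3, 0, 0;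
                   0, 0, 0, 0, 1 / L 4 4, 0;
                   0, 0, 0, 0, 0, 1 / L 5 5] = 1 := by
    conv_lhs => rw [hL]
    ext i j
    fin_cases i <;> fin_cases j <;>
      simp [Matrix.mul_apply, Fin.sum_univ_six, hx, d2, d3, d4, d5]
  have h1 := congrArg Matrix.det hM
  rw [Matrix.det_mul, hdet, zero_mul, Matrix.det_one] at h1
  exact zero_ne_one h1

end Pool.Agent.H36.G00
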