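import Pool.Agent.H36.G00.Defs

set_option autoImplicit false

/-! # The period matrix `τ₀ = (ω / 2) 1 + S / 2` -/

namespace Pool.Agent.H36.G00

open Complex Matrix

/-- the wheel with five spokes and a loop at the hub `0` -/
def Sm : Matrix (Fin 6) (Fin 6) ℤ :=
  !![1, 1, 1, 1, 1, 1;
     1, 0, 1, 0, 0, 1;
     1, 1, 0, 1, 0, 0;
     1, 0, 1, 0, 1, 0;
     1, 0, 0, 1, 0, 1;
     1, 1, 0, 0, 1, 0]

/-- the cube root of unity -/
noncomputable def om : ℂ := ⟨-1 / 2, Real.sqrt 3 / 2⟩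

/-- the period matrix of the example -/
noncomputable def tau0 : Matrix (Fin 6) (Fin 6) ℂ :=
  fun i j => (if i = j then om / 2 else 0) + ((Sm i j : ℤ) : ℂ) / 2

lemma om_sq : om ^ 2 = -1 - om := by
  have h3 : (Real.sqrt 3) ^ 2 = 3 := Real.sq_sqrt (by norm_num)
  apply Complex.ext
  · simp [om, pow_two]
    nlinarith
  · simp [om, pow_two]
    ring

lemma om_ne_zero : om ≠ 0 := by
  intro h
  have := congrArg Complex.re h
  simp [om] at this

/-- multiplication by `ω` on `ℂ^g` -/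
noncomputable def omEquiv : (Fin 6 → ℂ) ≃ₗ[ℂ] (Fin 6 → ℂ) :=
  LinearEquiv.smulOfNeZero ℂ (Fin 6 → ℂ) om om_ne_zero

end Pool.Agent.H36.G00
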